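import Pool.Agent.Helper87.BVSPDefs

/-! Basic lemmas on multigraded pieces, evaluation and point ideals. -/

open MvPolynomial Filter Topology

namespace Pool.Agent.Helper87.BVSP

variable {m : ℕ}

/-- Evaluation of a polynomial at a triple of coordinate vectors. -/
noncomputable def ev (z : Fin 3 → Fin m → ℂ) : Cox m →+* ℂ :=
  MvPolynomial.eval (fun v => z v.1 v.2)

theorem weight_apply (u : Fin 3 × Fin m →₀ ℕ) (s : Fin 3) :
    (Finsupp.weight (wt m) u) s = ∑ i, u (s, i) := by
  rw [Finsupp.weight_apply, Finsupp.sum_fintype _ _ (by simp)]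
  rw [Finset.sum_apply, Fintype.sum_prod_type]
  rw [Finset.sum_eq_single s]
  · simp [wt]
  · intro b _ hb
    simp [wt, hb.symm]
  · simp

theorem mem_piece {d : Fin 3 → ℕ} {f : Cox m} :
    f ∈ piece m d ↔ ∀ u, coeff u f ≠ 0 → ∀ s, ∑ i, u (s, i) = d s := by
  rw [piece, mem_weightedHomogeneousSubmodule, IsWeightedHomogeneous]
  constructor
  · intro h u hu s
    rw [← weight_apply, h hu]
  · intro h u hu
    funext s
    rw [weight_apply, h u hu s]

theorem ev_eq_sum (z : Fin 3 → Fin m → ℂ) (f : Cox m) :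
    ev z f = ∑ u ∈ f.support, coeff u f * ∏ s, ∏ i, z s i ^ u (s, i) := by
  rw [ev, MvPolynomial.eval_eq']
  refine Finset.sum_congr rfl fun u _ => ?_
  rw [Fintype.prod_prod_type]

theorem ev_scale {d : Fin 3 → ℕ} {f : Cox m} (hf : f ∈ piece m d) (c : Fin 3 → ℂ)
    (z : Fin 3 → Fin m → ℂ) :
    ev (fun s i => c s * z s i) f = (∏ s, c s ^ d s) * ev z f := by
  rw [ev_eq_sum, ev_eq_sum, Finset.mul_sum]
  refine Finset.sum_congr rfl fun u hu => ?_
  have h := mem_piece.1 hf u (by simpa [MvPolynomial.mem_support_iff] using hu)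
  have : (∏ s, ∏ i, (c s * z s i) ^ u (s, i)) =
      (∏ s, c s ^ d s) * ∏ s, ∏ i, z s i ^ u (s, i) := by
    rw [← Finset.prod_mul_distrib]
    refine Finset.prod_congr rfl fun s _ => ?_
    rw [← h s, ← Finset.prod_pow_eq_pow_sum, ← Finset.prod_mul_distrib]
    refine Finset.prod_congr rfl fun i _ => ?_
    rw [mul_pow]
  rw [this]; ring

theorem mem_idealOf {r : ℕ} {Z : Fin r → Fin 3 → Fin m → ℂ} {d : Fin 3 → ℕ} {f : Cox m}
    (hf : f ∈ piece m d) : f ∈ idealOf Z ↔ ∀ i, ev (Z i) f = 0 := by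
  rw [idealOf, mem_vanishingIdeal_iff]
  constructor
  · intro h i
    have := h (fun v => 1 * Z i v.1 v.2) ⟨i, fun _ => 1, rfl⟩
    simpa [ev, MvPolynomial.aeval_eq_eval] using this
  · rintro h x ⟨i, c, rfl⟩
    have h1 := ev_scale hf c (Z i)
    rw [h i, mul_zero] at h1
    simpa [ev, MvPolynomial.aeval_eq_eval] using h1

/-- The set of exponents of multidegree `d` is finite. -/
theorem finite_exps (m : ℕ) (d : Fin 3 → ℕ) :
    {u : Fin 3 × Fin m →₀ ℕ | ∀ s, ∑ i, u (s, i) = d s}.Finite := by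
  have : {u : Fin 3 × Fin m →₀ ℕ | ∀ s, ∑ i, u (s, i) = d s} ⊆
      Set.Iic (Finsupp.equivFunOnFinite.symm fun v => d v.1) := by
    intro u hu
    rw [Set.mem_Iic, Finsupp.le_def]
    rintro ⟨s, i⟩
    simp only [Finsupp.equivFunOnFinite_symm_apply_apply]
    rw [← hu s]
    exact Finset.single_le_sum (f := fun i => u (s, i)) (fun _ _ => Nat.zero_le _)
      (Finset.mem_univ i)
  exact (Set.finite_Iic _).subset this

/-- The exponents of multidegree `d`, as a finset. -/
noncomputable def exps (m : ℕ) (d : Fin 3 → ℕ) : Finset (Fin 3 × Fin m →₀ ℕ) :=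
  (finite_exps m d).toFinset

theorem mem_exps {d : Fin 3 → ℕ} {u : Fin 3 × Fin m →₀ ℕ} :
    u ∈ exps m d ↔ ∀ s, ∑ i, u (s, i) = d s := by
  simp [exps]

theorem support_subset_exps {d : Fin 3 → ℕ} {f : Cox m} (hf : f ∈ piece m d) :
    f.support ⊆ exps m d := by
  intro u hu
  rw [mem_exps]
  exact mem_piece.1 hf u (by simpa [MvPolynomial.mem_support_iff] using hu)

theorem ev_eq_sum_exps {d : Fin 3 → ℕ} {f : Cox m} (hf : f ∈ piece m d)
    (z : Fin 3 → Fin m → ℂ) :
    ev z f = ∑ u ∈ exps m d, coeff u f * ∏ s, ∏ i, z s i ^ u (s, i) := by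
  rw [ev_eq_sum]
  refine Finset.sum_subset (support_subset_exps hf) fun u _ hu => ?_
  rw [MvPolynomial.mem_support_iff, not_not] at hu
  rw [hu, zero_mul]

/-- Joint continuity of evaluation in the point and the coefficients. -/
theorem tendsto_ev {ι : Type*} {l : Filter ι} {d : Fin 3 → ℕ} {g : ι → Cox m} {f : Cox m}
    (hg : ∀ k, g k ∈ piece m d) (hf : f ∈ piece m d)
    (hlim : ∀ u, Tendsto (fun k => coeff u (g k)) l (𝓝 (coeff u f)))
    {z : ι → Fin 3 → Fin m → ℂ} {z₀ : Fin 3 → Fin m → ℂ}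
    (hz : ∀ s i, Tendsto (fun k => z k s i) l (𝓝 (z₀ s i))) :
    Tendsto (fun k => ev (z k) (g k)) l (𝓝 (ev z₀ f)) := by
  rw [ev_eq_sum_exps hf]
  have : (fun k => ev (z k) (g k)) =
      fun k => ∑ u ∈ exps m d, coeff u (g k) * ∏ s, ∏ i, z k s i ^ u (s, i) := by
    funext k
    rw [ev_eq_sum_exps (hg k)]
  rw [this]
  refine tendsto_finsetSum _ fun u _ => ?_
  refine (hlim u).mul ?_
  refine tendsto_finsetProd _ fun s _ => ?_
  refine tendsto_finsetProd _ fun i _ => ?_
  exact (hz s i).pow _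

instance piece_finite (m : ℕ) (d : Fin 3 → ℕ) : FiniteDimensional ℂ (piece m d) := by
  have h : piece m d ≤ Submodule.span ℂ
      ((fun u => (monomial u (1 : ℂ) : Cox m)) '' (exps m d : Set (Fin 3 × Fin m →₀ ℕ))) := by
    intro f hf
    rw [f.as_sum]
    refine Submodule.sum_mem _ fun u hu => ?_
    have : (monomial u (coeff u f) : Cox m) = coeff u f • monomial u 1 := by
      rw [smul_monomial, smul_eq_mul, mul_one]
    rw [this]
    exact Submodule.smul_mem _ _ (Submodule.subset_span ⟨u, support_subset_exps hf hu, rfl⟩)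
  have : FiniteDimensional ℂ (Submodule.span ℂ
      ((fun u => (monomial u (1 : ℂ) : Cox m)) '' (exps m d : Set (Fin 3 × Fin m →₀ ℕ)))) :=
    FiniteDimensional.span_of_finite ℂ ((Finset.finite_toSet _).image _)
  exact Submodule.finiteDimensional_of_le h

/-- The degree `d` part of an ideal, as a subspace. -/
noncomputable def part (J : Ideal (Cox m)) (d : Fin 3 → ℕ) : Submodule ℂ (Cox m) :=
  J.restrictScalars ℂ ⊓ piece m d

theorem mem_part {J : Ideal (Cox m)} {d : Fin 3 → ℕ} {f : Cox m} :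
    f ∈ part J d ↔ f ∈ J ∧ f ∈ piece m d := by
  simp [part]

theorem part_le (J : Ideal (Cox m)) (d : Fin 3 → ℕ) : part J d ≤ piece m d := inf_le_right

theorem hilb_add_finrank (J : Ideal (Cox m)) (d : Fin 3 → ℕ) :
    hilb J d + Module.finrank ℂ (part J d) = Module.finrank ℂ (piece m d) := by
  have h1 := Submodule.finrank_quotient_add_finrank
    ((J.restrictScalars ℂ).comap (piece m d).subtype)
  have h2 : (J.restrictScalars ℂ).comap (piece m d).subtype =
      (part J d).comap (piece m d).subtype := by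
    ext x
    simp [part]
  have h3 := LinearEquiv.finrank_eq (Submodule.comapSubtypeEquivOfLe (part_le J d))
  rw [hilb, ← h3, ← h2]
  exact h1

theorem finrank_part_le (J : Ideal (Cox m)) (d : Fin 3 → ℕ) :
    Module.finrank ℂ (part J d) ≤ Module.finrank ℂ (piece m d) :=
  Submodule.finrank_mono (part_le J d)

/-- Codimension lower bound from independent functionals. -/
theorem finrank_add_le_of_functionals {r : ℕ} {V P : Submodule ℂ (Cox m)}
    [FiniteDimensional ℂ P] (hVP : V ≤ P) (φ : Cox m →ₗ[ℂ] (Fin r → ℂ))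
    (hV : ∀ f ∈ V, φ f = 0) (G : Fin r → Cox m) (hG : ∀ j, G j ∈ P)
    (hφG : ∀ i j, φ (G j) i = if i = j then 1 else 0) :
    Module.finrank ℂ V + r ≤ Module.finrank ℂ P := by
  have hsurj : Function.Surjective (φ.comp P.subtype) := by
    intro c
    refine ⟨∑ j, c j • ⟨G j, hG j⟩, ?_⟩
    funext i
    simp [map_sum, Finset.sum_apply, hφG]
  have h1 := LinearMap.finrank_range_add_finrank_ker (φ.comp P.subtype)
  rw [LinearMap.range_eq_top.2 hsurj, finrank_top, Module.finrank_fin_fun] at h1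
  have h2 : V.comap P.subtype ≤ LinearMap.ker (φ.comp P.subtype) := by
    intro x hx
    simp only [Submodule.mem_comap] at hx
    simpa using hV _ hx
  have h3 := Submodule.finrank_mono h2
  rw [LinearEquiv.finrank_eq (Submodule.comapSubtypeEquivOfLe hVP)] at h3
  omega

end Pool.Agent.Helper87.BVSP
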