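import Pool.Agent.Helper87.BVSPBasic

/-! Products of graded pieces. -/

open MvPolynomial Filter Topology

namespace Pool.Agent.Helper87.BVSP

variable {m : ℕ}

theorem X_mem_piece (s : Fin 3) (i : Fin m) : (X (s, i) : Cox m) ∈ piece m (Pi.single s 1) := by
  have := isWeightedHomogeneous_X ℂ (wt m) (s, i)
  simpa [piece, wt] using this

theorem mul_mem_piece {d e : Fin 3 → ℕ} {f g : Cox m} (hf : f ∈ piece m d) (hg : g ∈ piece m e) :
    f * g ∈ piece m (d + e) := by
  rw [piece, mem_weightedHomogeneousSubmodule] at *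
  exact hf.mul hg

theorem pow_mem_piece {d : Fin 3 → ℕ} {f : Cox m} (hf : f ∈ piece m d) (n : ℕ) :
    f ^ n ∈ piece m (n • d) := by
  rw [piece, mem_weightedHomogeneousSubmodule] at *
  exact hf.pow n

theorem one_mem_piece : (1 : Cox m) ∈ piece m 0 := by
  rw [piece, mem_weightedHomogeneousSubmodule]
  exact isWeightedHomogeneous_one ℂ (wt m)

theorem monomial_mem_piece {d : Fin 3 → ℕ} {u : Fin 3 × Fin m →₀ ℕ} (c : ℂ)
    (hu : ∀ s, ∑ i, u (s, i) = d s) : (monomial u c : Cox m) ∈ piece m d := by
  rw [mem_piece]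
  intro v hv
  rw [coeff_monomial] at hv
  split_ifs at hv with h
  · subst h; exact hu
  · exact absurd rfl hv

theorem piece_succ_le (d : Fin 3 → ℕ) (s : Fin 3) :
    piece m (d + Pi.single s 1) ≤
      piece m d * Submodule.span ℂ (Set.range fun i : Fin m => (X (s, i) : Cox m)) := by
  intro f hf
  rw [f.as_sum]
  refine Submodule.sum_mem _ fun u hu => ?_
  have hu' := mem_piece.1 hf u (by simpa [MvPolynomial.mem_support_iff] using hu)
  have hs := hu' s
  simp only [Pi.add_apply, Pi.single_eq_same] at hs
  obtain ⟨i, hi⟩ : ∃ i, 1 ≤ u (s, i) := by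
    by_contra hcon
    push Not at hcon
    have : ∑ i, u (s, i) = 0 := Finset.sum_eq_zero fun i _ => by
      have := hcon i; omega
    omega
  have hle : Finsupp.single (s, i) 1 ≤ u := by
    rw [Finsupp.single_le_iff]; exact hi
  have hdec : (monomial u (coeff u f) : Cox m) =
      monomial (u - Finsupp.single (s, i) 1) (coeff u f) * X (s, i) := by
    rw [X, monomial_mul, mul_one, tsub_add_cancel_of_le hle]
  rw [hdec]
  refine Submodule.mul_mem_mul ?_ (Submodule.subset_span ⟨i, rfl⟩)
  refine monomial_mem_piece _ fun s' => ?_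
  have h1 := hu' s'
  have h2 : ∀ j, (u - Finsupp.single (s, i) 1 : Fin 3 × Fin m →₀ ℕ) (s', j) =
      u (s', j) - (if s' = s ∧ j = i then 1 else 0) := by
    intro j
    rw [Finsupp.tsub_apply, Finsupp.single_apply]
    by_cases h : s' = s ∧ j = i
    · obtain ⟨rfl, rfl⟩ := h; simp
    · rw [if_neg h, if_neg]
      rintro h'
      apply h
      simp only [Prod.mk.injEq] at h'
      exact ⟨h'.1.symm, h'.2.symm⟩
  simp only [h2]
  have h3 : ∑ j, (u (s', j) - (if s' = s ∧ j = i then 1 else 0)) +
      ∑ j, (if s' = s ∧ j = i then 1 else 0) = ∑ j, u (s', j) := by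
    rw [← Finset.sum_add_distrib]
    refine Finset.sum_congr rfl fun j _ => ?_
    split_ifs with h
    · obtain ⟨rfl, rfl⟩ := h; omega
    · omega
  by_cases hs' : s' = s
  · subst hs'
    simp only [Pi.add_apply, Pi.single_eq_same] at h1
    simp only [true_and, Finset.sum_ite_eq', Finset.mem_univ, if_true] at h3 ⊢
    omega
  · simp only [Pi.add_apply, Pi.single_eq_of_ne hs'] at h1
    simp only [hs', false_and, if_false, Finset.sum_const_zero] at h3 ⊢
    omega

theorem piece_single (s : Fin 3) :
    piece m (Pi.single s 1) = Submodule.span ℂ (Set.range fun i : Fin m => (X (s, i) : Cox m)) := by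
  apply le_antisymm
  · have h := piece_succ_le (m := m) 0 s
    rw [zero_add] at h
    refine h.trans ?_
    rw [Submodule.mul_le]
    intro a ha b hb
    have : a = C (coeff 0 a) := by
      ext u
      rw [coeff_C]
      split_ifs with h0
      · rw [h0]
      · by_contra hne
        have := mem_piece.1 ha u hne
        apply h0
        ext ⟨s', i⟩
        have h1 := this s'
        simp only [Pi.zero_apply, Finset.sum_eq_zero_iff, Finset.mem_univ, true_implies] at h1
        simp [h1 i]
    rw [this, ← smul_eq_C_mul]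
    exact Submodule.smul_mem _ _ hb
  · rw [Submodule.span_le]
    rintro _ ⟨i, rfl⟩
    exact X_mem_piece s i

/-- To prove a linear statement about all of `piece m (d + e_s)` it suffices to treat products
`g * X (s, i)` with `g ∈ piece m d`. -/
theorem piece_succ_le_of {d : Fin 3 → ℕ} {s : Fin 3} {V : Submodule ℂ (Cox m)}
    (h : ∀ g ∈ piece m d, ∀ i, g * X (s, i) ∈ V) : piece m (d + Pi.single s 1) ≤ V := by
  refine (piece_succ_le d s).trans ?_
  rw [Submodule.mul_le]
  intro a ha b hb
  induction hb using Submodule.span_induction with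
  | mem x hx => obtain ⟨i, rfl⟩ := hx; exact h a ha i
  | zero => rw [mul_zero]; exact Submodule.zero_mem _
  | add x y _ _ hx hy => rw [mul_add]; exact Submodule.add_mem _ hx hy
  | smul c x _ hx => rw [mul_smul_comm]; exact Submodule.smul_mem _ _ hx

theorem ev_X (z : Fin 3 → Fin m → ℂ) (s : Fin 3) (i : Fin m) : ev z (X (s, i)) = z s i := by
  simp [ev]

end Pool.Agent.Helper87.BVSP
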