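import Pool.Agent.Helper87.BVSPBasic
import Pool.Agent.Helper87.BVSPMul

/-! Compactness: sequences of point configurations with constant Hilbert function have a
subsequence whose ideals converge in every degree. -/

open MvPolynomial Filter Topology

namespace Pool.Agent.Helper87.BVSP

variable {m r : ℕ}

/-- The limit subspace in degree `d`. -/
noncomputable def lim (Z : ℕ → Fin r → Fin 3 → Fin m → ℂ) (d : Fin 3 → ℕ) :
    Submodule ℂ (Cox m) where
  carrier := {f | f ∈ piece m d ∧ ∃ g : ℕ → Cox m, (∀ k, g k ∈ idealOf (Z k) ∧ g k ∈ piece m d) ∧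
    ∀ u, Tendsto (fun k => coeff u (g k)) atTop (𝓝 (coeff u f))}
  add_mem' := by
    rintro f f' ⟨hf, g, hg, hgl⟩ ⟨hf', g', hg', hgl'⟩
    refine ⟨Submodule.add_mem _ hf hf', fun k => g k + g' k, fun k =>
      ⟨Ideal.add_mem _ (hg k).1 (hg' k).1, Submodule.add_mem _ (hg k).2 (hg' k).2⟩, fun u => ?_⟩
    simp only [coeff_add]
    exact (hgl u).add (hgl' u)
  zero_mem' := ⟨Submodule.zero_mem _, fun _ => 0, fun _ => ⟨Ideal.zero_mem _,
    Submodule.zero_mem _⟩, fun _ => tendsto_const_nhds⟩
  smul_mem' := by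
    rintro c f ⟨hf, g, hg, hgl⟩
    refine ⟨Submodule.smul_mem _ _ hf, fun k => c • g k, fun k => ⟨?_,
      Submodule.smul_mem _ _ (hg k).2⟩, fun u => ?_⟩
    · change c • g k ∈ idealOf (Z k)
      rw [smul_eq_C_mul]; exact Ideal.mul_mem_left _ _ (hg k).1
    · simp only [coeff_smul, smul_eq_mul]
      exact (hgl u).const_mul c

theorem mem_lim {Z : ℕ → Fin r → Fin 3 → Fin m → ℂ} {d : Fin 3 → ℕ} {f : Cox m} :
    f ∈ lim Z d ↔ f ∈ piece m d ∧ ∃ g : ℕ → Cox m, (∀ k, g k ∈ idealOf (Z k) ∧ g k ∈ piece m d) ∧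
    ∀ u, Tendsto (fun k => coeff u (g k)) atTop (𝓝 (coeff u f)) := Iff.rfl

theorem lim_le (Z : ℕ → Fin r → Fin 3 → Fin m → ℂ) (d : Fin 3 → ℕ) : lim Z d ≤ piece m d :=
  fun _ hf => hf.1

theorem mul_mem_lim {Z : ℕ → Fin r → Fin 3 → Fin m → ℂ} {d e : Fin 3 → ℕ} {f s : Cox m}
    (hf : f ∈ lim Z d) (hs : s ∈ piece m e) : s * f ∈ lim Z (e + d) := by
  obtain ⟨hf, g, hg, hgl⟩ := hf
  refine ⟨mul_mem_piece hs hf, fun k => s * g k, fun k => ⟨Ideal.mul_mem_left _ _ (hg k).1,
    mul_mem_piece hs (hg k).2⟩, fun u => ?_⟩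
  simp only [coeff_mul]
  exact tendsto_finsetSum _ fun x _ => (hgl _).const_mul _

/-- the ideal assembled from the limits in all degrees -/
noncomputable def limIdeal (Z : ℕ → Fin r → Fin 3 → Fin m → ℂ) : Ideal (Cox m) where
  carrier := ((⨆ d, lim Z d : Submodule ℂ (Cox m)) : Set (Cox m))
  add_mem' := fun ha hb => Submodule.add_mem _ ha hb
  zero_mem' := Submodule.zero_mem _
  smul_mem' := by
    intro s f hf
    change s * f ∈ (⨆ d, lim Z d : Submodule ℂ (Cox m))
    have hf' : f ∈ (⨆ d, lim Z d : Submodule ℂ (Cox m)) := hf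
    clear hf
    induction hf' using Submodule.iSup_induction' with
    | mem d x hx =>
      rw [← sum_weightedHomogeneousComponent (wt m) s,
        finsum_eq_sum _ (weightedHomogeneousComponent_finsupp s), Finset.sum_mul]
      refine Submodule.sum_mem _ fun e _ => ?_
      exact Submodule.mem_iSup_of_mem (e + d)
        (mul_mem_lim hx (weightedHomogeneousComponent_mem (wt m) s e))
    | zero => rw [mul_zero]; exact Submodule.zero_mem _
    | add x y _ _ hx hy => rw [mul_add]; exact Submodule.add_mem _ hx hy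

theorem component_limIdeal {Z : ℕ → Fin r → Fin 3 → Fin m → ℂ} {f : Cox m}
    (hf : f ∈ limIdeal Z) (d : Fin 3 → ℕ) : weightedHomogeneousComponent (wt m) d f ∈ lim Z d := by
  have hf' : f ∈ (⨆ d, lim Z d : Submodule ℂ (Cox m)) := hf
  clear hf
  induction hf' using Submodule.iSup_induction' with
  | mem e x hx =>
    have h1 : x ∈ weightedHomogeneousSubmodule ℂ (wt m) e := lim_le Z e hx
    rw [weightedHomogeneousComponent_of_mem h1]
    split_ifs with h
    · rw [h]; exact hx
    · exact Submodule.zero_mem _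
  | zero => rw [map_zero]; exact Submodule.zero_mem _
  | add x y _ _ hx hy => rw [map_add]; exact Submodule.add_mem _ hx hy

theorem isHomog_limIdeal (Z : ℕ → Fin r → Fin 3 → Fin m → ℂ) : IsHomog (limIdeal Z) := by
  intro f hf d
  exact Submodule.mem_iSup_of_mem d (component_limIdeal hf d)

theorem part_limIdeal (Z : ℕ → Fin r → Fin 3 → Fin m → ℂ) (d : Fin 3 → ℕ) :
    part (limIdeal Z) d = lim Z d := by
  ext f
  rw [mem_part]
  constructor
  · rintro ⟨h1, h2⟩
    have h3 := component_limIdeal h1 d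
    have h4 : f ∈ weightedHomogeneousSubmodule ℂ (wt m) d := h2
    rw [weightedHomogeneousComponent_of_mem h4, if_pos rfl] at h3
    exact h3
  · intro h
    exact ⟨Submodule.mem_iSup_of_mem d h, lim_le Z d h⟩

theorem limitIn_limIdeal (Z : ℕ → Fin r → Fin 3 → Fin m → ℂ) (d : Fin 3 → ℕ) :
    LimitIn Z (limIdeal Z) d := by
  intro f hf hfp
  have h1 : f ∈ part (limIdeal Z) d := mem_part.2 ⟨hf, hfp⟩
  rw [part_limIdeal] at h1
  exact h1.2

/-- coordinate space in degree `d` -/
abbrev V (m : ℕ) (d : Fin 3 → ℕ) := EuclideanSpace ℂ (exps m d)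

/-- polynomial with given coefficients in degree `d` -/
noncomputable def toPoly (m : ℕ) (d : Fin 3 → ℕ) : V m d →ₗ[ℂ] Cox m where
  toFun c := ∑ u : exps m d, monomial u.1 (c u)
  map_add' c c' := by
    rw [← Finset.sum_add_distrib]
    exact Finset.sum_congr rfl fun u _ => by rw [PiLp.add_apply, map_add]
  map_smul' t c := by
    rw [RingHom.id_apply, Finset.smul_sum]
    exact Finset.sum_congr rfl fun u _ => by rw [PiLp.smul_apply, map_smul]

theorem coeff_toPoly {d : Fin 3 → ℕ} (c : V m d) (u : exps m d) :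
    coeff u.1 (toPoly m d c) = c u := by
  change coeff u.1 (∑ v : exps m d, monomial v.1 (c v)) = c u
  rw [coeff_sum, Finset.sum_eq_single u]
  · simp
  · intro v _ hv
    rw [coeff_monomial, if_neg fun h => hv (Subtype.ext h)]
  · simp

theorem toPoly_mem {d : Fin 3 → ℕ} (c : V m d) : toPoly m d c ∈ piece m d := by
  change (∑ v : exps m d, monomial v.1 (c v)) ∈ piece m d
  exact Submodule.sum_mem _ fun u _ => monomial_mem_piece _ (mem_exps.1 u.2)

/-- coefficients of a polynomial in degree `d` -/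
noncomputable def coefs (m : ℕ) (d : Fin 3 → ℕ) (f : Cox m) : V m d :=
  WithLp.toLp 2 fun u => coeff u.1 f

theorem toPoly_coefs {d : Fin 3 → ℕ} {f : Cox m} (hf : f ∈ piece m d) :
    toPoly m d (coefs m d f) = f := by
  ext u
  by_cases hu : u ∈ exps m d
  · exact coeff_toPoly (coefs m d f) ⟨u, hu⟩
  · rw [MvPolynomial.notMem_support_iff.1 fun h' => hu (support_subset_exps hf h'),
      MvPolynomial.notMem_support_iff.1 fun h' => hu (support_subset_exps (toPoly_mem _) h')]

theorem toPoly_injective (m : ℕ) (d : Fin 3 → ℕ) : Function.Injective (toPoly m d) := by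
  intro c c' h
  ext u
  rw [← coeff_toPoly, ← coeff_toPoly, h]

/-- the coordinate subspace of an ideal in degree `d` -/
noncomputable def coord (I : Ideal (Cox m)) (d : Fin 3 → ℕ) : Submodule ℂ (V m d) :=
  (I.restrictScalars ℂ).comap (toPoly m d)

theorem map_coord (I : Ideal (Cox m)) (d : Fin 3 → ℕ) :
    (coord I d).map (toPoly m d) = part I d := by
  ext f
  rw [Submodule.mem_map, mem_part]
  constructor
  · rintro ⟨c, hc, rfl⟩
    exact ⟨hc, toPoly_mem c⟩
  · rintro ⟨h1, h2⟩
    refine ⟨coefs m d f, ?_, toPoly_coefs h2⟩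
    change toPoly m d (coefs m d f) ∈ I
    rw [toPoly_coefs h2]; exact h1

theorem finrank_coord (I : Ideal (Cox m)) (d : Fin 3 → ℕ) :
    Module.finrank ℂ (coord I d) = Module.finrank ℂ (part I d) := by
  rw [← map_coord]
  exact (LinearMap.finrank_map_eq_of_injective' I d)
where
  LinearMap.finrank_map_eq_of_injective' (I : Ideal (Cox m)) (d : Fin 3 → ℕ) :
      Module.finrank ℂ (coord I d) = Module.finrank ℂ ((coord I d).map (toPoly m d)) :=
    (Submodule.equivMapOfInjective (toPoly m d) (toPoly_injective m d) (coord I d)).finrank_eq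

theorem tendsto_apply' {E : Type*} [NormedAddCommGroup E] [NormedSpace ℂ E]
    {T : ℕ → E →L[ℂ] E} {T₀ : E →L[ℂ] E} {x : ℕ → E} {x₀ : E} (hT : Tendsto T atTop (𝓝 T₀))
    (hx : Tendsto x atTop (𝓝 x₀)) : Tendsto (fun k => T k (x k)) atTop (𝓝 (T₀ x₀)) :=
  (isBoundedBilinearMap_apply.continuous.tendsto (T₀, x₀)).comp (hT.prodMk_nhds hx)

/-- Main compactness statement. -/
theorem exists_subseq (Z : ℕ → Fin r → Fin 3 → Fin m → ℂ) (n : (Fin 3 → ℕ) → ℕ)
    (hn : ∀ k d, Module.finrank ℂ (part (idealOf (Z k)) d) = n d) :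
    ∃ φ : ℕ → ℕ, StrictMono φ ∧ ∀ d, Module.finrank ℂ (lim (Z ∘ φ) d) = n d := by
  set P : ℕ → (d : Fin 3 → ℕ) → (V m d →L[ℂ] V m d) :=
    fun k d => (coord (idealOf (Z k)) d).starProjection with hP
  have hK : IsCompact (Set.pi Set.univ fun d : Fin 3 → ℕ =>
      Metric.closedBall (0 : V m d →L[ℂ] V m d) 1) :=
    isCompact_univ_pi fun d => isCompact_closedBall _ _
  obtain ⟨Q, -, φ, hφ, hQ⟩ := hK.tendsto_subseq (x := P) (fun k d _ => by
    rw [mem_closedBall_zero_iff]
    exact Submodule.starProjection_norm_le _)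
  refine ⟨φ, hφ, fun d => ?_⟩
  have hQd : Tendsto (fun k => P (φ k) d) atTop (𝓝 (Q d)) := (tendsto_pi_nhds.1 hQ) d
  have hid : IsIdempotentElem (Q d) := by
    have h1 : Tendsto (fun k => P (φ k) d * P (φ k) d) atTop (𝓝 (Q d * Q d)) := hQd.mul hQd
    have h2 : ∀ k, P (φ k) d * P (φ k) d = P (φ k) d := fun k =>
      Submodule.isIdempotentElem_starProjection _
    simp only [h2] at h1
    exact tendsto_nhds_unique h1 hQd
  have hidL : IsIdempotentElem (Q d : V m d →ₗ[ℂ] V m d) := by
    have := congrArg (fun T : V m d →L[ℂ] V m d => (T : V m d →ₗ[ℂ] V m d)) hid.eq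
    exact this
  -- rank of the limit projection
  have hrank : Module.finrank ℂ (LinearMap.range (Q d : V m d →ₗ[ℂ] V m d)) = n d := by
    have ht : Tendsto (fun k => LinearMap.trace ℂ (V m d) (P (φ k) d : V m d →ₗ[ℂ] V m d)) atTop
        (𝓝 (LinearMap.trace ℂ (V m d) (Q d : V m d →ₗ[ℂ] V m d))) := by
      have hc : Continuous fun T : V m d →L[ℂ] V m d =>
          LinearMap.trace ℂ (V m d) (T : V m d →ₗ[ℂ] V m d) :=
        ((LinearMap.trace ℂ (V m d)).comp
          (ContinuousLinearMap.coeLM ℂ : (V m d →L[ℂ] V m d) →ₗ[ℂ] _)).continuous_of_finiteDimensional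
      exact (hc.tendsto _).comp hQd
    have h1 : ∀ k, LinearMap.trace ℂ (V m d) (P (φ k) d : V m d →ₗ[ℂ] V m d) = (n d : ℂ) := by
      intro k
      have h2 : LinearMap.IsProj (coord (idealOf (Z (φ k))) d)
          (P (φ k) d : V m d →ₗ[ℂ] V m d) := by
        refine ⟨fun x => Submodule.starProjection_apply_mem _ x, fun x hx => ?_⟩
        exact Submodule.starProjection_eq_self_iff.2 hx
      rw [h2.trace, finrank_coord, hn]
    have h3 := (LinearMap.isProj_range_iff_isIdempotentElem _).2 hidL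
    rw [h3.trace] at ht
    simp only [h1] at ht
    have h4 := tendsto_nhds_unique ht tendsto_const_nhds
    exact_mod_cast h4
  have heq : lim (Z ∘ φ) d = (LinearMap.range (Q d : V m d →ₗ[ℂ] V m d)).map (toPoly m d) := by
    apply le_antisymm
    · rintro f ⟨hf, g, hg, hgl⟩
      rw [Submodule.mem_map]
      refine ⟨coefs m d f, ?_, toPoly_coefs hf⟩
      have hcl : Tendsto (fun k => coefs m d (g k)) atTop (𝓝 (coefs m d f)) := by
        have hc : Continuous (fun w : (exps m d) → ℂ => (WithLp.toLp 2 w : V m d)) :=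
          PiLp.continuous_toLp 2 _
        have h1 : Tendsto (fun k => fun u : exps m d => coeff u.1 (g k)) atTop
            (𝓝 fun u : exps m d => coeff u.1 f) := tendsto_pi_nhds.2 fun u => hgl u.1
        exact (hc.tendsto _).comp h1
      have h1 : Tendsto (fun k => P (φ k) d (coefs m d (g k))) atTop (𝓝 (Q d (coefs m d f))) :=
        tendsto_apply' hQd hcl
      have h2 : ∀ k, P (φ k) d (coefs m d (g k)) = coefs m d (g k) := by
        intro k
        refine Submodule.starProjection_eq_self_iff.2 ?_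
        change toPoly m d (coefs m d (g k)) ∈ idealOf (Z (φ k))
        rw [toPoly_coefs (hg k).2]
        exact (hg k).1
      simp only [h2] at h1
      exact ⟨coefs m d f, tendsto_nhds_unique h1 hcl⟩
    · rintro f hf
      rw [Submodule.mem_map] at hf
      obtain ⟨_, ⟨c, rfl⟩, rfl⟩ := hf
      refine ⟨toPoly_mem _, fun k => toPoly m d (P (φ k) d c), fun k => ⟨?_, toPoly_mem _⟩,
        fun u => ?_⟩
      · exact Submodule.starProjection_apply_mem (coord (idealOf (Z (φ k))) d) c
      · by_cases hu : u ∈ exps m d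
        · have h1 : Tendsto (fun k => P (φ k) d c) atTop (𝓝 (Q d c)) :=
            tendsto_apply' hQd tendsto_const_nhds
          have h2 : ∀ w : V m d, coeff u (toPoly m d w) = w ⟨u, hu⟩ :=
            fun w => coeff_toPoly w ⟨u, hu⟩
          simp only [h2]
          have hc : Continuous fun w : V m d => w ⟨u, hu⟩ := by fun_prop
          exact (hc.tendsto _).comp h1
        · have h2 : ∀ w : V m d, coeff u (toPoly m d w) = 0 := fun w =>
            MvPolynomial.notMem_support_iff.1 fun h' => hu (support_subset_exps (toPoly_mem w) h')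
          simp only [h2]
          exact tendsto_const_nhds
  rw [heq, ← hrank]
  exact (Submodule.equivMapOfInjective (toPoly m d) (toPoly_injective m d) _).finrank_eq.symm

/-- A sequence of configurations with Hilbert function `h` has a subsequence converging to a
homogeneous ideal with Hilbert function `h`. -/
theorem exists_limit_ideal (Z : ℕ → Fin r → Fin 3 → Fin m → ℂ) (h : (Fin 3 → ℕ) → ℕ)
    (hh : ∀ k d, hilb (idealOf (Z k)) d = h d) :
    ∃ φ : ℕ → ℕ, StrictMono φ ∧ ∃ J : Ideal (Cox m), IsHomog J ∧ (∀ d, hilb J d = h d) ∧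
      ∀ d, LimitIn (Z ∘ φ) J d := by
  obtain ⟨φ, hφ, hlim⟩ := exists_subseq Z (fun d => Module.finrank ℂ (piece m d) - h d)
    (fun k d => by
      have := hilb_add_finrank (idealOf (Z k)) d
      rw [hh] at this
      omega)
  refine ⟨φ, hφ, limIdeal (Z ∘ φ), isHomog_limIdeal _, fun d => ?_, limitIn_limIdeal _⟩
  have h1 := hilb_add_finrank (limIdeal (Z ∘ φ)) d
  rw [part_limIdeal, hlim] at h1
  have h2 := hilb_add_finrank (idealOf (Z 0)) d
  rw [hh] at h2
  omega

end Pool.Agent.Helper87.BVSP
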