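import Mathlib

/-!
# Border varieties of sums of powers for tensors of format `m × m × m`

Definitions used in the result on problem MP_df8da5_ag.  Everything is over `ℂ`.
-/

open MvPolynomial Filter Topology

namespace Pool.Agent.Helper87.BVSP

/-- The Cox ring `S = ℂ[α_1..α_m, β_1..β_m, γ_1..γ_m]` of
`X = ℙ^{m-1} × ℙ^{m-1} × ℙ^{m-1}`.  The variable `(s, i)` is the `i`-th variable of the
`s`-th group, `s = 0, 1, 2`.  The dual polynomial ring `T` is a copy of the same ring. -/
abbrev Cox (m : ℕ) := MvPolynomial (Fin 3 × Fin m) ℂ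

/-- The multidegree of the variables: the variable `(s, i)` has degree `e_s`. -/
def wt (m : ℕ) : Fin 3 × Fin m → (Fin 3 → ℕ) := fun v => Pi.single v.1 1

/-- The graded piece `S_d` (or `T_d`), for a multidegree `d = (d_0, d_1, d_2)`. -/
def piece (m : ℕ) (d : Fin 3 → ℕ) : Submodule ℂ (Cox m) :=
  weightedHomogeneousSubmodule ℂ (wt m) d

/-- The multidegree `(1,1,1)`; `T_{(1,1,1)}` is the space of tensors. -/
def d111 : Fin 3 → ℕ := fun _ => 1

/-- The contraction action `g ∘ F` of `S` on `T`: each variable of `S` acts as the partial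
derivative in the dual variable of `T`.  On monomials
`x^u ∘ x^w = (∏ w_v! / (w_v - u_v)!) x^(w-u)`, which is `0` unless `u ≤ w`. -/
noncomputable def act {m : ℕ} (g F : Cox m) : Cox m :=
  ∑ u ∈ g.support, ∑ w ∈ F.support,
    monomial (w - u) (coeff u g * coeff w F * ∏ v, ((w v).descFactorial (u v) : ℂ))

/-- `Ann(F) = {g ∈ S : g ∘ F = 0}`. -/
def Ann {m : ℕ} (F : Cox m) : Set (Cox m) := {g | act g F = 0}

/-- The Hilbert function `dim (S/J)_d`, computed as `dim (S_d / (J ∩ S_d))`. -/
noncomputable def hilb {m : ℕ} (J : Ideal (Cox m)) (d : Fin 3 → ℕ) : ℕ :=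
  Module.finrank ℂ (piece m d ⧸ (J.restrictScalars ℂ).comap (piece m d).subtype)

/-- `J` is homogeneous for the multigrading. -/
def IsHomog {m : ℕ} (J : Ideal (Cox m)) : Prop :=
  ∀ f ∈ J, ∀ d, weightedHomogeneousComponent (wt m) d f ∈ J

/-- `Z` lists `r` pairwise distinct points of `X`; each point is given by its three nonzero
coordinate vectors. -/
def DistinctPoints {m r : ℕ} (Z : Fin r → Fin 3 → Fin m → ℂ) : Prop :=
  (∀ i s, Z i s ≠ 0) ∧ ∀ i j, i ≠ j → ¬ ∀ s, ∃ c : ℂ, Z i s = c • Z j s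

/-- The ideal `I_Z` of a list of points: all polynomials vanishing on the multicone over `Z`,
i.e. at all vectors obtained from a point of `Z` by rescaling its three coordinate vectors. -/
noncomputable def idealOf {m r : ℕ} (Z : Fin r → Fin 3 → Fin m → ℂ) : Ideal (Cox m) :=
  vanishingIdeal ℂ {x : Fin 3 × Fin m → ℂ |
    ∃ (i : Fin r) (c : Fin 3 → ℂ), x = fun v => c v.1 * Z i v.1 v.2}

/-- The Hilbert function `h_r` of `r` general points of `X`: they impose
`min (r, dim S_d)` conditions in every degree `d`. -/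
noncomputable def hGen (m r : ℕ) (d : Fin 3 → ℕ) : ℕ := min r (Module.finrank ℂ (piece m d))

/-- In degree `d` the pieces `(I_{Z k})_d` converge to (contain in the limit) `J_d`:
every `f ∈ J_d` is a coefficientwise limit of forms `g k ∈ (I_{Z k})_d`. -/
def LimitIn {m r : ℕ} (Z : ℕ → Fin r → Fin 3 → Fin m → ℂ) (J : Ideal (Cox m))
    (d : Fin 3 → ℕ) : Prop :=
  ∀ f ∈ J, f ∈ piece m d → ∃ g : ℕ → Cox m,
    (∀ k, g k ∈ idealOf (Z k) ∧ g k ∈ piece m d) ∧
    ∀ u, Tendsto (fun k => coeff u (g k)) atTop (𝓝 (coeff u f))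

/-- `Slip_r`: the closure, inside the multigraded Hilbert scheme of homogeneous ideals with
Hilbert function `h_r`, of the locus of the (saturated) ideals `I_Z` of `r` distinct points `Z`
having Hilbert function `h_r`.  Since the locus is constructible its Zariski closure is its
closure in the classical topology: `J` is in it iff there are `Z k` in the locus with
`(I_{Z k})_d → J_d` in the Grassmannian of `S_d` for every `d`. -/
def Slip (m r : ℕ) : Set (Ideal (Cox m)) :=
  {J | IsHomog J ∧ (∀ d, hilb J d = hGen m r d) ∧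
    ∃ Z : ℕ → Fin r → Fin 3 → Fin m → ℂ,
      (∀ k, DistinctPoints (Z k)) ∧ (∀ k d, hilb (idealOf (Z k)) d = hGen m r d) ∧
      ∀ d, LimitIn Z J d}

/-- The border variety of sums of powers `{J ∈ Slip_r : J ⊆ Ann(F)}`. -/
def VSP {m : ℕ} (F : Cox m) (r : ℕ) : Set (Ideal (Cox m)) :=
  {J | J ∈ Slip m r ∧ (J : Set (Cox m)) ⊆ Ann F}

/-- The decomposable tensor `a ⊗ b ⊗ c`, where `z = (a, b, c)`. -/
noncomputable def simple {m : ℕ} (z : Fin 3 → Fin m → ℂ) : Cox m :=
  ∏ s, ∑ i, C (z s i) * X (s, i)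

/-- `F` is a sum of `r` decomposable tensors. -/
def RankLE {m : ℕ} (F : Cox m) (r : ℕ) : Prop :=
  ∃ Z : Fin r → Fin 3 → Fin m → ℂ, F = ∑ i, simple (Z i)

/-- `F` is a limit of sums of `r` decomposable tensors. -/
def BorderRankLE {m : ℕ} (F : Cox m) (r : ℕ) : Prop :=
  ∃ G : ℕ → Cox m, (∀ k, RankLE (G k) r) ∧
    ∀ u, Tendsto (fun k => coeff u (G k)) atTop (𝓝 (coeff u F))

/-- The border rank of `F` with respect to the Segre embedding of `X`. -/
noncomputable def borderRank {m : ℕ} (F : Cox m) : ℕ := sInf {r | BorderRankLE F r}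

/-- `F` is concise: no nonzero linear form of degree `e_0`, `e_1` or `e_2` annihilates it. -/
def Concise {m : ℕ} (F : Cox m) : Prop :=
  ∀ s, ∀ g ∈ piece m (Pi.single s 1), act g F = 0 → g = 0

/-- The irrelevant ideal `B = (α_i β_j γ_k)`. -/
noncomputable def irrelevant (m : ℕ) : Ideal (Cox m) :=
  Ideal.span {b | ∃ i j k, b = X (0, i) * X (1, j) * X (2, k)}

/-- `K` is saturated: `K = (K : B^∞)`. -/
def Saturated {m : ℕ} (K : Ideal (Cox m)) : Prop :=
  ∀ f, (∃ n : ℕ, ∀ b ∈ irrelevant m ^ n, b * f ∈ K) → f ∈ K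

/-- `K` is the saturated homogeneous ideal of a finite subscheme `R ⊆ X` of length `l`: its
Hilbert function is eventually equal to `l`. -/
def IsFiniteScheme {m : ℕ} (K : Ideal (Cox m)) (l : ℕ) : Prop :=
  IsHomog K ∧ Saturated K ∧ ∃ d₀ : Fin 3 → ℕ, ∀ d, d₀ ≤ d → hilb K d = l

/-- The finite subscheme `R ⊆ X` of length `l` with ideal `K` is smoothable: it is a flat limit
of sets of `l` distinct points of `X`, i.e. `(I_{Z k})_d → K_d` for all large degrees `d`. -/
def Smoothable {m : ℕ} (K : Ideal (Cox m)) (l : ℕ) : Prop :=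
  ∃ Z : ℕ → Fin l → Fin 3 → Fin m → ℂ, (∀ k, DistinctPoints (Z k)) ∧
    ∃ d₀ : Fin 3 → ℕ, ∀ d, d₀ ≤ d → LimitIn Z K d

/-- `[F]` lies in the linear span of the subscheme with ideal `K`: every form of degree
`(1,1,1)` in `K` annihilates `F`. -/
def InSpan {m : ℕ} (F : Cox m) (K : Ideal (Cox m)) : Prop :=
  ∀ f ∈ K, f ∈ piece m d111 → act f F = 0

/-- `F` is wild: its smoothable rank (the least length of a smoothable finite subscheme of `X`
whose linear span contains `[F]`) exceeds its border rank. -/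
def Wild {m : ℕ} (F : Cox m) : Prop :=
  ∀ (K : Ideal (Cox m)) (l : ℕ), IsFiniteScheme K l → Smoothable K l → InSpan F K →
    borderRank F < l

end Pool.Agent.Helper87.BVSP
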