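import Pool.Agent.Helper87.BVSPPair

/-! The explicit tensor, and the pieces of an ideal of the border VSP forced by it. -/

open MvPolynomial Filter Topology

namespace Pool.Agent.Helper87.BVSP

/-- Integer coordinates of the tensor. -/
def Tz (a b c : Fin 6) : ℤ :=
  if a = 0 then (if b = c then 1 else 0)
  else if (c, b) = (2, 4) then -1
  else if (a, c, b) = (1, 0, 4) ∨ (a, c, b) = (2, 1, 5) ∨ (a, c, b) = (3, 2, 3) ∨
    (a, c, b) = (4, 0, 5) ∨ (a, c, b) = (5, 1, 3) then 1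
  else 0

/-- The tensor as a polynomial in `T_{(1,1,1)}`. -/
noncomputable def F₀ : Cox 6 := ofTensor fun a b c => (Tz a b c : ℂ)

theorem F₀_mem : F₀ ∈ piece 6 d111 := ofTensor_mem _

/-- Linear functional version of evaluation. -/
noncomputable def evL {m : ℕ} (z : Fin 3 → Fin m → ℂ) : Cox m →ₗ[ℂ] ℂ :=
  (MvPolynomial.aeval (fun v : Fin 3 × Fin m => z v.1 v.2)).toLinearMap

theorem evL_apply {m : ℕ} (z : Fin 3 → Fin m → ℂ) (f : Cox m) : evL z f = ev z f := by
  simp [evL, ev, MvPolynomial.aeval_eq_eval]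

theorem mem_of_functionals {m r : ℕ} {J : Ideal (Cox m)} {d : Fin 3 → ℕ} (hJ : hilb J d = r)
    (φ : Cox m →ₗ[ℂ] (Fin r → ℂ)) (hφ : ∀ f ∈ J, f ∈ piece m d → φ f = 0)
    (G : Fin r → Cox m) (hG : ∀ j, G j ∈ piece m d)
    (hφG : ∀ i j, φ (G j) i = if i = j then 1 else 0) {f : Cox m} (hf : f ∈ piece m d)
    (h0 : φ f = 0) : f ∈ J := by
  have h1 := finrank_add_le_of_functionals (V := piece m d ⊓ LinearMap.ker φ) (P := piece m d)
    inf_le_left φ (fun f hf => by simpa using hf.2) G hG hφG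
  have h2 : part J d ≤ piece m d ⊓ LinearMap.ker φ := by
    intro g hg
    rw [mem_part] at hg
    exact ⟨hg.2, by simpa using hφ g hg.1 hg.2⟩
  have h3 := hilb_add_finrank J d
  have : FiniteDimensional ℂ (piece m d ⊓ LinearMap.ker φ : Submodule ℂ (Cox m)) :=
    Submodule.finiteDimensional_of_le inf_le_left
  have h4 : part J d = piece m d ⊓ LinearMap.ker φ :=
    Submodule.eq_of_le_of_finrank_le h2 (by omega)
  have h5 : f ∈ part J d := by
    rw [h4]; exact ⟨hf, by simpa using h0⟩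
  exact (mem_part.1 h5).1

/-- The functionals `f ↦ ⟨F, f * X (s, k)⟩`. -/
noncomputable def phi (F : Cox 6) (s : Fin 3) : Cox 6 →ₗ[ℂ] (Fin 6 → ℂ) :=
  LinearMap.pi fun k => (pair F).comp (LinearMap.mulRight ℂ (X (s, k)))

theorem phi_apply (F : Cox 6) (s : Fin 3) (f : Cox 6) (k : Fin 6) :
    phi F s f k = pair F (f * X (s, k)) := by
  simp [phi]

theorem pairF_XXX (a b c : Fin 6) : pair F₀ (X (0, a) * X (1, b) * X (2, c)) = (Tz a b c : ℂ) := by
  rw [pair_XXX, F₀, coeff_ofTensor]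

abbrev d110 : Fin 3 → ℕ := Pi.single 0 1 + Pi.single 1 1
abbrev d101 : Fin 3 → ℕ := Pi.single 0 1 + Pi.single 2 1
abbrev d011 : Fin 3 → ℕ := Pi.single 1 1 + Pi.single 2 1

/-- What we use of an ideal in the border VSP in low degrees. -/
structure Good (J : Ideal (Cox 6)) : Prop where
  hilb6 : ∀ d, d ≠ 0 → hilb J d = 6
  pair0 : ∀ f ∈ J, pair F₀ f = 0

theorem Good.mem110 {J : Ideal (Cox 6)} (h : Good J) {f : Cox 6} (hf : f ∈ piece 6 d110)
    (h0 : ∀ k, pair F₀ (f * X (2, k)) = 0) : f ∈ J := by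
  refine mem_of_functionals (h.hilb6 d110 ?_) (phi F₀ 2) ?_ (fun j => X (0, 0) * X (1, j))
    (fun j => mul_mem_piece (X_mem_piece _ _) (X_mem_piece _ _)) ?_ hf ?_
  · intro h; have := congrFun h 0; simp at this
  · intro f hf _
    funext k
    rw [phi_apply]
    exact h.pair0 _ (J.mul_mem_right _ hf)
  · intro i j
    rw [phi_apply, pairF_XXX]
    have : ∀ i j : Fin 6, Tz 0 j i = if i = j then 1 else 0 := by decide
    rw [this]; split_ifs <;> simp
  · funext k
    rw [phi_apply, h0 k]; rfl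

theorem Good.mem101 {J : Ideal (Cox 6)} (h : Good J) {f : Cox 6} (hf : f ∈ piece 6 d101)
    (h0 : ∀ k, pair F₀ (f * X (1, k)) = 0) : f ∈ J := by
  refine mem_of_functionals (h.hilb6 d101 ?_) (phi F₀ 1) ?_ (fun j => X (0, 0) * X (2, j))
    (fun j => mul_mem_piece (X_mem_piece _ _) (X_mem_piece _ _)) ?_ hf ?_
  · intro h; have := congrFun h 0; simp at this
  · intro f hf _
    funext k
    rw [phi_apply]
    exact h.pair0 _ (J.mul_mem_right _ hf)
  · intro i j
    rw [phi_apply]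
    have e : (X (0, 0) * X (2, j) * X (1, i) : Cox 6) = X (0, 0) * X (1, i) * X (2, j) := by ring
    rw [e, pairF_XXX]
    have : ∀ i j : Fin 6, Tz 0 i j = if i = j then 1 else 0 := by decide
    rw [this]; split_ifs <;> simp
  · funext k
    rw [phi_apply, h0 k]; rfl

/-- dual basis used in degree `(0,1,1)`: the pairs `(b, c)`. -/
def g011 : Fin 6 → Fin 6 × Fin 6 := ![(0, 0), (4, 0), (5, 1), (3, 2), (5, 0), (3, 1)]

theorem Good.mem011 {J : Ideal (Cox 6)} (h : Good J) {f : Cox 6} (hf : f ∈ piece 6 d011)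
    (h0 : ∀ k, pair F₀ (f * X (0, k)) = 0) : f ∈ J := by
  refine mem_of_functionals (h.hilb6 d011 ?_) (phi F₀ 0) ?_
    (fun j => X (1, (g011 j).1) * X (2, (g011 j).2))
    (fun j => mul_mem_piece (X_mem_piece _ _) (X_mem_piece _ _)) ?_ hf ?_
  · intro h; have := congrFun h 1; simp at this
  · intro f hf _
    funext k
    rw [phi_apply]
    exact h.pair0 _ (J.mul_mem_right _ hf)
  · intro i j
    rw [phi_apply]
    have e : (X (1, (g011 j).1) * X (2, (g011 j).2) * X (0, i) : Cox 6) =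
      X (0, i) * X (1, (g011 j).1) * X (2, (g011 j).2) := by ring
    rw [e, pairF_XXX]
    have : ∀ i j : Fin 6, Tz i (g011 j).1 (g011 j).2 = if i = j then 1 else 0 := by decide
    rw [this]; split_ifs <;> simp
  · funext k
    rw [phi_apply, h0 k]; rfl

/-- `α_a β_b ≡ α_0 ∑_c T_{abc} β_c`. -/
theorem Good.rel110 {J : Ideal (Cox 6)} (h : Good J) (a b : Fin 6) :
    (X (0, a) * X (1, b) - ∑ c, C (Tz a b c : ℂ) * (X (0, 0) * X (1, c)) : Cox 6) ∈ J := by
  refine h.mem110 ?_ fun k => ?_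
  · refine Submodule.sub_mem _ (mul_mem_piece (X_mem_piece _ _) (X_mem_piece _ _)) ?_
    refine Submodule.sum_mem _ fun c _ => ?_
    rw [← smul_eq_C_mul]
    exact Submodule.smul_mem _ _ (mul_mem_piece (X_mem_piece _ _) (X_mem_piece _ _))
  · rw [sub_mul, Finset.sum_mul, map_sub, map_sum, pairF_XXX]
    have : ∀ c, pair F₀ (C (Tz a b c : ℂ) * (X (0, 0) * X (1, c)) * X (2, k)) =
        (Tz a b c : ℂ) * (Tz 0 c k : ℂ) := by
      intro c
      rw [mul_assoc, ← smul_eq_C_mul, map_smul, pairF_XXX, smul_eq_mul]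
    simp only [this]
    have h2 : ∀ a b k : Fin 6, Tz a b k - ∑ c, Tz a b c * Tz 0 c k = 0 := by decide
    have h3 := h2 a b k
    exact_mod_cast h3

/-- `α_a γ_c ≡ α_0 ∑_b T_{abc} γ_b`. -/
theorem Good.rel101 {J : Ideal (Cox 6)} (h : Good J) (a c : Fin 6) :
    (X (0, a) * X (2, c) - ∑ b, C (Tz a b c : ℂ) * (X (0, 0) * X (2, b)) : Cox 6) ∈ J := by
  refine h.mem101 ?_ fun k => ?_
  · refine Submodule.sub_mem _ (mul_mem_piece (X_mem_piece _ _) (X_mem_piece _ _)) ?_
    refine Submodule.sum_mem _ fun c _ => ?_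
    rw [← smul_eq_C_mul]
    exact Submodule.smul_mem _ _ (mul_mem_piece (X_mem_piece _ _) (X_mem_piece _ _))
  · rw [sub_mul, Finset.sum_mul, map_sub, map_sum]
    have e : (X (0, a) * X (2, c) * X (1, k) : Cox 6) = X (0, a) * X (1, k) * X (2, c) := by ring
    rw [e, pairF_XXX]
    have : ∀ b, pair F₀ (C (Tz a b c : ℂ) * (X (0, 0) * X (2, b)) * X (1, k)) =
        (Tz a b c : ℂ) * (Tz 0 k b : ℂ) := by
      intro b
      have e : (C (Tz a b c : ℂ) * (X (0, 0) * X (2, b)) * X (1, k) : Cox 6) =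
        C (Tz a b c : ℂ) * (X (0, 0) * X (1, k) * X (2, b)) := by ring
      rw [e, ← smul_eq_C_mul, map_smul, pairF_XXX, smul_eq_mul]
    simp only [this]
    have h2 : ∀ a c k : Fin 6, Tz a k c - ∑ b, Tz a b c * Tz 0 k b = 0 := by decide
    have h3 := h2 a c k
    exact_mod_cast h3

/-- Any integer combination of the `β_b γ_c` orthogonal to all slices is in `J`. -/
theorem Good.rel011 {J : Ideal (Cox 6)} (h : Good J) (M : Fin 6 → Fin 6 → ℤ)
    (hM : ∀ a, ∑ b, ∑ c, M b c * Tz a b c = 0) :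
    (∑ b, ∑ c, C (M b c : ℂ) * (X (1, b) * X (2, c)) : Cox 6) ∈ J := by
  refine h.mem011 ?_ fun k => ?_
  · refine Submodule.sum_mem _ fun b _ => Submodule.sum_mem _ fun c _ => ?_
    rw [← smul_eq_C_mul]
    exact Submodule.smul_mem _ _ (mul_mem_piece (X_mem_piece _ _) (X_mem_piece _ _))
  · rw [Finset.sum_mul, map_sum]
    have : ∀ b, pair F₀ ((∑ c, C (M b c : ℂ) * (X (1, b) * X (2, c)) : Cox 6) * X (0, k)) =
        ∑ c, (M b c : ℂ) * (Tz k b c : ℂ) := by
      intro b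
      rw [Finset.sum_mul, map_sum]
      refine Finset.sum_congr rfl fun c _ => ?_
      have e : (C (M b c : ℂ) * (X (1, b) * X (2, c)) * X (0, k) : Cox 6) =
        C (M b c : ℂ) * (X (0, k) * X (1, b) * X (2, c)) := by ring
      rw [e, ← smul_eq_C_mul, map_smul, pairF_XXX, smul_eq_mul]
    simp only [this]
    exact_mod_cast hM k

end Pool.Agent.Helper87.BVSP
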