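import Pool.Agent.Helper87.BVSPUnique

/-! The border VSP of the example has at most one point. -/

open MvPolynomial Filter Topology

namespace Pool.Agent.Helper87.BVSP

theorem six_le_finrank_piece {d : Fin 3 → ℕ} (hd : d ≠ 0) : 6 ≤ Module.finrank ℂ (piece 6 d) := by
  obtain ⟨s, hs⟩ := Function.ne_iff.1 hd
  have hs' : 1 ≤ d s := Nat.one_le_iff_ne_zero.2 hs
  -- exponents
  set r : Fin 3 × Fin 6 →₀ ℕ := Finsupp.equivFunOnFinite.symm fun v =>
    if v.2 = 0 then (d v.1 - if v.1 = s then 1 else 0) else 0 with hr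
  set u : Fin 6 → (Fin 3 × Fin 6 →₀ ℕ) := fun j => r + Finsupp.single (s, j) 1 with hu
  have hinj : Function.Injective u := by
    intro i j hij
    have h1 : Finsupp.single (s, i) 1 = Finsupp.single (s, j) (1 : ℕ) := add_left_cancel hij
    have h2 := Finsupp.single_left_injective one_ne_zero h1
    simpa using h2
  have hmem : ∀ j, (monomial (u j) (1 : ℂ) : Cox 6) ∈ piece 6 d := by
    intro j
    refine monomial_mem_piece _ fun s' => ?_
    have h1 : ∀ i, u j (s', i) = (if i = 0 then (d s' - if s' = s then 1 else 0) else 0) +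
        if (s' = s ∧ i = j) then 1 else 0 := by
      intro i
      rw [hu, hr]
      simp only [Finsupp.add_apply, Finsupp.equivFunOnFinite_symm_apply_apply,
        Finsupp.single_apply, Prod.mk.injEq]
      congr 1
      by_cases h : s' = s ∧ i = j
      · obtain ⟨rfl, rfl⟩ := h; simp
      · rw [if_neg h, if_neg]; rintro ⟨rfl, rfl⟩; exact h ⟨rfl, rfl⟩
    simp only [h1, Finset.sum_add_distrib, Finset.sum_ite_eq', Finset.mem_univ, if_true]
    by_cases h : s' = s
    · subst h; simp; omega
    · simp [h]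
  have := finrank_add_le_of_functionals (V := (⊥ : Submodule ℂ (Cox 6))) (P := piece 6 d) bot_le
    (LinearMap.pi fun j => MvPolynomial.lcoeff ℂ (u j)) (by simp) (fun j => monomial (u j) 1) hmem
    (fun i j => by
      rw [LinearMap.pi_apply]
      simp only [MvPolynomial.lcoeff_apply, coeff_monomial]
      by_cases h : i = j
      · subst h; simp
      · rw [if_neg (fun h' => h (hinj h').symm), if_neg h])
  simpa using this

theorem hGen6 {d : Fin 3 → ℕ} (hd : d ≠ 0) : hGen 6 6 d = 6 :=
  min_eq_left (six_le_finrank_piece hd)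

theorem good_of_mem {J : Ideal (Cox 6)} (hJ : J ∈ VSP F₀ 6) : Good J := by
  obtain ⟨⟨hh, hH, -⟩, hA⟩ := hJ
  refine ⟨fun d hd => ?_, (subset_Ann_iff F₀_mem J).1 hA⟩
  rw [hH, hGen6 hd]

theorem component_mem_piece {m : ℕ} (d : Fin 3 → ℕ) (f : Cox m) :
    weightedHomogeneousComponent (wt m) d f ∈ piece m d :=
  weightedHomogeneousComponent_mem (wt m) f d

theorem le_of_part_le {m : ℕ} {J J' : Ideal (Cox m)} (hJ : IsHomog J)
    (h : ∀ d, part J d ≤ part J' d) : J ≤ J' := by
  intro f hf
  rw [← sum_weightedHomogeneousComponent (wt m) f,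
    finsum_eq_sum _ (weightedHomogeneousComponent_finsupp f)]
  refine J'.sum_mem fun d _ => ?_
  have : weightedHomogeneousComponent (wt m) d f ∈ part J d :=
    mem_part.2 ⟨hJ f hf d, component_mem_piece d f⟩
  exact (mem_part.1 (h d this)).1

theorem part_le_part {J J' : Ideal (Cox 6)} (hJ : J ∈ VSP F₀ 6) (hJ' : J' ∈ VSP F₀ 6)
    (d : Fin 3 → ℕ) : part J d ≤ part J' d := by
  have g := good_of_mem hJ
  have g' := good_of_mem hJ'
  by_cases h0 : d = 0
  · -- degree zero: `J_0 = 0`
    intro f hf
    subst h0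
    have h1 := hilb_add_finrank J 0
    rw [hJ.1.2.1, hGen] at h1
    have h2 : Module.finrank ℂ (piece 6 0) ≤ 1 := by
      have hle : piece 6 0 ≤ Submodule.span ℂ {(1 : Cox 6)} := by
        intro a ha
        have : a = C (coeff 0 a) := by
          ext u
          rw [coeff_C]
          split_ifs with h0
          · rw [h0]
          · by_contra hne
            have := mem_piece.1 ha u hne
            apply h0
            ext ⟨s', i⟩
            have h1 := this s'
            simp only [Pi.zero_apply, Finset.sum_eq_zero_iff, Finset.mem_univ, true_implies] at h1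
            simp [h1 i]
        rw [this, Submodule.mem_span_singleton]
        exact ⟨coeff 0 a, by rw [smul_eq_C_mul, mul_one]⟩
      refine (Submodule.finrank_mono hle).trans ?_
      have h5 := finrank_span_le_card (R := ℂ) ({(1 : Cox 6)} : Set (Cox 6))
      simpa using h5
    have h3 : Module.finrank ℂ (part J 0) = 0 := by omega
    have : FiniteDimensional ℂ (part J 0) := Submodule.finiteDimensional_of_le (part_le _ _)
    rw [Submodule.finrank_eq_zero] at h3
    rw [h3, Submodule.mem_bot] at hf
    rw [hf]; exact Submodule.zero_mem _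
  obtain ⟨a, b, c, rfl⟩ : ∃ a b c : ℕ, d = ![a, b, c] :=
    ⟨d 0, d 1, d 2, by ext i; fin_cases i <;> rfl⟩
  by_cases hbc : 2 ≤ b ∨ 2 ≤ c
  · intro f hf
    rw [mem_part] at hf ⊢
    refine ⟨?_, hf.2⟩
    have e1 : (Pi.single 1 1 : Fin 3 → ℕ) ≠ 0 := by
      intro h; have := congrFun h 1; simp at this
    obtain ⟨⟨-, -, Z, hZ, hH, hlim⟩, -⟩ := hJ
    obtain ⟨⟨-, -, Z', hZ', hH', hlim'⟩, -⟩ := hJ'
    refine mem_high g' hbc (fun f hf hfp j => ?_) hf.2 fun j => ?_
    · exact vanish_at_points g' hZ' (fun k => by rw [hH', hGen6 e1]) hlim' _ f hf hfp j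
    · exact vanish_at_points g hZ (fun k => by rw [hH, hGen6 e1]) hlim _ f hf.1 hf.2 j
  · push Not at hbc
    obtain ⟨hb, hc⟩ := hbc
    interval_cases b <;> interval_cases c
    · obtain ⟨a', rfl⟩ : ∃ a', a = a' + 1 := by
        cases a with
        | zero => exfalso; apply h0; ext i; fin_cases i <;> rfl
        | succ n => exact ⟨n, rfl⟩
      exact (eq00 g g' a').le
    · exact (eq01 g g' a).le
    · exact (eq10 g g' a).le
    · exact (eq11 g g' a).le

theorem VSP_subsingleton : (VSP F₀ 6).Subsingleton := by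
  intro J hJ J' hJ'
  exact le_antisymm (le_of_part_le hJ.1.1 (part_le_part hJ hJ'))
    (le_of_part_le hJ'.1.1 (part_le_part hJ' hJ))

end Pool.Agent.Helper87.BVSP
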