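import Pool.Agent.Helper87.BVSPCompact
import Pool.Agent.Helper87.BVSPSubsingleton

/-! Existence: an explicit sequence of configurations, border rank, and a point of the VSP. -/

open MvPolynomial Filter Topology

namespace Pool.Agent.Helper87.BVSP

/-- Hilbert function of six points with linearly independent coordinates in each factor. -/
theorem hilb_of_dual {Z : Fin 6 → Fin 3 → Fin 6 → ℂ}
    (L : Fin 3 → Fin 6 → Fin 6 → ℂ)
    (hL : ∀ s i j, ∑ x, L s j x * Z i s x = if i = j then 1 else 0) (d : Fin 3 → ℕ) :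
    hilb (idealOf Z) d = hGen 6 6 d := by
  set φ : Cox 6 →ₗ[ℂ] (Fin 6 → ℂ) := LinearMap.pi fun i => evL (Z i) with hφ
  have hpart : part (idealOf Z) d = piece 6 d ⊓ LinearMap.ker φ := by
    ext f
    rw [mem_part, Submodule.mem_inf, LinearMap.mem_ker]
    constructor
    · rintro ⟨h1, h2⟩
      refine ⟨h2, ?_⟩
      funext i
      rw [hφ, LinearMap.pi_apply, evL_apply, (mem_idealOf h2).1 h1 i]; rfl
    · rintro ⟨h1, h2⟩
      refine ⟨(mem_idealOf h1).2 fun i => ?_, h1⟩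
      have := congrFun h2 i
      rw [hφ, LinearMap.pi_apply, evL_apply] at this
      exact this
  have hadd := hilb_add_finrank (idealOf Z) d
  by_cases hd : d = 0
  · subst hd
    have h3 : Module.finrank ℂ (piece 6 0) ≤ 1 := by
      have hle : piece 6 0 ≤ Submodule.span ℂ {(1 : Cox 6)} := by
        intro a ha
        have : a = C (coeff 0 a) := by
          ext u
          rw [coeff_C]
          split_ifs with h0
          · rw [h0]
          · by_contra hne
            have := mem_piece.1 ha u hne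
            apply h0
            ext ⟨s', i⟩
            have h1 := this s'
            simp only [Pi.zero_apply, Finset.sum_eq_zero_iff, Finset.mem_univ, true_implies] at h1
            simp [h1 i]
        rw [this, Submodule.mem_span_singleton]
        exact ⟨coeff 0 a, by rw [smul_eq_C_mul, mul_one]⟩
      refine (Submodule.finrank_mono hle).trans ?_
      have h5 := finrank_span_le_card (R := ℂ) ({(1 : Cox 6)} : Set (Cox 6))
      simpa using h5
    have h4 : part (idealOf Z) 0 = ⊥ := by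
      rw [eq_bot_iff]
      intro f hf
      rw [mem_part] at hf
      have : f = C (coeff 0 f) := by
        ext u
        rw [coeff_C]
        split_ifs with h0
        · rw [h0]
        · by_contra hne
          have := mem_piece.1 hf.2 u hne
          apply h0
          ext ⟨s', i⟩
          have h1 := this s'
          simp only [Pi.zero_apply, Finset.sum_eq_zero_iff, Finset.mem_univ, true_implies] at h1
          simp [h1 i]
      have h5 := (mem_idealOf hf.2).1 hf.1 0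
      rw [this] at h5
      have h6 : coeff 0 f = 0 := by simpa [ev] using h5
      rw [Submodule.mem_bot, this, h6, C_0]
    rw [h4, finrank_bot, add_zero] at hadd
    rw [hadd, hGen]
    exact (min_eq_right (by omega)).symm
  · rw [hGen6 hd]
    -- lower bound through dual forms
    set G : Fin 6 → Cox 6 := fun j => ∏ s, (∑ x, C (L s j x) * X (s, x)) ^ d s with hG
    have hlin : ∀ s j, (∑ x, C (L s j x) * X (s, x) : Cox 6) ∈ piece 6 (Pi.single s 1) := by
      intro s j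
      refine Submodule.sum_mem _ fun x _ => ?_
      rw [← smul_eq_C_mul]
      exact Submodule.smul_mem _ _ (X_mem_piece _ _)
    have hGm : ∀ j, G j ∈ piece 6 d := by
      intro j
      rw [hG]
      simp only [Fin.prod_univ_three]
      have h := mul_mem_piece (mul_mem_piece (pow_mem_piece (hlin 0 j) (d 0))
        (pow_mem_piece (hlin 1 j) (d 1))) (pow_mem_piece (hlin 2 j) (d 2))
      have e : d 0 • (Pi.single 0 1 : Fin 3 → ℕ) + d 1 • Pi.single 1 1 + d 2 • Pi.single 2 1 = d := by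
        ext i; fin_cases i <;> simp
      rw [e] at h
      exact h
    have hGe : ∀ i j, φ (G j) i = if i = j then 1 else 0 := by
      intro i j
      rw [hφ, LinearMap.pi_apply, evL_apply, hG]
      simp only
      rw [map_prod]
      have h1 : ∀ s, ev (Z i) ((∑ x, C (L s j x) * X (s, x)) ^ d s) =
          (if i = j then 1 else 0) ^ d s := by
        intro s
        rw [map_pow, map_sum, ← hL s i j]
        congr 1
        refine Finset.sum_congr rfl fun x _ => ?_
        rw [map_mul, ev_X]; simp [ev]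
      simp only [h1]
      by_cases hij : i = j
      · simp [hij]
      · simp only [if_neg hij]
        obtain ⟨s, hs⟩ := Function.ne_iff.1 hd
        exact Finset.prod_eq_zero (Finset.mem_univ s) (zero_pow hs)
    have h1 := finrank_add_le_of_functionals (V := part (idealOf Z) d) (P := piece 6 d)
      (part_le _ _) φ (fun f hf => by rw [hpart] at hf; exact hf.2) G hGm hGe
    -- upper bound: six functionals
    have h2 : Module.finrank ℂ (piece 6 d) ≤ 6 + Module.finrank ℂ (part (idealOf Z) d) := by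
      have h3 := LinearMap.finrank_range_add_finrank_ker (φ.comp (piece 6 d).subtype)
      have h4 : Module.finrank ℂ (LinearMap.range (φ.comp (piece 6 d).subtype)) ≤ 6 := by
        have := Submodule.finrank_le (LinearMap.range (φ.comp (piece 6 d).subtype))
        simpa using this
      have h5 : LinearMap.ker (φ.comp (piece 6 d).subtype) =
          (part (idealOf Z) d).comap (piece 6 d).subtype := by
        ext x
        rw [hpart]
        simp
      rw [h5, LinearEquiv.finrank_eq (Submodule.comapSubtypeEquivOfLe (part_le _ d))] at h3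
      omega
    omega

theorem distinct_of_dual {Z : Fin 6 → Fin 3 → Fin 6 → ℂ}
    (L : Fin 3 → Fin 6 → Fin 6 → ℂ)
    (hL : ∀ s i j, ∑ x, L s j x * Z i s x = if i = j then 1 else 0) : DistinctPoints Z := by
  refine ⟨fun i s h => ?_, fun i j hij h => ?_⟩
  · have := hL s i i
    rw [h] at this
    simp at this
  · obtain ⟨c, hc⟩ := h 0
    have h1 := hL 0 i i
    have h2 := hL 0 j i
    rw [hc] at h1
    simp only [Pi.smul_apply, smul_eq_mul] at h1
    have h3 : ∑ x, L 0 i x * (c * Z j 0 x) = c * ∑ x, L 0 i x * Z j 0 x := by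
      rw [Finset.mul_sum]; exact Finset.sum_congr rfl fun x _ => by ring
    rw [h3, h2, if_neg hij.symm] at h1
    simp at h1

/-- linear terms of the explicit family -/
def lz (i : Fin 6) : Fin 3 → Fin 6 → ℤ :=
  ![(![![0, 0, 0, 0, -1, 0], ![0, 0, 1, 0, 0, 0], ![0, 0, 1, 1, 0, 1], ![0, 0, 1, 0, 0, 1],
      ![0, -1, 0, 0, -1, 0], ![0, 0, 0, 0, 0, 0]] : Fin 6 → Fin 6 → ℤ) i,
    (![![1, 0, 0, 0, 0, 0], ![0, 1, 0, 0, 0, 0], ![0, 0, 1, 0, 0, 0], ![0, 0, 0, 0, 0, 0],
      ![0, 0, 0, 0, 0, 0], ![0, 0, 0, 0, 0, 0]] : Fin 6 → Fin 6 → ℤ) i,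
    (![![0, 0, 0, 0, 0, 0], ![0, 0, 0, 0, 0, 0], ![0, 0, 0, 0, 0, 0], ![0, 0, 0, 1, 0, 0],
      ![0, 0, 0, 0, 1, 0], ![0, 0, 0, 0, 0, 1]] : Fin 6 → Fin 6 → ℤ) i]

/-- the explicit family of six points -/
noncomputable def Zt (t : ℂ) (i : Fin 6) (s : Fin 3) (x : Fin 6) : ℂ :=
  (ptz i s x : ℂ) + t * (lz i s x : ℂ)

/-- dual vectors: constant part and part to be divided by `t` -/
def Lc : Fin 3 → Fin 6 → Fin 6 → ℤ :=
  ![![![0, 0, 0, 0, 0, 0], ![0, 0, 0, 0, 0, 0], ![0, 0, 0, 0, 0, 0], ![0, 0, 0, 0, 0, 0],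
      ![0, 0, 0, 0, 0, 0], ![1, 0, 0, 0, 0, 0]],
    fun j => lz j 2, fun j => lz j 1]

def Ld : Fin 3 → Fin 6 → Fin 6 → ℤ :=
  ![![![0, 1, 0, 0, -1, 0], ![0, 0, 1, 0, 0, -1], ![0, 0, 0, 1, 0, 0], ![0, 0, 0, -1, 0, 1],
      ![0, -1, 0, 0, 0, 0], ![0, 0, -1, 0, 1, 0]],
    fun j => ptz j 2, fun j => ptz j 1]

theorem dual_int : ∀ s i j,
    (∑ x, Lc s j x * ptz i s x + ∑ x, Ld s j x * lz i s x = if i = j then 1 else 0) ∧
    (∑ x, Ld s j x * ptz i s x = 0) ∧ (∑ x, Lc s j x * lz i s x = 0) := by decide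

theorem dual_Zt {t : ℂ} (ht : t ≠ 0) (s : Fin 3) (i j : Fin 6) :
    ∑ x, ((Lc s j x : ℂ) + t⁻¹ * (Ld s j x : ℂ)) * Zt t i s x = if i = j then 1 else 0 := by
  obtain ⟨h1, h2, h3⟩ := dual_int s i j
  have h1' : (∑ x, (Lc s j x : ℂ) * (ptz i s x : ℂ)) + ∑ x, (Ld s j x : ℂ) * (lz i s x : ℂ) =
      if i = j then 1 else 0 := by
    have := congrArg (Int.cast : ℤ → ℂ) h1
    push_cast at this
    rw [this]
  have h2' : ∑ x, (Ld s j x : ℂ) * (ptz i s x : ℂ) = 0 := by exact_mod_cast h2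
  have h3' : ∑ x, (Lc s j x : ℂ) * (lz i s x : ℂ) = 0 := by exact_mod_cast h3
  have e : ∀ x, ((Lc s j x : ℂ) + t⁻¹ * (Ld s j x : ℂ)) * Zt t i s x =
      (Lc s j x : ℂ) * (ptz i s x : ℂ) + (Ld s j x : ℂ) * (lz i s x : ℂ) +
      t * ((Lc s j x : ℂ) * (lz i s x : ℂ)) + t⁻¹ * ((Ld s j x : ℂ) * (ptz i s x : ℂ)) := by
    intro x
    rw [Zt]
    field_simp
    ring
  simp only [e, Finset.sum_add_distrib, ← Finset.mul_sum]
  rw [h2', h3', mul_zero, mul_zero, add_zero, add_zero, h1']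

/-- coefficients of the expansion of the tensors in the family -/
def U1 (a b c : Fin 6) : ℤ := ∑ i, (lz i 0 a * lz i 1 b * ptz i 2 c +
  lz i 0 a * ptz i 1 b * lz i 2 c + ptz i 0 a * lz i 1 b * lz i 2 c)
def U2 (a b c : Fin 6) : ℤ := ∑ i, lz i 0 a * lz i 1 b * lz i 2 c

theorem expand_int : ∀ a b c : Fin 6,
    (∑ i, ptz i 0 a * ptz i 1 b * ptz i 2 c = 0) ∧
    (∑ i, (lz i 0 a * ptz i 1 b * ptz i 2 c + ptz i 0 a * lz i 1 b * ptz i 2 c +
      ptz i 0 a * ptz i 1 b * lz i 2 c) = Tz a b c) := by decide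

theorem expand (t : ℂ) (a b c : Fin 6) :
    ∑ i, Zt t i 0 a * Zt t i 1 b * Zt t i 2 c =
      t * ((Tz a b c : ℂ) + t * (U1 a b c : ℂ) + t ^ 2 * (U2 a b c : ℂ)) := by
  obtain ⟨h1, h2⟩ := expand_int a b c
  have h1' : ∑ i, (ptz i 0 a : ℂ) * (ptz i 1 b : ℂ) * (ptz i 2 c : ℂ) = 0 := by exact_mod_cast h1
  have h2' : ∑ i, ((lz i 0 a : ℂ) * (ptz i 1 b : ℂ) * (ptz i 2 c : ℂ) +
      (ptz i 0 a : ℂ) * (lz i 1 b : ℂ) * (ptz i 2 c : ℂ) +
      (ptz i 0 a : ℂ) * (ptz i 1 b : ℂ) * (lz i 2 c : ℂ)) = (Tz a b c : ℂ) := by exact_mod_cast h2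
  rw [← h2', U1, U2]
  push_cast
  have e : ∀ i, Zt t i 0 a * Zt t i 1 b * Zt t i 2 c =
      (ptz i 0 a : ℂ) * (ptz i 1 b : ℂ) * (ptz i 2 c : ℂ) +
      t * (((lz i 0 a : ℂ) * (ptz i 1 b : ℂ) * (ptz i 2 c : ℂ) +
        (ptz i 0 a : ℂ) * (lz i 1 b : ℂ) * (ptz i 2 c : ℂ) +
        (ptz i 0 a : ℂ) * (ptz i 1 b : ℂ) * (lz i 2 c : ℂ))) +
      t ^ 2 * ((lz i 0 a : ℂ) * (lz i 1 b : ℂ) * (ptz i 2 c : ℂ) +
        (lz i 0 a : ℂ) * (ptz i 1 b : ℂ) * (lz i 2 c : ℂ) +
        (ptz i 0 a : ℂ) * (lz i 1 b : ℂ) * (lz i 2 c : ℂ)) +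
      t ^ 3 * ((lz i 0 a : ℂ) * (lz i 1 b : ℂ) * (lz i 2 c : ℂ)) := by
    intro i
    simp only [Zt]
    ring
  simp only [e, Finset.sum_add_distrib, ← Finset.mul_sum] at *
  rw [h1']
  ring

/-- the parameter values -/
noncomputable def tk (k : ℕ) : ℂ := ((k : ℂ) + 1)⁻¹

theorem tk_ne (k : ℕ) : tk k ≠ 0 := inv_ne_zero (Nat.cast_add_one_ne_zero k)

theorem tk_lim : Tendsto tk atTop (𝓝 0) := by
  have h := tendsto_one_div_add_atTop_nhds_zero_nat (𝕜 := ℝ)
  have h2 : Tendsto (fun n : ℕ => ((1 / ((n : ℝ) + 1) : ℝ) : ℂ)) atTop (𝓝 ((0 : ℝ) : ℂ)) :=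
    (Complex.continuous_ofReal.tendsto 0).comp h
  have e : tk = fun n : ℕ => ((1 / ((n : ℝ) + 1) : ℝ) : ℂ) := by
    funext n
    rw [tk]; push_cast; rw [one_div]
  rw [e]
  simpa using h2

/-- rescaled family: the first vector is divided by `t` -/
noncomputable def Zs (t : ℂ) (i : Fin 6) (s : Fin 3) (x : Fin 6) : ℂ :=
  (if s = 0 then t⁻¹ else 1) * Zt t i s x

/-- the approximating tensors -/
noncomputable def Fk (t : ℂ) : Cox 6 := ∑ i, simple (Zs t i)

theorem Fk_mem (t : ℂ) : Fk t ∈ piece 6 d111 := Submodule.sum_mem _ fun i _ => simple_mem _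

theorem coeff_Fk {t : ℂ} (ht : t ≠ 0) (a b c : Fin 6) :
    coeff (e3 a b c) (Fk t) = (Tz a b c : ℂ) + t * (U1 a b c : ℂ) + t ^ 2 * (U2 a b c : ℂ) := by
  rw [Fk, coeff_sum]
  have h1 : ∀ i, coeff (e3 a b c) (simple (Zs t i)) =
      t⁻¹ * (Zt t i 0 a * Zt t i 1 b * Zt t i 2 c) := by
    intro i
    rw [simple_eq, coeff_ofTensor]
    simp only [Zs, if_true, if_neg (by decide : ¬ (1 : Fin 3) = 0),
      if_neg (by decide : ¬ (2 : Fin 3) = 0), one_mul]
    ring
  simp only [h1, ← Finset.mul_sum]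
  rw [expand]
  field_simp

theorem tendsto_Fk (u : Fin 3 × Fin 6 →₀ ℕ) :
    Tendsto (fun k => coeff u (Fk (tk k))) atTop (𝓝 (coeff u F₀)) := by
  by_cases hu : u ∈ exps 6 d111
  · obtain ⟨a, b, c, rfl⟩ := exists_e3 hu
    have h1 : ∀ k, coeff (e3 a b c) (Fk (tk k)) =
        (Tz a b c : ℂ) + tk k * (U1 a b c : ℂ) + tk k ^ 2 * (U2 a b c : ℂ) :=
      fun k => coeff_Fk (tk_ne k) a b c
    simp only [h1]
    rw [F₀, coeff_ofTensor]
    have h2 : Tendsto (fun k => (Tz a b c : ℂ) + tk k * (U1 a b c : ℂ) + tk k ^ 2 * (U2 a b c : ℂ))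
        atTop (𝓝 ((Tz a b c : ℂ) + 0 * (U1 a b c : ℂ) + 0 ^ 2 * (U2 a b c : ℂ))) :=
      (tendsto_const_nhds.add (tk_lim.mul_const _)).add ((tk_lim.pow 2).mul_const _)
    simpa using h2
  · have h1 : ∀ k, coeff u (Fk (tk k)) = 0 := fun k =>
      MvPolynomial.notMem_support_iff.1 fun h' => hu (support_subset_exps (Fk_mem _) h')
    have h2 : coeff u F₀ = 0 :=
      MvPolynomial.notMem_support_iff.1 fun h' => hu (support_subset_exps F₀_mem h')
    simp only [h1, h2]
    exact tendsto_const_nhds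

theorem borderRankLE_six : BorderRankLE F₀ 6 :=
  ⟨fun k => Fk (tk k), fun _ => ⟨_, rfl⟩, tendsto_Fk⟩

theorem exists_mem_VSP : ∃ J, J ∈ VSP F₀ 6 := by
  have hdual : ∀ k, ∃ L : Fin 3 → Fin 6 → Fin 6 → ℂ, ∀ s i j,
      ∑ x, L s j x * Zt (tk k) i s x = if i = j then 1 else 0 :=
    fun k => ⟨_, fun s i j => dual_Zt (tk_ne k) s i j⟩
  choose L hL using hdual
  obtain ⟨φ, hφ, J, hJ, hH, hlim⟩ := exists_limit_ideal (fun k => Zt (tk k)) (hGen 6 6)
    (fun k d => hilb_of_dual (L k) (hL k) d)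
  refine ⟨J, ⟨hJ, hH, (fun k => Zt (tk k)) ∘ φ, fun k => distinct_of_dual (L _) (hL _),
    fun k d => hilb_of_dual (L _) (hL _) d, hlim⟩, ?_⟩
  rw [subset_Ann_iff F₀_mem]
  -- it suffices to treat forms of degree (1,1,1)
  have h111 : ∀ f ∈ J, f ∈ piece 6 d111 → pair F₀ f = 0 := by
    intro f hf hfp
    obtain ⟨g, hg, hgl⟩ := hlim d111 f hf hfp
    have h1 : Tendsto (fun k => pair (Fk (tk (φ k))) (g k)) atTop (𝓝 (pair F₀ f)) := by
      simp only [pair_apply]
      refine tendsto_finsetSum _ fun w _ => ?_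
      exact ((tendsto_Fk w).comp hφ.tendsto_atTop).mul (hgl w)
    have h2 : ∀ k, pair (Fk (tk (φ k))) (g k) = 0 := by
      intro k
      have e : pair (Fk (tk (φ k))) (g k) = ∑ i, pair (simple (Zs (tk (φ k)) i)) (g k) := by
        simp only [pair_apply, Fk, coeff_sum, Finset.sum_mul]
        rw [Finset.sum_comm]
      rw [e]
      refine Finset.sum_eq_zero fun i _ => ?_
      rw [pair_simple _ (hg k).2]
      have e2 : Zs (tk (φ k)) i =
          fun s x => (if s = 0 then (tk (φ k))⁻¹ else 1) * Zt (tk (φ k)) i s x := rfl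
      rw [e2, ev_scale (hg k).2]
      have h3 := (mem_idealOf (hg k).2).1 (hg k).1 i
      have h4 : ev (Zt (tk (φ k)) i) (g k) = 0 := h3
      rw [h4, mul_zero]
    simp only [h2] at h1
    exact tendsto_nhds_unique h1 tendsto_const_nhds |>.trans rfl
  intro f hf
  have hc := hJ f hf d111
  have h1 := h111 _ hc (component_mem_piece _ _)
  rw [← h1, pair_apply, pair_apply]
  refine Finset.sum_congr rfl fun w hw => ?_
  rw [coeff_weightedHomogeneousComponent, if_pos]
  funext s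
  rw [weight_apply]
  exact mem_exps.1 hw s

theorem VSP_eq : ∃ J, VSP F₀ 6 = {J} := by
  obtain ⟨J, hJ⟩ := exists_mem_VSP
  exact ⟨J, VSP_subsingleton.eq_singleton_of_mem hJ⟩

end Pool.Agent.Helper87.BVSP
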