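import Pool.Agent.Helper87.BVSPPoints

/-! Degrees `(a, b, c)` with `b ≥ 2` or `c ≥ 2`: evaluation at the six points is surjective. -/

open MvPolynomial Filter Topology

namespace Pool.Agent.Helper87.BVSP

/-- quadrics in the third group dual to the squares of the `p_j` -/
noncomputable def quadC : Fin 6 → Cox 6 :=
  ![X (2, 0) * (X (2, 0) + X (2, 1) + X (2, 2)), X (2, 1) * (X (2, 0) + X (2, 1) + X (2, 2)),
    X (2, 2) * (X (2, 0) + X (2, 1) + X (2, 2)),
    -(X (2, 1) * X (2, 2)), -(X (2, 0) * X (2, 2)), -(X (2, 0) * X (2, 1))]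

/-- quadrics in the second group dual to the squares of the `q_j` -/
noncomputable def quadB : Fin 6 → Cox 6 :=
  ![-(X (1, 4) * X (1, 5)), -(X (1, 3) * X (1, 5)), -(X (1, 3) * X (1, 4)),
    X (1, 3) * (X (1, 3) + X (1, 4) + X (1, 5)), X (1, 4) * (X (1, 3) + X (1, 4) + X (1, 5)),
    X (1, 5) * (X (1, 3) + X (1, 4) + X (1, 5))]

theorem quadC_mem (j : Fin 6) : quadC j ∈ piece 6 (Pi.single 2 1 + Pi.single 2 1) := by
  have h : ∀ i k : Fin 6, (X (2, i) * X (2, k) : Cox 6) ∈ piece 6 (Pi.single 2 1 + Pi.single 2 1) :=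
    fun i k => mul_mem_piece (X_mem_piece _ _) (X_mem_piece _ _)
  fin_cases j <;> simp only [quadC, mul_add] <;>
    first
    | exact Submodule.add_mem _ (Submodule.add_mem _ (h _ _) (h _ _)) (h _ _)
    | exact Submodule.neg_mem _ (h _ _)

theorem quadB_mem (j : Fin 6) : quadB j ∈ piece 6 (Pi.single 1 1 + Pi.single 1 1) := by
  have h : ∀ i k : Fin 6, (X (1, i) * X (1, k) : Cox 6) ∈ piece 6 (Pi.single 1 1 + Pi.single 1 1) :=
    fun i k => mul_mem_piece (X_mem_piece _ _) (X_mem_piece _ _)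
  fin_cases j <;> simp only [quadB, mul_add] <;>
    first
    | exact Submodule.add_mem _ (Submodule.add_mem _ (h _ _) (h _ _)) (h _ _)
    | exact Submodule.neg_mem _ (h _ _)

theorem ev_quadC (i j : Fin 6) : ev (pt i) (quadC j) = if i = j then 1 else 0 := by
  fin_cases i <;> fin_cases j <;> simp [quadC, ev, pt, ptz, pz]

theorem ev_quadB (i j : Fin 6) : ev (pt i) (quadB j) = if i = j then 1 else 0 := by
  fin_cases i <;> fin_cases j <;> simp [quadB, ev, pt, ptz, qz]

theorem pt_0 (j : Fin 6) : pt j 0 0 = 1 := by simp [pt, ptz, az]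

/-- dual forms in degree `d` with `d 2 ≥ 2` -/
noncomputable def GC (a b c : ℕ) (j : Fin 6) : Cox 6 :=
  X (0, 0) ^ a * (X (1, cb j) ^ b * (quadC j * X (2, cc j) ^ c))

noncomputable def GB (a b c : ℕ) (j : Fin 6) : Cox 6 :=
  X (0, 0) ^ a * (X (2, cc j) ^ c * (quadB j * X (1, cb j) ^ b))

theorem GC_mem (a b c : ℕ) (j : Fin 6) : GC a b c j ∈ piece 6 ![a, b, c + 2] := by
  have h := mul_mem_piece (pow_mem_piece (X_mem_piece (m := 6) 0 0) a)
    (mul_mem_piece (pow_mem_piece (X_mem_piece (m := 6) 1 (cb j)) b)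
      (mul_mem_piece (quadC_mem j) (pow_mem_piece (X_mem_piece (m := 6) 2 (cc j)) c)))
  have e : a • (Pi.single 0 1 : Fin 3 → ℕ) + (b • Pi.single 1 1 +
      (Pi.single 2 1 + Pi.single 2 1 + c • Pi.single 2 1)) = ![a, b, c + 2] := by
    ext i; fin_cases i <;> simp; ring
  rw [e] at h
  exact h

theorem GB_mem (a b c : ℕ) (j : Fin 6) : GB a b c j ∈ piece 6 ![a, b + 2, c] := by
  have h := mul_mem_piece (pow_mem_piece (X_mem_piece (m := 6) 0 0) a)
    (mul_mem_piece (pow_mem_piece (X_mem_piece (m := 6) 2 (cc j)) c)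
      (mul_mem_piece (quadB_mem j) (pow_mem_piece (X_mem_piece (m := 6) 1 (cb j)) b)))
  have e : a • (Pi.single 0 1 : Fin 3 → ℕ) + (c • Pi.single 2 1 +
      (Pi.single 1 1 + Pi.single 1 1 + b • Pi.single 1 1)) = ![a, b + 2, c] := by
    ext i; fin_cases i <;> simp; ring
  rw [e] at h
  exact h

theorem ev_GC (a b c : ℕ) (i j : Fin 6) : ev (pt i) (GC a b c j) = if i = j then 1 else 0 := by
  rw [GC, map_mul, map_mul, map_mul, ev_quadC, map_pow, map_pow, map_pow, ev_X, ev_X, ev_X, pt_0]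
  by_cases h : i = j
  · subst h; rw [pt_cb, pt_cc]; simp
  · simp [h]

theorem ev_GB (a b c : ℕ) (i j : Fin 6) : ev (pt i) (GB a b c j) = if i = j then 1 else 0 := by
  rw [GB, map_mul, map_mul, map_mul, ev_quadB, map_pow, map_pow, map_pow, ev_X, ev_X, ev_X, pt_0]
  by_cases h : i = j
  · subst h; rw [pt_cb, pt_cc]; simp
  · simp [h]

/-- If all forms of `J` of degree `d` vanish at the six points, `d 1 ≥ 2` or `d 2 ≥ 2`, and
`J` has codimension six in degree `d`, then `J_d` is exactly the space of forms vanishing at the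
six points. -/
theorem mem_high {J : Ideal (Cox 6)} (hJ : Good J) {a b c : ℕ} (hbc : 2 ≤ b ∨ 2 ≤ c)
    (hv : ∀ f ∈ J, f ∈ piece 6 ![a, b, c] → ∀ j, ev (pt j) f = 0) {f : Cox 6}
    (hf : f ∈ piece 6 ![a, b, c]) (h0 : ∀ j, ev (pt j) f = 0) : f ∈ J := by
  have hne : (![a, b, c] : Fin 3 → ℕ) ≠ 0 := by
    intro h
    have h1 := congrFun h 1
    have h2 := congrFun h 2
    simp at h1 h2
    omega
  have h1 : ∀ f ∈ J, f ∈ piece 6 ![a, b, c] → (LinearMap.pi fun j => evL (pt j)) f = 0 := by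
    intro f hf hfp
    funext j
    rw [LinearMap.pi_apply, evL_apply, hv f hf hfp j]; rfl
  have h2 : (LinearMap.pi fun j => evL (pt j)) f = 0 := by
    funext j
    rw [LinearMap.pi_apply, evL_apply, h0 j]; rfl
  rcases hbc with hb | hc
  · obtain ⟨b', rfl⟩ := Nat.exists_eq_add_of_le' hb
    exact mem_of_functionals (hJ.hilb6 _ hne) _ h1 (GB a b' c) (GB_mem a b' c)
      (fun i j => by rw [LinearMap.pi_apply, evL_apply, ev_GB]) hf h2
  · obtain ⟨c', rfl⟩ := Nat.exists_eq_add_of_le' hc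
    exact mem_of_functionals (hJ.hilb6 _ hne) _ h1 (GC a b c') (GC_mem a b c')
      (fun i j => by rw [LinearMap.pi_apply, evL_apply, ev_GC]) hf h2

end Pool.Agent.Helper87.BVSP
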