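import Pool.Agent.Helper87.BVSPHigh

/-! Limits of point configurations: the limit points are exactly the six rank one points. -/

open MvPolynomial Filter Topology

namespace Pool.Agent.Helper87.BVSP

/-- exponent of `β_x γ_y` -/
noncomputable def e2 (x y : Fin 6) : Fin 3 × Fin 6 →₀ ℕ :=
  Finsupp.single (1, x) 1 + Finsupp.single (2, y) 1

theorem e2_inj {x y x' y' : Fin 6} (h : e2 x y = e2 x' y') : x = x' ∧ y = y' := by
  have h1 := DFunLike.congr_fun h (1, x)
  have h2 := DFunLike.congr_fun h (2, y)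
  simp only [e2, Finsupp.add_apply, Finsupp.single_apply, Prod.mk.injEq] at h1 h2
  simp at h1 h2
  exact ⟨h1.symm, h2.symm⟩

/-- the bilinear form attached to a form of degree `(0,1,1)`, linear in the form -/
noncomputable def bil (b c : Fin 6 → ℂ) : Cox 6 →ₗ[ℂ] ℂ :=
  ∑ x, ∑ y, (b x * c y) • MvPolynomial.lcoeff ℂ (e2 x y)

theorem bil_apply (b c : Fin 6 → ℂ) (g : Cox 6) :
    bil b c g = ∑ x, ∑ y, b x * c y * coeff (e2 x y) g := by
  simp [bil, LinearMap.sum_apply]

theorem bil_XX (b c : Fin 6 → ℂ) (x y : Fin 6) :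
    bil b c (X (1, x) * X (2, y)) = b x * c y := by
  have e : (X (1, x) * X (2, y) : Cox 6) = monomial (e2 x y) 1 := by
    simp [X, monomial_mul, e2]
  rw [e, bil_apply, Finset.sum_eq_single x, Finset.sum_eq_single y]
  · simp
  · intro y' _ hy
    rw [coeff_monomial, if_neg, mul_zero]
    intro h; exact hy (e2_inj h).2.symm
  · simp
  · intro x' _ hx
    refine Finset.sum_eq_zero fun y' _ => ?_
    rw [coeff_monomial, if_neg, mul_zero]
    intro h; exact hx (e2_inj h).1.symm
  · simp

theorem ev_eq_bil (z : Fin 3 → Fin 6 → ℂ) {g : Cox 6} (hg : g ∈ piece 6 d011) :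
    ev z g = bil (z 1) (z 2) g := by
  have h : piece 6 d011 ≤ LinearMap.eqLocus (evL z) (bil (z 1) (z 2)) := by
    refine piece_succ_le_of fun g hg i => ?_
    rw [piece_single] at hg
    induction hg using Submodule.span_induction with
    | mem x hx =>
      obtain ⟨j, rfl⟩ := hx
      change evL z _ = bil _ _ _
      rw [evL_apply, map_mul, ev_X, ev_X, bil_XX]
    | zero => rw [zero_mul]; exact Submodule.zero_mem _
    | add x y _ _ hx hy => rw [add_mul]; exact Submodule.add_mem _ hx hy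
    | smul c x _ hx => rw [smul_mul_assoc]; exact Submodule.smul_mem _ _ hx
  have := h hg
  rw [← evL_apply]
  exact this

theorem bil_add_left (b b' c : Fin 6 → ℂ) (g : Cox 6) :
    bil (b + b') c g = bil b c g + bil b' c g := by
  simp only [bil_apply, Pi.add_apply, ← Finset.sum_add_distrib]
  exact Finset.sum_congr rfl fun x _ => Finset.sum_congr rfl fun y _ => by ring

theorem bil_smul_left (t : ℂ) (b c : Fin 6 → ℂ) (g : Cox 6) :
    bil (t • b) c g = t * bil b c g := by
  simp only [bil_apply, Pi.smul_apply, smul_eq_mul, Finset.mul_sum]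
  exact Finset.sum_congr rfl fun x _ => Finset.sum_congr rfl fun y _ => by ring

theorem bil_add_right (b c c' : Fin 6 → ℂ) (g : Cox 6) :
    bil b (c + c') g = bil b c g + bil b c' g := by
  simp only [bil_apply, Pi.add_apply, ← Finset.sum_add_distrib]
  exact Finset.sum_congr rfl fun x _ => Finset.sum_congr rfl fun y _ => by ring

theorem bil_smul_right (t : ℂ) (b c : Fin 6 → ℂ) (g : Cox 6) :
    bil b (t • c) g = t * bil b c g := by
  simp only [bil_apply, Pi.smul_apply, smul_eq_mul, Finset.mul_sum]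
  exact Finset.sum_congr rfl fun x _ => Finset.sum_congr rfl fun y _ => by ring

theorem tendsto_bil {g : ℕ → Cox 6} {f : Cox 6}
    (hlim : ∀ u, Tendsto (fun k => coeff u (g k)) atTop (𝓝 (coeff u f)))
    {b c : ℕ → Fin 6 → ℂ} {b₀ c₀ : Fin 6 → ℂ} (hb : Tendsto b atTop (𝓝 b₀))
    (hc : Tendsto c atTop (𝓝 c₀)) :
    Tendsto (fun k => bil (b k) (c k) (g k)) atTop (𝓝 (bil b₀ c₀ f)) := by
  simp only [bil_apply]
  rw [tendsto_pi_nhds] at hb hc
  refine tendsto_finsetSum _ fun x _ => tendsto_finsetSum _ fun y _ => ?_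
  exact ((hb x).mul (hc y)).mul (hlim _)

/-- Limits of rescaled points of the configurations are zeros of `J`. -/
theorem ev_limit {m r : ℕ} {J : Ideal (Cox m)} {Z : ℕ → Fin r → Fin 3 → Fin m → ℂ}
    {d : Fin 3 → ℕ} (hlim : LimitIn Z J d) {f : Cox m} (hfJ : f ∈ J) (hfp : f ∈ piece m d)
    {φ : ℕ → ℕ} (hφ : Tendsto φ atTop atTop) (i : Fin r) (w : ℕ → Fin 3 → Fin m → ℂ)
    (c : ℕ → Fin 3 → ℂ) (hw : ∀ k s x, w k s x = c k s * Z (φ k) i s x)
    (w₀ : Fin 3 → Fin m → ℂ) (hw₀ : ∀ s x, Tendsto (fun k => w k s x) atTop (𝓝 (w₀ s x))) :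
    ev w₀ f = 0 := by
  obtain ⟨g, hg, hgl⟩ := hlim f hfJ hfp
  have h1 : Tendsto (fun k => ev (w k) (g (φ k))) atTop (𝓝 (ev w₀ f)) :=
    tendsto_ev (fun k => (hg (φ k)).2) hfp (fun u => (hgl u).comp hφ) hw₀
  have h2 : ∀ k, ev (w k) (g (φ k)) = 0 := by
    intro k
    have e : w k = fun s x => c k s * Z (φ k) i s x := by
      funext s x; exact hw k s x
    rw [e, ev_scale (hg (φ k)).2, (mem_idealOf (hg (φ k)).2).1 (hg (φ k)).1 i, mul_zero]
  simp only [h2] at h1
  exact tendsto_nhds_unique h1 tendsto_const_nhds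

/-- If six points impose six conditions on linear forms of the second group, no two of them
have proportional second coordinates. -/
theorem not_proportional {Z : Fin 6 → Fin 3 → Fin 6 → ℂ}
    (hH : hilb (idealOf Z) (Pi.single 1 1) = 6) {i i' : Fin 6} (hne : i ≠ i') {t : ℂ}
    (h : Z i 1 = t • Z i' 1) : False := by
  set A : Matrix (Fin 6) (Fin 6) ℂ := fun l x => Z l 1 x with hA
  have hdet : A.det = 0 := by
    have hrow : A = A.updateRow i (t • A i') := by
      funext l x
      rw [Matrix.updateRow_apply]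
      split_ifs with hl
      · subst hl
        have := congrFun h x
        simpa [hA] using this
      · rfl
    rw [hrow, Matrix.det_updateRow_smul]
    have : (A.updateRow i (A i')).det = 0 :=
      Matrix.det_zero_of_row_eq hne (by
        rw [Matrix.updateRow_self, Matrix.updateRow_ne hne.symm])
    rw [this, mul_zero]
  obtain ⟨v, hv, hAv⟩ := Matrix.exists_mulVec_eq_zero_iff.2 hdet
  set f : Cox 6 := ∑ x, C (v x) * X (1, x) with hf
  have hfp : f ∈ piece 6 (Pi.single 1 1) := by
    refine Submodule.sum_mem _ fun x _ => ?_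
    rw [← smul_eq_C_mul]
    exact Submodule.smul_mem _ _ (X_mem_piece _ _)
  have hfI : f ∈ idealOf Z := by
    rw [mem_idealOf hfp]
    intro l
    have h1 := congrFun hAv l
    rw [Matrix.mulVec, dotProduct] at h1
    rw [hf, map_sum]
    have h2 : ∀ x, ev (Z l) (C (v x) * X (1, x)) = A l x * v x := by
      intro x
      rw [map_mul, ev_X]; simp [ev, hA]; ring
    simp only [h2]
    exact h1
  have hf0 : f ≠ 0 := by
    intro h0
    apply hv
    funext x
    have h1 : coeff (Finsupp.single (1, x) 1) f = v x := by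
      rw [hf, coeff_sum, Finset.sum_eq_single x]
      · simp
      · intro y _ hy
        rw [coeff_C_mul, coeff_X, if_neg, mul_zero]
        intro h2
        have h3 := Finsupp.single_left_injective (one_ne_zero) h2
        simp only [Prod.mk.injEq, true_and] at h3
        exact hy h3
      · simp
    rw [h0] at h1
    simpa using h1.symm
  have h1 := hilb_add_finrank (idealOf Z) (Pi.single 1 1)
  have h2 : Module.finrank ℂ (piece 6 (Pi.single 1 1)) ≤ 6 := by
    rw [piece_single]
    have := finrank_range_le_card (R := ℂ) (fun i : Fin 6 => (X (1, i) : Cox 6))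
    simpa [Set.finrank] using this
  have h3 : 0 < Module.finrank ℂ (part (idealOf Z) (Pi.single 1 1)) := by
    have : FiniteDimensional ℂ (part (idealOf Z) (Pi.single 1 1)) :=
      Submodule.finiteDimensional_of_le (part_le _ _)
    rw [Module.finrank_pos_iff]
    refine ⟨⟨⟨f, mem_part.2 ⟨hfI, hfp⟩⟩, 0, ?_⟩⟩
    intro h0
    exact hf0 (congrArg Subtype.val h0)
  omega

/-- The relations of degree `(0,1,1)` in a good ideal give `Slicey`. -/
theorem slicey_of_ev {J : Ideal (Cox 6)} (hJ : Good J) {w : Fin 6 → Fin 6 → ℂ}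
    (L : Cox 6 →ₗ[ℂ] ℂ) (hL : ∀ x y, L (X (1, x) * X (2, y)) = w x y)
    (h0 : ∀ f ∈ J, f ∈ piece 6 d011 → L f = 0) : Slicey w := by
  refine slicey_of w fun M hM => ?_
  have h1 := h0 _ (hJ.rel011 M hM) ?_
  · simp only [map_sum] at h1
    rw [← h1]
    refine Finset.sum_congr rfl fun x _ => Finset.sum_congr rfl fun y _ => ?_
    rw [← smul_eq_C_mul, map_smul, hL, smul_eq_mul]
  · refine Submodule.sum_mem _ fun b _ => Submodule.sum_mem _ fun c _ => ?_
    rw [← smul_eq_C_mul]
    exact Submodule.smul_mem _ _ (mul_mem_piece (X_mem_piece _ _) (X_mem_piece _ _))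

theorem point_form {J : Ideal (Cox 6)} (hJ : Good J) {z : Fin 3 → Fin 6 → ℂ}
    (hz : ∀ s, z s ≠ 0) (h0 : ∀ d, ∀ f ∈ J, f ∈ piece 6 d → ev z f = 0) :
    ∃ j : Fin 6, ∃ c : Fin 3 → ℂ, (∀ s, c s ≠ 0) ∧ ∀ s x, z s x = c s * pt j s x := by
  have hS : Slicey fun x y => z 1 x * z 2 y := by
    refine slicey_of_ev hJ (evL z) (fun x y => ?_) (fun f hf hfp => ?_)
    · rw [evL_apply, map_mul, ev_X, ev_X]
    · rw [evL_apply]; exact h0 _ f hf hfp
  obtain ⟨j, s, t, hs, ht, hb, hc⟩ := solve_rank_one (hz 1) (hz 2) hS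
  have ha : ∀ a : Fin 6, a ≠ 0 → z 0 a = 0 := by
    intro a ha
    have h1 := h0 d110 _ (hJ.rel110 a (cb j)) ?_
    · rw [map_sub, map_sum, map_mul, ev_X, ev_X] at h1
      have h2 : ∀ c, ev z (C (Tz a (cb j) c : ℂ) * (X (0, 0) * X (1, c))) = 0 := by
        intro c
        rw [map_mul, map_mul, ev_X, ev_X, hb c]
        have h3 : ∀ a : Fin 6, a ≠ 0 → ∀ j c : Fin 6, Tz a (cb j) c * ptz j 1 c = 0 := by decide
        have h4 := h3 a ha j c
        have h5 : (Tz a (cb j) c : ℂ) * pt j 1 c = 0 := by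
          rw [pt]; exact_mod_cast h4
        have h6 : ev z (C (Tz a (cb j) c : ℂ)) = (Tz a (cb j) c : ℂ) := by simp [ev]
        rw [h6]
        linear_combination (z 0 0 * s) * h5
      rw [Finset.sum_eq_zero fun c _ => h2 c, sub_zero, hb, pt_cb, mul_one] at h1
      exact (mul_eq_zero.1 h1).resolve_right hs
    · refine Submodule.sub_mem _ (mul_mem_piece (X_mem_piece _ _) (X_mem_piece _ _)) ?_
      refine Submodule.sum_mem _ fun c _ => ?_
      rw [← smul_eq_C_mul]
      exact Submodule.smul_mem _ _ (mul_mem_piece (X_mem_piece _ _) (X_mem_piece _ _))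
  have ha0 : z 0 0 ≠ 0 := by
    intro h
    apply hz 0
    funext a
    by_cases haa : a = 0
    · rw [haa, h]; rfl
    · rw [ha a haa]; rfl
  refine ⟨j, ![z 0 0, s, t], ?_, ?_⟩
  · intro i; fin_cases i
    · exact ha0
    · exact hs
    · exact ht
  · intro i x
    fin_cases i
    · by_cases hx : x = 0
      · subst hx; simp [pt_0]
      · have : pt j 0 x = 0 := by
          have h3 : ∀ j x : Fin 6, x ≠ 0 → ptz j 0 x = 0 := by decide
          rw [pt, h3 j x hx]; simp
        simp [this, ha x hx]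
    · exact hb x
    · exact hc x

end Pool.Agent.Helper87.BVSP
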