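import Pool.Agent.Helper87.BVSPExample

/-! Degrees `(a, b, c)` with `b, c ≤ 1`: two good ideals agree there. -/

open MvPolynomial Filter Topology

namespace Pool.Agent.Helper87.BVSP

/-- If `S_d` is spanned by six elements modulo `J ∩ J'`, and both have codimension six, then
they agree in degree `d`. -/
theorem part_eq_of_span {m : ℕ} {J J' : Ideal (Cox m)} {d : Fin 3 → ℕ} (hJ : hilb J d = 6)
    (hJ' : hilb J' d = 6) (E : Fin 6 → Cox m)
    (h : piece m d ≤ Submodule.span ℂ (Set.range E) ⊔ (J ⊓ J').restrictScalars ℂ)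
    (hE : ∀ j, E j ∈ piece m d) : part J d = part J' d := by
  have hE' : Submodule.span ℂ (Set.range E) ≤ piece m d := by
    rw [Submodule.span_le]; rintro _ ⟨j, rfl⟩; exact hE j
  have h1 : piece m d ≤ Submodule.span ℂ (Set.range E) ⊔ part (J ⊓ J') d := by
    intro f hf
    obtain ⟨x, hx, y, hy, rfl⟩ := Submodule.mem_sup.1 (h hf)
    refine Submodule.mem_sup.2 ⟨x, hx, y, ?_, rfl⟩
    rw [mem_part]
    refine ⟨hy, ?_⟩
    have := Submodule.sub_mem _ hf (hE' hx)
    simpa using this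
  have hf1 : FiniteDimensional ℂ (part (J ⊓ J') d) := Submodule.finiteDimensional_of_le (part_le _ _)
  have hf2 : FiniteDimensional ℂ (part J d) := Submodule.finiteDimensional_of_le (part_le _ _)
  have hf3 : FiniteDimensional ℂ (part J' d) := Submodule.finiteDimensional_of_le (part_le _ _)
  have hf4 : FiniteDimensional ℂ (Submodule.span ℂ (Set.range E)) :=
    FiniteDimensional.span_of_finite ℂ (Set.finite_range E)
  have h2 := Submodule.finrank_mono h1
  have h3 := Submodule.finrank_add_le_finrank_add_finrank (Submodule.span ℂ (Set.range E))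
    (part (J ⊓ J') d)
  have h4 : Module.finrank ℂ (Submodule.span ℂ (Set.range E)) ≤ 6 := by
    have := finrank_range_le_card (R := ℂ) E
    simpa [Set.finrank] using this
  have h5 := hilb_add_finrank J d
  have h6 := hilb_add_finrank J' d
  have h7 : part (J ⊓ J') d ≤ part J d := by
    intro f hf; rw [mem_part] at *; exact ⟨hf.1.1, hf.2⟩
  have h8 : part (J ⊓ J') d ≤ part J' d := by
    intro f hf; rw [mem_part] at *; exact ⟨hf.1.2, hf.2⟩
  rw [← Submodule.eq_of_le_of_finrank_le h7 (by omega),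
    ← Submodule.eq_of_le_of_finrank_le h8 (by omega)]

/-- Inductive step for spanning sets. -/
theorem span_step {m : ℕ} {W : Ideal (Cox m)} {d : Fin 3 → ℕ} {s : Fin 3}
    {E E' : Fin 6 → Cox m}
    (h : piece m d ≤ Submodule.span ℂ (Set.range E) ⊔ W.restrictScalars ℂ)
    (hs : ∀ j i, E j * X (s, i) ∈ Submodule.span ℂ (Set.range E') ⊔ W.restrictScalars ℂ) :
    piece m (d + Pi.single s 1) ≤ Submodule.span ℂ (Set.range E') ⊔ W.restrictScalars ℂ := by
  refine piece_succ_le_of fun g hg i => ?_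
  obtain ⟨x, hx, y, hy, rfl⟩ := Submodule.mem_sup.1 (h hg)
  rw [add_mul]
  refine Submodule.add_mem _ ?_ ?_
  · clear hg
    induction hx using Submodule.span_induction with
    | mem x hx => obtain ⟨j, rfl⟩ := hx; exact hs j i
    | zero => rw [zero_mul]; exact Submodule.zero_mem _
    | add x y _ _ hx hy => rw [add_mul]; exact Submodule.add_mem _ hx hy
    | smul c x _ hx => rw [smul_mul_assoc]; exact Submodule.smul_mem _ _ hx
  · refine Submodule.mem_sup_right ?_
    exact W.mul_mem_right _ hy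

/-- Membership in `span + W` from a congruence. -/
theorem mem_sup_of_cong {m : ℕ} {W : Ideal (Cox m)} {E : Fin 6 → Cox m} {f : Cox m}
    (c : Fin 6 → ℂ) (h : f - ∑ j, C (c j) * E j ∈ W) :
    f ∈ Submodule.span ℂ (Set.range E) ⊔ W.restrictScalars ℂ := by
  refine Submodule.mem_sup.2 ⟨∑ j, C (c j) * E j, ?_, _, h, by ring⟩
  refine Submodule.sum_mem _ fun j _ => ?_
  rw [← smul_eq_C_mul]
  exact Submodule.smul_mem _ _ (Submodule.subset_span ⟨j, rfl⟩)

theorem piece_base {m : ℕ} (s : Fin 3) (W : Ideal (Cox m)) (d : Fin 3 → ℕ)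
    (hd : d = Pi.single s 1) :
    piece m d ≤ Submodule.span ℂ (Set.range fun j : Fin m => X (s, j)) ⊔ W.restrictScalars ℂ := by
  subst hd
  rw [piece_single]
  exact le_sup_left

section

variable {J J' : Ideal (Cox 6)}

theorem dsucc (a b c : ℕ) : (![a + 1, b, c] : Fin 3 → ℕ) = ![a, b, c] + Pi.single 0 1 := by
  ext i; fin_cases i <;> simp

theorem dsucc2 (a b c : ℕ) : (![a, b, c + 1] : Fin 3 → ℕ) = ![a, b, c] + Pi.single 2 1 := by
  ext i; fin_cases i <;> simp

theorem dsucc1 (a b c : ℕ) : (![a, b + 1, c] : Fin 3 → ℕ) = ![a, b, c] + Pi.single 1 1 := by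
  ext i; fin_cases i <;> simp

/-- the six spanning elements of degree `(a,1,0)` -/
noncomputable def E10 (a : ℕ) (j : Fin 6) : Cox 6 := X (0, 0) ^ a * X (1, j)
noncomputable def E01 (a : ℕ) (j : Fin 6) : Cox 6 := X (0, 0) ^ a * X (2, j)
noncomputable def E11 (a : ℕ) (j : Fin 6) : Cox 6 :=
  X (0, 0) ^ a * (X (1, (g011 j).1) * X (2, (g011 j).2))

theorem span10 (h : Good J) (h' : Good J') (a : ℕ) :
    piece 6 ![a, 1, 0] ≤
      Submodule.span ℂ (Set.range (E10 a)) ⊔ (J ⊓ J').restrictScalars ℂ := by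
  induction a with
  | zero =>
    have hE : E10 0 = fun j => X (1, j) := by funext j; simp [E10]
    rw [hE]
    exact piece_base (m := 6) 1 (J ⊓ J') ![0, 1, 0] (by ext i; fin_cases i <;> simp)
  | succ a ih =>
    rw [dsucc]
    refine span_step ih fun j i => ?_
    refine mem_sup_of_cong (fun c => (Tz i j c : ℂ)) ?_
    have e : E10 a j * X (0, i) - ∑ c, C (Tz i j c : ℂ) * E10 (a + 1) c =
        X (0, 0) ^ a * (X (0, i) * X (1, j) - ∑ c, C (Tz i j c : ℂ) * (X (0, 0) * X (1, c))) := by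
      rw [mul_sub, Finset.mul_sum]
      congr 1
      · simp only [E10]; ring
      · refine Finset.sum_congr rfl fun c _ => ?_
        simp only [E10]; ring
    rw [e]
    exact Ideal.mul_mem_left _ _ ⟨h.rel110 i j, h'.rel110 i j⟩

theorem span01 (h : Good J) (h' : Good J') (a : ℕ) :
    piece 6 ![a, 0, 1] ≤
      Submodule.span ℂ (Set.range (E01 a)) ⊔ (J ⊓ J').restrictScalars ℂ := by
  induction a with
  | zero =>
    have hE : E01 0 = fun j => X (2, j) := by funext j; simp [E01]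
    rw [hE]
    exact piece_base (m := 6) 2 (J ⊓ J') ![0, 0, 1] (by ext i; fin_cases i <;> simp)
  | succ a ih =>
    rw [dsucc]
    refine span_step ih fun j i => ?_
    refine mem_sup_of_cong (fun b => (Tz i b j : ℂ)) ?_
    have e : E01 a j * X (0, i) - ∑ b, C (Tz i b j : ℂ) * E01 (a + 1) b =
        X (0, 0) ^ a * (X (0, i) * X (2, j) - ∑ b, C (Tz i b j : ℂ) * (X (0, 0) * X (2, b))) := by
      rw [mul_sub, Finset.mul_sum]
      congr 1
      · simp only [E01]; ring
      · refine Finset.sum_congr rfl fun c _ => ?_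
        simp only [E01]; ring
    rw [e]
    exact Ideal.mul_mem_left _ _ ⟨h.rel101 i j, h'.rel101 i j⟩

theorem rel011' (h : Good J) (b c : Fin 6) :
    (X (1, b) * X (2, c) - ∑ a, C (Tz a b c : ℂ) * E11 0 a : Cox 6) ∈ J := by
  refine h.mem011 ?_ fun k => ?_
  · refine Submodule.sub_mem _ (mul_mem_piece (X_mem_piece _ _) (X_mem_piece _ _)) ?_
    refine Submodule.sum_mem _ fun c _ => ?_
    rw [← smul_eq_C_mul, E11, pow_zero, one_mul]
    exact Submodule.smul_mem _ _ (mul_mem_piece (X_mem_piece _ _) (X_mem_piece _ _))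
  · rw [sub_mul, Finset.sum_mul, map_sub, map_sum]
    have e : (X (1, b) * X (2, c) * X (0, k) : Cox 6) = X (0, k) * X (1, b) * X (2, c) := by ring
    rw [e, pairF_XXX]
    have : ∀ a, pair F₀ (C (Tz a b c : ℂ) * E11 0 a * X (0, k)) =
        (Tz a b c : ℂ) * (Tz k (g011 a).1 (g011 a).2 : ℂ) := by
      intro a
      have e : (C (Tz a b c : ℂ) * E11 0 a * X (0, k) : Cox 6) =
        C (Tz a b c : ℂ) * (X (0, k) * X (1, (g011 a).1) * X (2, (g011 a).2)) := by
          rw [E11]; ring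
      rw [e, ← smul_eq_C_mul, map_smul, pairF_XXX, smul_eq_mul]
    simp only [this]
    have h2 : ∀ b c k : Fin 6,
      Tz k b c - ∑ a, Tz a b c * Tz k (g011 a).1 (g011 a).2 = 0 := by decide
    have h3 := h2 b c k
    exact_mod_cast h3

theorem span11 (h : Good J) (h' : Good J') (a : ℕ) :
    piece 6 ![a, 1, 1] ≤
      Submodule.span ℂ (Set.range (E11 a)) ⊔ (J ⊓ J').restrictScalars ℂ := by
  induction a with
  | zero =>
    have h0 := dsucc2 0 1 0
    simp only [zero_add] at h0
    rw [h0]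
    refine span_step (span10 h h' 0) fun j i => ?_
    refine mem_sup_of_cong (fun a => (Tz a j i : ℂ)) ?_
    have e : E10 0 j * X (2, i) = X (1, j) * X (2, i) := by rw [E10]; ring
    rw [e]
    exact ⟨rel011' h j i, rel011' h' j i⟩
  | succ a ih =>
    rw [dsucc]
    refine span_step ih fun j i => ?_
    refine mem_sup_of_cong
      (fun a' => ∑ b, (Tz i (g011 j).1 b : ℂ) * (Tz a' b (g011 j).2 : ℂ)) ?_
    set b₀ := (g011 j).1
    set c₀ := (g011 j).2
    have e : E11 a j * X (0, i) -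
        ∑ a', C (∑ b, (Tz i b₀ b : ℂ) * (Tz a' b c₀ : ℂ)) * E11 (a + 1) a' =
        X (0, 0) ^ a * X (2, c₀) *
          (X (0, i) * X (1, b₀) - ∑ b, C (Tz i b₀ b : ℂ) * (X (0, 0) * X (1, b))) +
        X (0, 0) ^ (a + 1) * ∑ b, C (Tz i b₀ b : ℂ) *
          (X (1, b) * X (2, c₀) - ∑ a', C (Tz a' b c₀ : ℂ) * E11 0 a') := by
      have e1 : ∑ a', C (∑ b, (Tz i b₀ b : ℂ) * (Tz a' b c₀ : ℂ)) * E11 (a + 1) a' =
          X (0, 0) ^ (a + 1) * ∑ b, C (Tz i b₀ b : ℂ) * ∑ a', C (Tz a' b c₀ : ℂ) * E11 0 a' := by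
        rw [Finset.mul_sum]
        simp only [map_sum, Finset.sum_mul, Finset.mul_sum]
        rw [Finset.sum_comm]
        refine Finset.sum_congr rfl fun b _ => Finset.sum_congr rfl fun a' _ => ?_
        simp only [E11, C_mul]; ring
      rw [e1]
      have e2 : ∑ b, C (Tz i b₀ b : ℂ) *
          (X (1, b) * X (2, c₀) - ∑ a', C (Tz a' b c₀ : ℂ) * E11 0 a') =
          (∑ b, C (Tz i b₀ b : ℂ) * X (1, b)) * X (2, c₀) -
          ∑ b, C (Tz i b₀ b : ℂ) * ∑ a', C (Tz a' b c₀ : ℂ) * E11 0 a' := by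
        rw [Finset.sum_mul, ← Finset.sum_sub_distrib]
        refine Finset.sum_congr rfl fun b _ => ?_
        ring
      rw [e2]
      have e3' : ∑ b, C (Tz i b₀ b : ℂ) * (X (0, 0) * X (1, b)) =
          X (0, 0) * (∑ b, C (Tz i b₀ b : ℂ) * X (1, b) : Cox 6) := by
        rw [Finset.mul_sum]
        refine Finset.sum_congr rfl fun b _ => ?_
        ring
      rw [e3', E11]
      ring
    rw [e]
    refine Ideal.add_mem _ (Ideal.mul_mem_left _ _ ⟨h.rel110 i b₀, h'.rel110 i b₀⟩)
      (Ideal.mul_mem_left _ _ (Ideal.sum_mem _ fun b _ => Ideal.mul_mem_left _ _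
        ⟨rel011' h b c₀, rel011' h' b c₀⟩))

theorem E10_mem (a : ℕ) (j : Fin 6) : E10 a j ∈ piece 6 ![a, 1, 0] := by
  have h1 := mul_mem_piece (pow_mem_piece (X_mem_piece (m := 6) 0 0) a) (X_mem_piece (m := 6) 1 j)
  have h2 : a • (Pi.single 0 1 : Fin 3 → ℕ) + Pi.single 1 1 = ![a, 1, 0] := by
    ext i; fin_cases i <;> simp
  rw [h2] at h1
  exact h1

theorem E01_mem (a : ℕ) (j : Fin 6) : E01 a j ∈ piece 6 ![a, 0, 1] := by
  have h1 := mul_mem_piece (pow_mem_piece (X_mem_piece (m := 6) 0 0) a) (X_mem_piece (m := 6) 2 j)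
  have h2 : a • (Pi.single 0 1 : Fin 3 → ℕ) + Pi.single 2 1 = ![a, 0, 1] := by
    ext i; fin_cases i <;> simp
  rw [h2] at h1
  exact h1

theorem E11_mem (a : ℕ) (j : Fin 6) : E11 a j ∈ piece 6 ![a, 1, 1] := by
  have h1 := mul_mem_piece (pow_mem_piece (X_mem_piece (m := 6) 0 0) a)
    (mul_mem_piece (X_mem_piece (m := 6) 1 (g011 j).1) (X_mem_piece (m := 6) 2 (g011 j).2))
  have h2 : a • (Pi.single 0 1 : Fin 3 → ℕ) + (Pi.single 1 1 + Pi.single 2 1) = ![a, 1, 1] := by
    ext i; fin_cases i <;> simp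
  rw [h2] at h1
  exact h1

theorem ne0_10 (a : ℕ) : (![a, 1, 0] : Fin 3 → ℕ) ≠ 0 := by
  intro h; have := congrFun h 1; simp at this
theorem ne0_01 (a : ℕ) : (![a, 0, 1] : Fin 3 → ℕ) ≠ 0 := by
  intro h; have := congrFun h 2; simp at this
theorem ne0_11 (a : ℕ) : (![a, 1, 1] : Fin 3 → ℕ) ≠ 0 := by
  intro h; have := congrFun h 1; simp at this

theorem eq10 (h : Good J) (h' : Good J') (a : ℕ) : part J ![a, 1, 0] = part J' ![a, 1, 0] :=
  part_eq_of_span (h.hilb6 _ (ne0_10 a)) (h'.hilb6 _ (ne0_10 a)) _ (span10 h h' a) (E10_mem a)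

theorem eq01 (h : Good J) (h' : Good J') (a : ℕ) : part J ![a, 0, 1] = part J' ![a, 0, 1] :=
  part_eq_of_span (h.hilb6 _ (ne0_01 a)) (h'.hilb6 _ (ne0_01 a)) _ (span01 h h' a) (E01_mem a)

theorem eq11 (h : Good J) (h' : Good J') (a : ℕ) : part J ![a, 1, 1] = part J' ![a, 1, 1] :=
  part_eq_of_span (h.hilb6 _ (ne0_11 a)) (h'.hilb6 _ (ne0_11 a)) _ (span11 h h' a) (E11_mem a)

/-- Coefficients are unique modulo `J` when six elements span modulo `J`. -/
theorem coeffs_zero (d : Fin 3 → ℕ) (hd : hilb J d = 6) (E : Fin 6 → Cox 6)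
    (hE : ∀ j, E j ∈ piece 6 d)
    (h : piece 6 d ≤ Submodule.span ℂ (Set.range E) ⊔ J.restrictScalars ℂ) (c : Fin 6 → ℂ)
    (hc : ∑ j, C (c j) * E j ∈ J) : c = 0 := by
  set q := (J.restrictScalars ℂ).mkQ with hq
  have h1 : Submodule.span ℂ (Set.range (q ∘ E)) = (piece 6 d).map q := by
    rw [Set.range_comp, ← Submodule.map_span]
    apply le_antisymm
    · apply Submodule.map_mono
      rw [Submodule.span_le]; rintro _ ⟨j, rfl⟩; exact hE j
    · refine (Submodule.map_mono h).trans ?_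
      rw [Submodule.map_sup]
      refine sup_le le_rfl ?_
      have : (J.restrictScalars ℂ).map q = ⊥ := by rw [hq]; simp
      rw [this]; exact bot_le
  have h2 := LinearMap.finrank_range_add_finrank_ker (q.comp (piece 6 d).subtype)
  have h3 : LinearMap.range (q.comp (piece 6 d).subtype) = (piece 6 d).map q := by
    rw [LinearMap.range_comp, Submodule.range_subtype]
  have h4 : LinearMap.ker (q.comp (piece 6 d).subtype) =
      (part J d).comap (piece 6 d).subtype := by
    ext x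
    simp [hq, part]
  rw [h3, h4, LinearEquiv.finrank_eq (Submodule.comapSubtypeEquivOfLe (part_le J d))] at h2
  have h5 := hilb_add_finrank J d
  have h6 : LinearIndependent ℂ (q ∘ E) := by
    rw [linearIndependent_iff_card_eq_finrank_span, Set.finrank, h1]
    simp only [Fintype.card_fin]
    omega
  rw [Fintype.linearIndependent_iff] at h6
  funext j
  refine h6 c ?_ j
  have h7 : q (∑ j, C (c j) * E j) = 0 := by
    rw [hq, Submodule.mkQ_apply, Submodule.Quotient.mk_eq_zero]
    exact hc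
  rw [map_sum] at h7
  rw [← h7]
  refine Finset.sum_congr rfl fun j _ => ?_
  rw [← smul_eq_C_mul, map_smul]; rfl

noncomputable def E00 (a : ℕ) (j : Fin 6) : Cox 6 := X (0, 0) ^ a * X (0, j)

theorem E00_mem (a : ℕ) (j : Fin 6) : E00 a j ∈ piece 6 ![a + 1, 0, 0] := by
  have h1 := mul_mem_piece (pow_mem_piece (X_mem_piece (m := 6) 0 0) a) (X_mem_piece (m := 6) 0 j)
  have h2 : a • (Pi.single 0 1 : Fin 3 → ℕ) + Pi.single 0 1 = ![a + 1, 0, 0] := by
    ext i; fin_cases i <;> simp
  rw [h2] at h1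
  exact h1

theorem ne0_00 (a : ℕ) : (![a + 1, 0, 0] : Fin 3 → ℕ) ≠ 0 := by
  intro h; have := congrFun h 0; simp at this

theorem E00_indep (h : Good J) (a : ℕ) (c : Fin 6 → ℂ)
    (hc : ∀ k, (∑ j, C (c j) * E00 a j) * X (1, k) ∈ J) : c = 0 := by
  have key : ∀ k l, ∑ j, c j * (Tz j k l : ℂ) = 0 := by
    intro k
    have h1 : ∑ l, C (∑ j, c j * (Tz j k l : ℂ)) * E10 (a + 1) l ∈ J := by
      have e : ∑ l, C (∑ j, c j * (Tz j k l : ℂ)) * E10 (a + 1) l =
          (∑ j, C (c j) * E00 a j) * X (1, k) -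
          X (0, 0) ^ a * ∑ j, C (c j) * (X (0, j) * X (1, k) -
            ∑ l, C (Tz j k l : ℂ) * (X (0, 0) * X (1, l))) := by
        simp only [mul_sub, Finset.sum_sub_distrib, Finset.mul_sum, Finset.sum_mul, map_sum]
        rw [Finset.sum_comm]
        have e1 : ∀ j, C (c j) * E00 a j * X (1, k) =
            X (0, 0) ^ a * (C (c j) * (X (0, j) * X (1, k))) := by
          intro j; rw [E00]; ring
        simp only [e1, sub_sub_cancel]
        refine Finset.sum_congr rfl fun j _ => Finset.sum_congr rfl fun l _ => ?_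
        rw [E10, C_mul]; ring
      rw [e]
      refine Ideal.sub_mem _ (hc k) (Ideal.mul_mem_left _ _ (Ideal.sum_mem _ fun j _ =>
        Ideal.mul_mem_left _ _ (h.rel110 j k)))
    have h2 := span10 h h (a + 1)
    rw [inf_idem] at h2
    have h3 := coeffs_zero _ (h.hilb6 _ (ne0_10 (a + 1))) _ (E10_mem (a + 1)) h2 _ h1
    intro l
    exact congrFun h3 l
  funext i
  have h4 := key (g011 i).1 (g011 i).2
  have : ∀ i j : Fin 6, Tz j (g011 i).1 (g011 i).2 = if j = i then 1 else 0 := by decide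
  simp only [this] at h4
  simpa using h4

theorem E00_span (h : Good J) (a : ℕ) :
    piece 6 ![a + 1, 0, 0] ≤ Submodule.span ℂ (Set.range (E00 a)) ⊔ part J ![a + 1, 0, 0] := by
  have hlin : LinearIndependent ℂ (E00 a) := by
    rw [Fintype.linearIndependent_iff]
    intro c hc
    have : c = 0 := by
      refine E00_indep h a c fun k => ?_
      have : ∑ j, C (c j) * E00 a j = 0 := by
        rw [← hc]; exact Finset.sum_congr rfl fun j _ => by rw [smul_eq_C_mul]
      rw [this, zero_mul]; exact J.zero_mem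
    intro i; rw [this]; rfl
  have hE' : Submodule.span ℂ (Set.range (E00 a)) ≤ piece 6 ![a + 1, 0, 0] := by
    rw [Submodule.span_le]; rintro _ ⟨j, rfl⟩; exact E00_mem a j
  have h1 := finrank_span_eq_card hlin
  have hf1 : FiniteDimensional ℂ (part J ![a + 1, 0, 0]) :=
    Submodule.finiteDimensional_of_le (part_le _ _)
  have hf4 : FiniteDimensional ℂ (Submodule.span ℂ (Set.range (E00 a))) :=
    FiniteDimensional.span_of_finite ℂ (Set.finite_range _)
  have h2 := Submodule.finrank_sup_add_finrank_inf_eq (Submodule.span ℂ (Set.range (E00 a)))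
    (part J ![a + 1, 0, 0])
  have h3 : Submodule.span ℂ (Set.range (E00 a)) ⊓ part J ![a + 1, 0, 0] = ⊥ := by
    rw [eq_bot_iff]
    rintro x ⟨hx1, hx2⟩
    rw [SetLike.mem_coe] at hx1 hx2
    rw [Submodule.mem_span_range_iff_exists_fun] at hx1
    obtain ⟨c, rfl⟩ := hx1
    have : c = 0 := by
      refine E00_indep h a c fun k => ?_
      refine J.mul_mem_right _ ?_
      have := (mem_part.1 hx2).1
      simpa only [smul_eq_C_mul] using this
    simp [this]
  rw [h3, finrank_bot, add_zero, h1, Fintype.card_fin] at h2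
  have h4 := hilb_add_finrank J ![a + 1, 0, 0]
  rw [h.hilb6 _ (ne0_00 a)] at h4
  exact (Submodule.eq_of_le_of_finrank_le (sup_le hE' (part_le _ _)) (by omega)).ge

theorem le00 (h : Good J) (h' : Good J') (a : ℕ) :
    part J' ![a + 1, 0, 0] ≤ part J ![a + 1, 0, 0] := by
  intro f hf
  obtain ⟨v, hv, w, hw, rfl⟩ := Submodule.mem_sup.1 (E00_span h a (part_le _ _ hf))
  rw [Submodule.mem_span_range_iff_exists_fun] at hv
  obtain ⟨c, rfl⟩ := hv
  have hc : c = 0 := by
    refine E00_indep h a c fun k => ?_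
    have h1 : (∑ j, c j • E00 a j + w) * X (1, k) ∈ part J' ![a + 1, 1, 0] := by
      rw [mem_part]
      refine ⟨J'.mul_mem_right _ (mem_part.1 hf).1, ?_⟩
      rw [dsucc1]
      exact mul_mem_piece (mem_part.1 hf).2 (X_mem_piece _ _)
    rw [← eq10 h h' (a + 1)] at h1
    have h2 := (mem_part.1 h1).1
    have h3 : w * X (1, k) ∈ J := J.mul_mem_right _ (mem_part.1 hw).1
    have h4 := J.sub_mem h2 h3
    have e : (∑ j, C (c j) * E00 a j) * X (1, k) =
        (∑ j, c j • E00 a j + w) * X (1, k) - w * X (1, k) := by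
      simp only [smul_eq_C_mul]; ring
    rw [e]; exact h4
  rw [hc]
  simpa using hw

theorem eq00 (h : Good J) (h' : Good J') (a : ℕ) :
    part J ![a + 1, 0, 0] = part J' ![a + 1, 0, 0] :=
  le_antisymm (le00 h' h a) (le00 h h' a)

end

end Pool.Agent.Helper87.BVSP
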