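import Pool.Agent.Helper87.BVSPMul

/-! The pairing between `S_{(1,1,1)}` and `T_{(1,1,1)}`, and the contraction action. -/

open MvPolynomial Filter Topology

namespace Pool.Agent.Helper87.BVSP

variable {m : ℕ}

/-- exponent of `α_a β_b γ_c`. -/
noncomputable def e3 (a b c : Fin m) : Fin 3 × Fin m →₀ ℕ :=
  Finsupp.single (0, a) 1 + Finsupp.single (1, b) 1 + Finsupp.single (2, c) 1

theorem sum_one {f : Fin m → ℕ} (h : ∑ i, f i = 1) : ∃ i, ∀ j, f j = if i = j then 1 else 0 := by
  obtain ⟨i, hi⟩ : ∃ i, 1 ≤ f i := by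
    by_contra hcon
    push Not at hcon
    have : ∑ i, f i = 0 := Finset.sum_eq_zero fun i _ => by
      have := hcon i; omega
    omega
  refine ⟨i, fun j => ?_⟩
  have h1 := Finset.add_sum_erase Finset.univ f (Finset.mem_univ i)
  split_ifs with hij
  · subst hij
    omega
  · have : f j ≤ ∑ x ∈ Finset.univ.erase i, f x :=
      Finset.single_le_sum (f := f) (fun _ _ => Nat.zero_le _) (by simp [Ne.symm hij])
    omega

theorem e3_apply (a b c : Fin m) (s : Fin 3) (i : Fin m) :
    e3 a b c (s, i) = if (s = 0 ∧ a = i) ∨ (s = 1 ∧ b = i) ∨ (s = 2 ∧ c = i) then 1 else 0 := by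
  simp only [e3, Finsupp.add_apply, Finsupp.single_apply, Prod.mk.injEq]
  fin_cases s <;> simp

theorem e3_mem_exps (a b c : Fin m) : e3 a b c ∈ exps m d111 := by
  rw [mem_exps]
  intro s
  simp only [e3_apply, d111]
  fin_cases s <;> simp

theorem e3_inj {a b c a' b' c' : Fin m} (h : e3 a b c = e3 a' b' c') :
    a = a' ∧ b = b' ∧ c = c' := by
  have h0 := DFunLike.congr_fun h (0, a)
  have h1 := DFunLike.congr_fun h (1, b)
  have h2 := DFunLike.congr_fun h (2, c)
  simp only [e3_apply] at h0 h1 h2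
  simp at h0 h1 h2
  exact ⟨h0.symm, h1.symm, h2.symm⟩

theorem exists_e3 {u : Fin 3 × Fin m →₀ ℕ} (hu : u ∈ exps m d111) : ∃ a b c, u = e3 a b c := by
  rw [mem_exps] at hu
  obtain ⟨a, ha⟩ := sum_one (hu 0)
  obtain ⟨b, hb⟩ := sum_one (hu 1)
  obtain ⟨c, hc⟩ := sum_one (hu 2)
  refine ⟨a, b, c, ?_⟩
  ext ⟨s, i⟩
  rw [e3_apply]
  fin_cases s
  · simp [ha i]
  · simp [hb i]
  · simp [hc i]

theorem sum_exps111 {M : Type*} [AddCommMonoid M] (g : (Fin 3 × Fin m →₀ ℕ) → M) :
    ∑ u ∈ exps m d111, g u = ∑ a, ∑ b, ∑ c, g (e3 a b c) := by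
  have h : ∑ a, ∑ b, ∑ c, g (e3 a b c) =
      ∑ p : Fin m × Fin m × Fin m, g (e3 p.1 p.2.1 p.2.2) := by
    rw [Fintype.sum_prod_type]
    refine Finset.sum_congr rfl fun a _ => ?_
    rw [Fintype.sum_prod_type]
  rw [h]
  symm
  refine Finset.sum_bij (fun p _ => e3 p.1 p.2.1 p.2.2) (fun p _ => e3_mem_exps _ _ _) ?_ ?_ ?_
  · rintro ⟨a, b, c⟩ _ ⟨a', b', c'⟩ _ hh
    obtain ⟨rfl, rfl, rfl⟩ := e3_inj hh
    rfl
  · intro u hu
    obtain ⟨a, b, c, rfl⟩ := exists_e3 hu
    exact ⟨(a, b, c), Finset.mem_univ _, rfl⟩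
  · intro _ _; rfl

/-- The pairing `⟨F, h⟩ = ∑_w F_w h_w` over exponents of degree `(1,1,1)`, linear in `h`. -/
noncomputable def pair (F : Cox m) : Cox m →ₗ[ℂ] ℂ :=
  ∑ w ∈ exps m d111, (coeff w F) • (MvPolynomial.lcoeff ℂ w)

theorem pair_apply (F h : Cox m) : pair F h = ∑ w ∈ exps m d111, coeff w F * coeff w h := by
  simp [pair, LinearMap.sum_apply]

theorem le_one_of_mem {w : Fin 3 × Fin m →₀ ℕ} (hw : w ∈ exps m d111)
    (v : Fin 3 × Fin m) : w v ≤ 1 := by
  obtain ⟨a, b, c, rfl⟩ := exists_e3 hw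
  obtain ⟨s, i⟩ := v
  rw [e3_apply]
  split_ifs <;> simp

theorem prod_descFactorial {w u : Fin 3 × Fin m →₀ ℕ} (hw : w ∈ exps m d111) :
    (∏ v, ((w v).descFactorial (u v) : ℂ)) = if u ≤ w then 1 else 0 := by
  split_ifs with h
  · refine Finset.prod_eq_one fun v _ => ?_
    have h1 := le_one_of_mem hw v
    have h2 := Finsupp.le_def.1 h v
    have : w v = 0 ∨ w v = 1 := by omega
    rcases this with h3 | h3
    · have h4 : u v = 0 := by omega
      rw [h3, h4]; simp
    · have : u v = 0 ∨ u v = 1 := by omega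
      rcases this with h4 | h4 <;> rw [h3, h4] <;> simp
  · rw [Finsupp.le_def] at h
    push Not at h
    obtain ⟨v, hv⟩ := h
    refine Finset.prod_eq_zero (Finset.mem_univ v) ?_
    rw [Nat.descFactorial_of_lt hv]; simp

theorem coeff_act {F : Cox m} (hF : F ∈ piece m d111) (g : Cox m) (w : Fin 3 × Fin m →₀ ℕ) :
    coeff w (act g F) = pair F (monomial w 1 * g) := by
  rw [pair_apply, act]
  have h1 : ∀ u ∈ g.support, ∑ w' ∈ F.support,
      monomial (w' - u) (coeff u g * coeff w' F * ∏ v, ((w' v).descFactorial (u v) : ℂ)) =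
      ∑ w' ∈ exps m d111,
      monomial (w' - u) (coeff u g * coeff w' F * if u ≤ w' then 1 else 0) := by
    intro u _
    rw [Finset.sum_subset (support_subset_exps hF)]
    · refine Finset.sum_congr rfl fun w' hw' => ?_
      rw [prod_descFactorial hw']
    · intro w' _ hw'
      rw [MvPolynomial.notMem_support_iff] at hw'
      rw [hw']; simp
  rw [Finset.sum_congr rfl h1, Finset.sum_comm, MvPolynomial.coeff_sum]
  refine Finset.sum_congr rfl fun w' _ => ?_
  rw [MvPolynomial.coeff_sum, coeff_monomial_mul']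
  have h2 : ∀ u ∈ g.support,
      coeff w (monomial (w' - u) (coeff u g * coeff w' F * if u ≤ w' then 1 else 0)) =
      if u + w = w' then coeff u g * coeff w' F else 0 := by
    intro u _
    rw [coeff_monomial]
    by_cases h : u + w = w'
    · subst h
      simp
    · rw [if_neg h]
      split_ifs with h3 h4
      · exfalso
        apply h
        rw [← h3, add_tsub_cancel_of_le h4]
      · ring
      · rfl
  rw [Finset.sum_congr rfl h2]
  split_ifs with hle
  · obtain ⟨u, rfl⟩ := exists_add_of_le hle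
    rw [add_tsub_cancel_left, one_mul]
    rw [Finset.sum_eq_single u]
    · rw [if_pos (add_comm _ _), mul_comm]
    · intro b _ hb
      rw [if_neg]
      intro hh
      rw [add_comm] at hh
      exact hb (add_left_cancel hh)
    · intro hu
      rw [MvPolynomial.notMem_support_iff] at hu
      rw [hu]; simp
  · rw [mul_zero]
    refine Finset.sum_eq_zero fun u _ => ?_
    rw [if_neg]
    rintro rfl
    exact hle (by rw [add_comm]; exact le_self_add)

theorem act_eq_zero_iff {F : Cox m} (hF : F ∈ piece m d111) (g : Cox m) :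
    act g F = 0 ↔ ∀ w, pair F (monomial w 1 * g) = 0 := by
  constructor
  · intro h w
    rw [← coeff_act hF, h, coeff_zero]
  · intro h
    ext w
    rw [coeff_act hF, h w, coeff_zero]

theorem subset_Ann_iff {F : Cox m} (hF : F ∈ piece m d111) (J : Ideal (Cox m)) :
    (J : Set (Cox m)) ⊆ Ann F ↔ ∀ f ∈ J, pair F f = 0 := by
  constructor
  · intro h f hf
    have h1 : act f F = 0 := h hf
    have h2 := (act_eq_zero_iff hF f).1 h1 0
    simpa using h2
  · intro h f hf
    change act f F = 0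
    rw [act_eq_zero_iff hF]
    intro w
    exact h _ (J.mul_mem_left _ hf)

theorem pair_eq_zero_of_act {F : Cox m} (hF : F ∈ piece m d111) {g : Cox m} (h : act g F = 0)
    (s : Cox m) : pair F (s * g) = 0 := by
  have h1 := (act_eq_zero_iff hF g).1 h
  rw [s.as_sum, Finset.sum_mul, map_sum]
  refine Finset.sum_eq_zero fun u _ => ?_
  have : (monomial u (coeff u s) : Cox m) * g = coeff u s • (monomial u 1 * g) := by
    rw [← smul_mul_assoc, smul_monomial, smul_eq_mul, mul_one]
  rw [this, map_smul, h1 u, smul_zero]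

/-- The tensor with coordinates `T a b c`, as a polynomial. -/
noncomputable def ofTensor (T : Fin m → Fin m → Fin m → ℂ) : Cox m :=
  ∑ a, ∑ b, ∑ c, monomial (e3 a b c) (T a b c)

theorem ofTensor_mem (T : Fin m → Fin m → Fin m → ℂ) : ofTensor T ∈ piece m d111 := by
  refine Submodule.sum_mem _ fun a _ => Submodule.sum_mem _ fun b _ =>
    Submodule.sum_mem _ fun c _ => ?_
  exact monomial_mem_piece _ (mem_exps.1 (e3_mem_exps a b c))

theorem coeff_ofTensor (T : Fin m → Fin m → Fin m → ℂ) (a b c : Fin m) :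
    coeff (e3 a b c) (ofTensor T) = T a b c := by
  simp only [ofTensor, coeff_sum, coeff_monomial]
  rw [Finset.sum_eq_single a, Finset.sum_eq_single b, Finset.sum_eq_single c, if_pos rfl]
  · intro x _ hx; rw [if_neg]; intro h; exact hx (e3_inj h).2.2
  · simp
  · intro x _ hx
    refine Finset.sum_eq_zero fun y _ => ?_
    rw [if_neg]; intro h; exact hx (e3_inj h).2.1
  · simp
  · intro x _ hx
    refine Finset.sum_eq_zero fun y _ => Finset.sum_eq_zero fun z _ => ?_
    rw [if_neg]; intro h; exact hx (e3_inj h).1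
  · simp

theorem XXX_eq (a b c : Fin m) :
    (X (0, a) * X (1, b) * X (2, c) : Cox m) = monomial (e3 a b c) 1 := by
  simp [X, monomial_mul, e3]

theorem pair_XXX (F : Cox m) (a b c : Fin m) :
    pair F (X (0, a) * X (1, b) * X (2, c)) = coeff (e3 a b c) F := by
  rw [XXX_eq, pair_apply, Finset.sum_eq_single (e3 a b c)]
  · simp
  · intro u _ hu
    rw [coeff_monomial, if_neg hu.symm, mul_zero]
  · intro h; exact absurd (e3_mem_exps a b c) h

theorem pair_apply' (F h : Cox m) :
    pair F h = ∑ a, ∑ b, ∑ c, coeff (e3 a b c) F * coeff (e3 a b c) h := by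
  rw [pair_apply, sum_exps111]

theorem ext111 {F G : Cox m} (hF : F ∈ piece m d111) (hG : G ∈ piece m d111)
    (h : ∀ a b c, coeff (e3 a b c) F = coeff (e3 a b c) G) : F = G := by
  ext u
  by_cases hu : u ∈ exps m d111
  · obtain ⟨a, b, c, rfl⟩ := exists_e3 hu
    exact h a b c
  · rw [MvPolynomial.notMem_support_iff.1 fun h' => hu (support_subset_exps hF h'),
      MvPolynomial.notMem_support_iff.1 fun h' => hu (support_subset_exps hG h')]

theorem simple_eq (z : Fin 3 → Fin m → ℂ) :
    simple z = ofTensor fun a b c => z 0 a * z 1 b * z 2 c := by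
  rw [simple, ofTensor, Fin.prod_univ_three]
  rw [Finset.sum_mul_sum, Finset.sum_mul]
  refine Finset.sum_congr rfl fun a _ => ?_
  rw [Finset.sum_mul]
  refine Finset.sum_congr rfl fun b _ => ?_
  rw [Finset.mul_sum]
  refine Finset.sum_congr rfl fun c _ => ?_
  have : C (z 0 a) * X (0, a) * (C (z 1 b) * X (1, b)) * (C (z 2 c) * X (2, c)) =
      C (z 0 a * z 1 b * z 2 c) * (X (0, a) * X (1, b) * X (2, c) : Cox m) := by
    simp only [C_mul]; ring
  rw [this, XXX_eq, C_mul_monomial, mul_one]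

theorem ev_monomial_e3 (z : Fin 3 → Fin m → ℂ) (a b c : Fin m) (t : ℂ) :
    ev z (monomial (e3 a b c) t) = t * (z 0 a * z 1 b * z 2 c) := by
  have : (monomial (e3 a b c) t : Cox m) = C t * (X (0, a) * X (1, b) * X (2, c)) := by
    rw [XXX_eq, C_mul_monomial, mul_one]
  rw [this, map_mul, map_mul, map_mul, ev_X, ev_X, ev_X]
  simp [ev]

theorem as_ofTensor {h : Cox m} (hh : h ∈ piece m d111) :
    h = ofTensor fun a b c => coeff (e3 a b c) h :=
  ext111 hh (ofTensor_mem _) fun a b c => by rw [coeff_ofTensor]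

theorem pair_simple (z : Fin 3 → Fin m → ℂ) {h : Cox m} (hh : h ∈ piece m d111) :
    pair (simple z) h = ev z h := by
  rw [pair_apply', simple_eq]
  conv_rhs => rw [as_ofTensor hh, ofTensor]
  rw [map_sum]
  refine Finset.sum_congr rfl fun a _ => ?_
  rw [map_sum]
  refine Finset.sum_congr rfl fun b _ => ?_
  rw [map_sum]
  refine Finset.sum_congr rfl fun c _ => ?_
  rw [coeff_ofTensor, ev_monomial_e3]
  ring

theorem simple_mem (z : Fin 3 → Fin m → ℂ) : simple z ∈ piece m d111 := by
  rw [simple_eq]; exact ofTensor_mem _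

end Pool.Agent.Helper87.BVSP
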