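import Pool.Agent.Helper87.BVSPExample

/-! The six rank-one points, the algebraic equations defining them, and dual forms. -/

open MvPolynomial Filter Topology

namespace Pool.Agent.Helper87.BVSP

def qz : Fin 6 → Fin 6 → ℤ :=
  ![![0, 0, 0, 0, 1, -1], ![0, 0, 0, -1, 0, 1], ![0, 0, 0, 1, -1, 0],
    ![0, 0, 0, 1, 0, 0], ![0, 0, 0, 0, 1, 0], ![0, 0, 0, 0, 0, 1]]

def pz : Fin 6 → Fin 6 → ℤ :=
  ![![1, 0, 0, 0, 0, 0], ![0, 1, 0, 0, 0, 0], ![0, 0, 1, 0, 0, 0],
    ![0, 1, -1, 0, 0, 0], ![-1, 0, 1, 0, 0, 0], ![1, -1, 0, 0, 0, 0]]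

def az : Fin 6 → ℤ := ![1, 0, 0, 0, 0, 0]

/-- integer coordinates of the six limit points -/
def ptz (j : Fin 6) : Fin 3 → Fin 6 → ℤ := ![az, qz j, pz j]

/-- the six limit points of `X` -/
noncomputable def pt (j : Fin 6) (s : Fin 3) (i : Fin 6) : ℂ := (ptz j s i : ℂ)

/-- index of a coordinate of `q_j` equal to one -/
def cb : Fin 6 → Fin 6 := ![4, 5, 3, 3, 4, 5]
/-- index of a coordinate of `p_j` equal to one -/
def cc : Fin 6 → Fin 6 := ![0, 1, 2, 1, 2, 0]

theorem pt_cb (j : Fin 6) : pt j 1 (cb j) = 1 := by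
  have : ∀ j, ptz j 1 (cb j) = 1 := by decide
  rw [pt, this]; simp

theorem pt_cc (j : Fin 6) : pt j 2 (cc j) = 1 := by
  have : ∀ j, ptz j 2 (cc j) = 1 := by decide
  rw [pt, this]; simp

/-- Conditions satisfied by an array orthogonal to everything orthogonal to the slices. -/
structure Slicey (w : Fin 6 → Fin 6 → ℂ) : Prop where
  zero : ∀ x y, (∀ a, Tz a x y = 0) → w x y = 0
  diag : ∀ x, w x x = w 0 0
  sum : w 4 0 + w 5 1 + w 3 2 + w 5 0 + w 3 1 + w 4 2 = 0

theorem slicey_of (w : Fin 6 → Fin 6 → ℂ)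
    (H : ∀ M : Fin 6 → Fin 6 → ℤ, (∀ a, ∑ b, ∑ c, M b c * Tz a b c = 0) →
      ∑ b, ∑ c, (M b c : ℂ) * w b c = 0) : Slicey w := by
  refine ⟨fun x y hxy => ?_, fun x => ?_, ?_⟩
  · have h := H (fun b c => if b = x ∧ c = y then 1 else 0) ?_
    · rw [Finset.sum_eq_single x, Finset.sum_eq_single y] at h
      · simpa using h
      · intro c _ hc; simp [hc]
      · simp
      · intro b _ hb; simp [hb]
      · simp
    · intro a
      rw [Finset.sum_eq_single x, Finset.sum_eq_single y]
      · simp [hxy a]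
      · intro c _ hc; simp [hc]
      · simp
      · intro b _ hb; simp [hb]
      · simp
  · by_cases hx : x = 0
    · rw [hx]
    have h := H (fun b c => if b = x ∧ c = x then 1 else if b = 0 ∧ c = 0 then -1 else 0) ?_
    · have e : ∀ b c : Fin 6, (((if b = x ∧ c = x then 1 else if b = 0 ∧ c = 0 then -1 else 0 : ℤ) : ℂ)
          * w b c) = (if b = x then (if c = x then w x x else 0) else 0) +
            (if b = 0 then (if c = 0 then - w 0 0 else 0) else 0) := by
        intro b c
        by_cases h1 : b = x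
        · subst h1
          by_cases h2 : c = b
          · subst h2; simp [hx]
          · simp [h2, hx]
        · by_cases h2 : b = 0
          · subst h2
            by_cases h3 : c = 0
            · subst h3; simp [h1]
            · simp [h1, h3]
          · simp [h1, h2]
      simp only [e, Finset.sum_add_distrib] at h
      simp at h
      linear_combination h
    · revert x; decide
  · have h := H (fun b c => if (b, c) = (4, 0) ∨ (b, c) = (5, 1) ∨ (b, c) = (3, 2) ∨
      (b, c) = (5, 0) ∨ (b, c) = (3, 1) ∨ (b, c) = (4, 2) then 1 else 0) (by decide)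
    simp [Fin.sum_univ_six] at h
    linear_combination h

theorem aux1 : ∀ x y : Fin 6, x.val < 3 → y ≠ x → ∀ a, Tz a x y = 0 := by decide
theorem aux2 : ∀ x : Fin 6, x.val < 3 → x = 0 ∨ x = 1 ∨ x = 2 := by decide
theorem aux3 : ∀ x y : Fin 6, x ≠ y → ¬ x.val < 3 → 3 ≤ y.val → ∀ a, Tz a x y = 0 := by decide

/-- the only rank one arrays of the special form -/
theorem solve_rank_one {b c : Fin 6 → ℂ} (hb : b ≠ 0) (hc : c ≠ 0)
    (h : Slicey fun x y => b x * c y) :
    ∃ j : Fin 6, ∃ s t : ℂ, s ≠ 0 ∧ t ≠ 0 ∧ (∀ i, b i = s * pt j 1 i) ∧ ∀ i, c i = t * pt j 2 i := by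
  have hz := h.zero
  have hd := h.diag
  have hs := h.sum
  -- b vanishes in the first three coordinates
  have hc' : ∀ x, x.val < 3 → b x ≠ 0 → c = 0 := by
    intro x hx hbx
    have h1 : ∀ y, y ≠ x → c y = 0 := by
      intro y hy
      have h2 : b x * c y = 0 := hz x y (aux1 x y hx hy)
      exact (mul_eq_zero.1 h2).resolve_left hbx
    have h3 : b x * c x = 0 := by
      rw [hd x, ← hd 3]
      have : c 3 = 0 := h1 3 (by rintro rfl; simp at hx)
      rw [this, mul_zero]
    funext y
    by_cases hy : y = x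
    · subst hy; exact (mul_eq_zero.1 h3).resolve_left hbx
    · exact h1 y hy
  have hb0 : b 0 = 0 := by by_contra hne; exact hc (hc' 0 (by decide) hne)
  have hb1 : b 1 = 0 := by by_contra hne; exact hc (hc' 1 (by decide) hne)
  have hb2 : b 2 = 0 := by by_contra hne; exact hc (hc' 2 (by decide) hne)
  have hb' : ∀ y, 3 ≤ y.val → c y ≠ 0 → b = 0 := by
    intro y hy hcy
    have h3 : b y * c y = 0 := by rw [hd y, hb0, zero_mul]
    funext x
    by_cases hx : x = y
    · subst hx; exact (mul_eq_zero.1 h3).resolve_right hcy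
    · by_cases hx3 : x.val < 3
      · have := aux2 x hx3
        rcases this with rfl | rfl | rfl
        · exact hb0
        · exact hb1
        · exact hb2
      · have h2 : b x * c y = 0 := hz x y (aux3 x y hx hx3 hy)
        exact (mul_eq_zero.1 h2).resolve_right hcy
  have hc3 : c 3 = 0 := by by_contra hne; exact hb (hb' 3 (by decide) hne)
  have hc4 : c 4 = 0 := by by_contra hne; exact hb (hb' 4 (by decide) hne)
  have hc5 : c 5 = 0 := by by_contra hne; exact hb (hb' 5 (by decide) hne)
  have e30 : b 3 * c 0 = 0 := hz 3 0 (by decide)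
  have e41 : b 4 * c 1 = 0 := hz 4 1 (by decide)
  have e52 : b 5 * c 2 = 0 := hz 5 2 (by decide)
  have hbne : b 3 ≠ 0 ∨ b 4 ≠ 0 ∨ b 5 ≠ 0 := by
    by_contra hcon
    push Not at hcon
    apply hb
    funext i
    fin_cases i
    · exact hb0
    · exact hb1
    · exact hb2
    · exact hcon.1
    · exact hcon.2.1
    · exact hcon.2.2
  have hcne : c 0 ≠ 0 ∨ c 1 ≠ 0 ∨ c 2 ≠ 0 := by
    by_contra hcon
    push Not at hcon
    apply hc
    funext i
    fin_cases i
    · exact hcon.1
    · exact hcon.2.1
    · exact hcon.2.2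
    · exact hc3
    · exact hc4
    · exact hc5
  by_cases c0 : c 0 = 0
  · by_cases c1 : c 1 = 0
    · -- only c 2 ≠ 0
      have c2 : c 2 ≠ 0 := by rcases hcne with h | h | h; exacts [absurd c0 h, absurd c1 h, h]
      have b5 : b 5 = 0 := (mul_eq_zero.1 e52).resolve_right c2
      have hsum : (b 3 + b 4) * c 2 = 0 := by
        rw [c0, c1] at hs; linear_combination hs
      have hsum' := (mul_eq_zero.1 hsum).resolve_right c2
      have b3 : b 3 ≠ 0 := by
        intro h3
        rcases hbne with h | h | h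
        · exact h h3
        · rw [h3, zero_add] at hsum'; exact h hsum'
        · exact h b5
      refine ⟨2, b 3, c 2, b3, c2, ?_, ?_⟩
      · intro i; fin_cases i <;> simp [pt, ptz, qz, hb0, hb1, hb2, b5]
        linear_combination hsum'
      · intro i; fin_cases i <;> simp [pt, ptz, pz, c0, c1, hc3, hc4, hc5]
    · have b4 : b 4 = 0 := (mul_eq_zero.1 e41).resolve_right c1
      by_cases c2 : c 2 = 0
      · -- only c 1 ≠ 0
        have hsum : (b 3 + b 5) * c 1 = 0 := by
          rw [c0, c2] at hs; linear_combination hs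
        have hsum' := (mul_eq_zero.1 hsum).resolve_right c1
        have b5 : b 5 ≠ 0 := by
          intro h5
          rcases hbne with h | h | h
          · rw [h5, add_zero] at hsum'; exact h hsum'
          · exact h b4
          · exact h h5
        refine ⟨1, b 5, c 1, b5, c1, ?_, ?_⟩
        · intro i; fin_cases i <;> simp [pt, ptz, qz, hb0, hb1, hb2, b4]
          linear_combination hsum'
        · intro i; fin_cases i <;> simp [pt, ptz, pz, c0, c2, hc3, hc4, hc5]
      · -- c 1, c 2 ≠ 0
        have b5 : b 5 = 0 := (mul_eq_zero.1 e52).resolve_right c2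
        have b3 : b 3 ≠ 0 := by rcases hbne with h | h | h; exacts [h, absurd b4 h, absurd b5 h]
        have hsum : b 3 * (c 1 + c 2) = 0 := by
          rw [b4, b5] at hs; linear_combination hs
        have hsum' := (mul_eq_zero.1 hsum).resolve_left b3
        refine ⟨3, b 3, c 1, b3, c1, ?_, ?_⟩
        · intro i; fin_cases i <;> simp [pt, ptz, qz, hb0, hb1, hb2, b4, b5]
        · intro i; fin_cases i <;> simp [pt, ptz, pz, c0, hc3, hc4, hc5]
          linear_combination hsum'
  · have b3 : b 3 = 0 := (mul_eq_zero.1 e30).resolve_right c0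
    by_cases c1 : c 1 = 0
    · by_cases c2 : c 2 = 0
      · -- only c 0
        have hsum : (b 4 + b 5) * c 0 = 0 := by
          rw [c1, c2] at hs; linear_combination hs
        have hsum' := (mul_eq_zero.1 hsum).resolve_right c0
        have b4 : b 4 ≠ 0 := by
          intro h4
          rcases hbne with h | h | h
          · exact h b3
          · exact h h4
          · rw [h4, zero_add] at hsum'; exact h hsum'
        refine ⟨0, b 4, c 0, b4, c0, ?_, ?_⟩
        · intro i; fin_cases i <;> simp [pt, ptz, qz, hb0, hb1, hb2, b3]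
          linear_combination hsum'
        · intro i; fin_cases i <;> simp [pt, ptz, pz, c1, c2, hc3, hc4, hc5]
      · -- c 0, c 2 ≠ 0
        have b5 : b 5 = 0 := (mul_eq_zero.1 e52).resolve_right c2
        have b4 : b 4 ≠ 0 := by rcases hbne with h | h | h; exacts [absurd b3 h, h, absurd b5 h]
        have hsum : b 4 * (c 0 + c 2) = 0 := by
          rw [b3, b5] at hs; linear_combination hs
        have hsum' := (mul_eq_zero.1 hsum).resolve_left b4
        refine ⟨4, b 4, c 2, b4, c2, ?_, ?_⟩
        · intro i; fin_cases i <;> simp [pt, ptz, qz, hb0, hb1, hb2, b3, b5]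
        · intro i; fin_cases i <;> simp [pt, ptz, pz, c1, hc3, hc4, hc5]
          linear_combination hsum'
    · have b4 : b 4 = 0 := (mul_eq_zero.1 e41).resolve_right c1
      have b5 : b 5 ≠ 0 := by rcases hbne with h | h | h; exacts [absurd b3 h, absurd b4 h, h]
      have c2 : c 2 = 0 := (mul_eq_zero.1 e52).resolve_left b5
      have hsum : b 5 * (c 0 + c 1) = 0 := by
        rw [b3, b4] at hs; linear_combination hs
      have hsum' := (mul_eq_zero.1 hsum).resolve_left b5
      refine ⟨5, b 5, c 0, b5, c0, ?_, ?_⟩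
      · intro i; fin_cases i <;> simp [pt, ptz, qz, hb0, hb1, hb2, b3, b4]
      · intro i; fin_cases i <;> simp [pt, ptz, pz, c2, hc3, hc4, hc5]
        linear_combination hsum'

/-- The scheme of rank one elements is reduced at the six points: no tangent vectors. -/
theorem no_tangent (j : Fin 6) {b c : Fin 6 → ℂ}
    (h : Slicey fun x y => b x * pt j 2 y + pt j 1 x * c y) (hb : b (cb j) = 0)
    (hc : c (cc j) = 0) : b = 0 ∧ c = 0 := by
  have hz := h.zero
  have hd := h.diag
  have hs := h.sum
  have z01 := hz 0 1 (by decide)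
  have z02 := hz 0 2 (by decide)
  have z10 := hz 1 0 (by decide)
  have z12 := hz 1 2 (by decide)
  have z20 := hz 2 0 (by decide)
  have z21 := hz 2 1 (by decide)
  have z34 := hz 3 4 (by decide)
  have z35 := hz 3 5 (by decide)
  have z43 := hz 4 3 (by decide)
  have z45 := hz 4 5 (by decide)
  have z53 := hz 5 3 (by decide)
  have z54 := hz 5 4 (by decide)
  have z30 := hz 3 0 (by decide)
  have z41 := hz 4 1 (by decide)
  have z52 := hz 5 2 (by decide)
  have d1 := hd 1
  have d2 := hd 2
  have d3 := hd 3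
  have d4 := hd 4
  have d5 := hd 5
  clear hz hd h
  have key : b 0 = 0 ∧ b 1 = 0 ∧ b 2 = 0 ∧ b 3 = 0 ∧ b 4 = 0 ∧ b 5 = 0 ∧
      c 0 = 0 ∧ c 1 = 0 ∧ c 2 = 0 ∧ c 3 = 0 ∧ c 4 = 0 ∧ c 5 = 0 := by
    fin_cases j <;> simp [pt, ptz, pz, qz, cb, cc] at * <;> grind
  obtain ⟨h0, h1, h2, h3, h4, h5, k0, k1, k2, k3, k4, k5⟩ := key
  constructor
  · funext i; fin_cases i <;> assumption
  · funext i; fin_cases i <;> assumption

end Pool.Agent.Helper87.BVSP
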