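import Pool.Agent.Helper87.BVSPLimit
import Pool.Agent.Helper87.BVSPLow

/-! Uniqueness of the ideal in the border VSP. -/

open MvPolynomial Filter Topology

namespace Pool.Agent.Helper87.BVSP

/-- Two different points of the configurations cannot converge to the same limit point. -/
theorem no_collision {J : Ideal (Cox 6)} (hJ : Good J) {Z : ℕ → Fin 6 → Fin 3 → Fin 6 → ℂ}
    (hH : ∀ k, hilb (idealOf (Z k)) (Pi.single 1 1) = 6) (hlim : ∀ d, LimitIn Z J d)
    {φ : ℕ → ℕ} (hφ : Tendsto φ atTop atTop) {i i' : Fin 6} (hne : i ≠ i') (j : Fin 6)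
    (B B' C C' : ℕ → Fin 6 → ℂ)
    (c c' e e' : ℕ → ℂ) (hB : ∀ k, B k = c k • Z (φ k) i 1) (hB' : ∀ k, B' k = c' k • Z (φ k) i' 1)
    (hC : ∀ k, C k = e k • Z (φ k) i 2) (hC' : ∀ k, C' k = e' k • Z (φ k) i' 2)
    (hBl : Tendsto B atTop (𝓝 (pt j 1))) (hBl' : Tendsto B' atTop (𝓝 (pt j 1)))
    (hCl : Tendsto C atTop (𝓝 (pt j 2))) (hCl' : Tendsto C' atTop (𝓝 (pt j 2)))
    (hB1 : ∀ᶠ k in atTop, B k (cb j) = 1) (hB1' : ∀ᶠ k in atTop, B' k (cb j) = 1)
    (hC1 : ∀ᶠ k in atTop, C k (cc j) = 1) (hC1' : ∀ᶠ k in atTop, C' k (cc j) = 1) : False := by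
  -- the difference is nonzero
  have hD : ∀ᶠ k in atTop, (B k - B' k, C k - C' k) ≠ 0 := by
    filter_upwards [hB1, hB1'] with k h1 h1' h0
    have h2 : B k - B' k = 0 := congrArg Prod.fst h0
    have h3 : B k = B' k := sub_eq_zero.1 h2
    have hc : c k ≠ 0 := by
      intro h
      have := hB k
      rw [h, zero_smul] at this
      rw [this] at h1
      simp at h1
    refine not_proportional (hH (φ k)) hne (t := (c k)⁻¹ * c' k) ?_
    rw [mul_smul, ← hB' k, ← h3, hB k, smul_smul, inv_mul_cancel₀ hc, one_smul]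
  set D : ℕ → (Fin 6 → ℂ) × (Fin 6 → ℂ) := fun k => (B k - B' k, C k - C' k) with hDdef
  set u : ℕ → (Fin 6 → ℂ) × (Fin 6 → ℂ) := fun k => ((‖D k‖⁻¹ : ℝ) : ℂ) • D k with hu
  have hun : ∀ᶠ k in atTop, ‖u k‖ = 1 := by
    filter_upwards [hD] with k hk
    rw [hu]
    simp only
    rw [norm_smul, Complex.norm_real, norm_inv, norm_norm]
    exact inv_mul_cancel₀ (norm_ne_zero_iff.2 hk)
  have hub : ∀ k, u k ∈ Metric.closedBall (0 : (Fin 6 → ℂ) × (Fin 6 → ℂ)) 1 := by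
    intro k
    rw [mem_closedBall_zero_iff, hu]
    simp only
    rw [norm_smul, Complex.norm_real, norm_inv, norm_norm]
    by_cases h : ‖D k‖ = 0
    · rw [h]; simp
    · rw [inv_mul_cancel₀ h]
  obtain ⟨v, hv, ψ, hψ, hvl⟩ := (isCompact_closedBall (0 : (Fin 6 → ℂ) × (Fin 6 → ℂ)) 1).tendsto_subseq hub
  have hψt := hψ.tendsto_atTop
  have hvn : ‖v‖ = 1 := by
    have h1 : Tendsto (fun k => ‖(u ∘ ψ) k‖) atTop (𝓝 ‖v‖) := hvl.norm
    have h2 : Tendsto (fun k => ‖(u ∘ ψ) k‖) atTop (𝓝 1) := by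
      refine tendsto_const_nhds.congr' ?_
      filter_upwards [hψt.eventually hun] with k hk
      exact hk.symm
    exact tendsto_nhds_unique h1 h2
  have hv1 : Tendsto (fun k => (u (ψ k)).1) atTop (𝓝 v.1) := (continuous_fst.tendsto v).comp hvl
  have hv2 : Tendsto (fun k => (u (ψ k)).2) atTop (𝓝 v.2) := (continuous_snd.tendsto v).comp hvl
  -- the limit equation
  have key : ∀ f ∈ J, f ∈ piece 6 d011 → bil v.1 (pt j 2) f + bil (pt j 1) v.2 f = 0 := by
    intro f hf hfp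
    obtain ⟨g, hg, hgl⟩ := hlim d011 f hf hfp
    have hz : ∀ k, bil (u k).1 (C k) (g (φ k)) + bil (B' k) (u k).2 (g (φ k)) = 0 := by
      intro k
      have h1 : ∀ (i : Fin 6) (s t : ℂ),
          bil (s • Z (φ k) i 1) (t • Z (φ k) i 2) (g (φ k)) = 0 := by
        intro i s t
        rw [bil_smul_left, bil_smul_right, ← ev_eq_bil _ (hg (φ k)).2,
          (mem_idealOf (hg (φ k)).2).1 (hg (φ k)).1 i, mul_zero, mul_zero]
      have h2 : bil (B k) (C k) (g (φ k)) = 0 := by rw [hB, hC]; exact h1 _ _ _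
      have h3 : bil (B' k) (C' k) (g (φ k)) = 0 := by rw [hB', hC']; exact h1 _ _ _
      have e1 : (u k).1 = ((‖D k‖⁻¹ : ℝ) : ℂ) • (B k + (-1 : ℂ) • B' k) := by
        rw [hu, hDdef]; simp [sub_eq_add_neg]
      have e2 : (u k).2 = ((‖D k‖⁻¹ : ℝ) : ℂ) • (C k + (-1 : ℂ) • C' k) := by
        rw [hu, hDdef]; simp [sub_eq_add_neg]
      rw [e1, e2, bil_smul_left, bil_smul_right, bil_add_left, bil_add_right, bil_smul_left,
        bil_smul_right, h2, h3]
      ring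
    have ht : Tendsto (fun k => bil (u (ψ k)).1 (C (ψ k)) (g (φ (ψ k))) +
        bil (B' (ψ k)) (u (ψ k)).2 (g (φ (ψ k)))) atTop
        (𝓝 (bil v.1 (pt j 2) f + bil (pt j 1) v.2 f)) := by
      have hgl' : ∀ w, Tendsto (fun k => coeff w (g (φ (ψ k)))) atTop (𝓝 (coeff w f)) :=
        fun w => (hgl w).comp (hφ.comp hψt)
      exact (tendsto_bil hgl' hv1 (hCl.comp hψt)).add (tendsto_bil hgl' (hBl'.comp hψt) hv2)
    simp only [hz] at ht
    exact tendsto_nhds_unique ht tendsto_const_nhds |>.trans rfl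
  have hS : Slicey fun x y => v.1 x * pt j 2 y + pt j 1 x * v.2 y := by
    refine slicey_of_ev hJ (bil v.1 (pt j 2) + bil (pt j 1) v.2) (fun x y => ?_) (fun f hf hfp => ?_)
    · rw [LinearMap.add_apply, bil_XX, bil_XX]
    · rw [LinearMap.add_apply]; exact key f hf hfp
  have hvb : v.1 (cb j) = 0 := by
    have h1 : Tendsto (fun k => (u (ψ k)).1 (cb j)) atTop (𝓝 (v.1 (cb j))) :=
      (tendsto_pi_nhds.1 hv1) _
    have h2 : Tendsto (fun k => (u (ψ k)).1 (cb j)) atTop (𝓝 0) := by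
      refine tendsto_const_nhds.congr' ?_
      filter_upwards [hψt.eventually hB1, hψt.eventually hB1'] with k hk hk'
      rw [hu, hDdef]
      simp [hk, hk']
    exact tendsto_nhds_unique h1 h2
  have hvc : v.2 (cc j) = 0 := by
    have h1 : Tendsto (fun k => (u (ψ k)).2 (cc j)) atTop (𝓝 (v.2 (cc j))) :=
      (tendsto_pi_nhds.1 hv2) _
    have h2 : Tendsto (fun k => (u (ψ k)).2 (cc j)) atTop (𝓝 0) := by
      refine tendsto_const_nhds.congr' ?_
      filter_upwards [hψt.eventually hC1, hψt.eventually hC1'] with k hk hk'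
      rw [hu, hDdef]
      simp [hk, hk']
    exact tendsto_nhds_unique h1 h2
  obtain ⟨hv10, hv20⟩ := no_tangent j hS hvb hvc
  have : v = 0 := Prod.ext hv10 hv20
  rw [this, norm_zero] at hvn
  exact zero_ne_one hvn

/-- All forms of a limit ideal vanish at the six rank one points. -/
theorem vanish_at_points {J : Ideal (Cox 6)} (hJ : Good J) {Z : ℕ → Fin 6 → Fin 3 → Fin 6 → ℂ}
    (hZ : ∀ k, DistinctPoints (Z k))
    (hH : ∀ k, hilb (idealOf (Z k)) (Pi.single 1 1) = 6) (hlim : ∀ d, LimitIn Z J d)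
    (d : Fin 3 → ℕ) (f : Cox 6) (hfJ : f ∈ J) (hfp : f ∈ piece 6 d) (j : Fin 6) :
    ev (pt j) f = 0 := by
  -- normalised points
  set N : ℕ → Fin 6 → Fin 3 → Fin 6 → ℂ :=
    fun k i s => ((‖Z k i s‖⁻¹ : ℝ) : ℂ) • Z k i s with hN
  have hNn : ∀ k i s, ‖N k i s‖ = 1 := by
    intro k i s
    rw [hN]
    simp only
    rw [norm_smul, Complex.norm_real, norm_inv, norm_norm]
    exact inv_mul_cancel₀ (norm_ne_zero_iff.2 ((hZ k).1 i s))
  have hK : IsCompact (Set.pi Set.univ fun _ : Fin 6 => Set.pi Set.univ fun _ : Fin 3 =>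
      Metric.sphere (0 : Fin 6 → ℂ) 1) :=
    isCompact_univ_pi fun _ => isCompact_univ_pi fun _ => isCompact_sphere _ _
  obtain ⟨z, hz, φ, hφ, hzl⟩ := hK.tendsto_subseq (x := N) (fun k i _ s _ => by
    simpa using hNn k i s)
  have hφt := hφ.tendsto_atTop
  have hzn : ∀ i s, ‖z i s‖ = 1 := by
    intro i s
    have := hz i (Set.mem_univ i) s (Set.mem_univ s)
    simpa using this
  have hzne : ∀ i s, z i s ≠ 0 := by
    intro i s h
    have := hzn i s
    rw [h, norm_zero] at this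
    exact zero_ne_one this
  have hcoord : ∀ i s, Tendsto (fun k => N (φ k) i s) atTop (𝓝 (z i s)) := by
    intro i s
    exact (tendsto_pi_nhds.1 ((tendsto_pi_nhds.1 hzl) i)) s
  have hev : ∀ i d, ∀ f ∈ J, f ∈ piece 6 d → ev (z i) f = 0 := by
    intro i d f hf hfp
    refine ev_limit (hlim d) hf hfp hφt i (fun k => N (φ k) i)
      (fun k s => ((‖Z (φ k) i s‖⁻¹ : ℝ) : ℂ)) (fun k s x => ?_) (z i) (fun s x => ?_)
    · rw [hN]; simp
    · exact (tendsto_pi_nhds.1 (hcoord i s)) x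
  have hform := fun i => point_form hJ (hzne i) (hev i)
  choose τ c hc hzc using hform
  have hinj : Function.Injective τ := by
    intro i i' hii
    by_contra hne
    set j := τ i with hj
    -- rescaled sequences
    have hlim1 : ∀ l : Fin 6, τ l = j →
        Tendsto (fun k => (N (φ k) l 1 (cb j))⁻¹ • N (φ k) l 1) atTop (𝓝 (pt j 1)) ∧
        Tendsto (fun k => (N (φ k) l 2 (cc j))⁻¹ • N (φ k) l 2) atTop (𝓝 (pt j 2)) ∧
        (∀ᶠ k in atTop, ((N (φ k) l 1 (cb j))⁻¹ • N (φ k) l 1) (cb j) = 1) ∧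
        (∀ᶠ k in atTop, ((N (φ k) l 2 (cc j))⁻¹ • N (φ k) l 2) (cc j) = 1) := by
      intro l hl
      have h1 : z l 1 (cb j) = c l 1 := by rw [hzc l 1, hl, pt_cb, mul_one]
      have h2 : z l 2 (cc j) = c l 2 := by rw [hzc l 2, hl, pt_cc, mul_one]
      have t1 : Tendsto (fun k => N (φ k) l 1 (cb j)) atTop (𝓝 (c l 1)) := by
        rw [← h1]; exact (tendsto_pi_nhds.1 (hcoord l 1)) _
      have t2 : Tendsto (fun k => N (φ k) l 2 (cc j)) atTop (𝓝 (c l 2)) := by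
        rw [← h2]; exact (tendsto_pi_nhds.1 (hcoord l 2)) _
      have p1 : pt j 1 = (c l 1)⁻¹ • z l 1 := by
        funext x
        rw [Pi.smul_apply, hzc l 1 x, hl, smul_eq_mul, ← mul_assoc, inv_mul_cancel₀ (hc l 1),
          one_mul]
      have p2 : pt j 2 = (c l 2)⁻¹ • z l 2 := by
        funext x
        rw [Pi.smul_apply, hzc l 2 x, hl, smul_eq_mul, ← mul_assoc, inv_mul_cancel₀ (hc l 2),
          one_mul]
      refine ⟨?_, ?_, ?_, ?_⟩
      · rw [p1]; exact (t1.inv₀ (hc l 1)).smul (hcoord l 1)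
      · rw [p2]; exact (t2.inv₀ (hc l 2)).smul (hcoord l 2)
      · filter_upwards [t1.eventually_ne (hc l 1)] with k hk
        rw [Pi.smul_apply, smul_eq_mul, inv_mul_cancel₀ hk]
      · filter_upwards [t2.eventually_ne (hc l 2)] with k hk
        rw [Pi.smul_apply, smul_eq_mul, inv_mul_cancel₀ hk]
    obtain ⟨a1, a2, a3, a4⟩ := hlim1 i rfl
    obtain ⟨b1, b2, b3, b4⟩ := hlim1 i' hii.symm
    refine no_collision hJ hH hlim hφt hne j _ _ _ _
      (fun k => (N (φ k) i 1 (cb j))⁻¹ * ((‖Z (φ k) i 1‖⁻¹ : ℝ) : ℂ))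
      (fun k => (N (φ k) i' 1 (cb j))⁻¹ * ((‖Z (φ k) i' 1‖⁻¹ : ℝ) : ℂ))
      (fun k => (N (φ k) i 2 (cc j))⁻¹ * ((‖Z (φ k) i 2‖⁻¹ : ℝ) : ℂ))
      (fun k => (N (φ k) i' 2 (cc j))⁻¹ * ((‖Z (φ k) i' 2‖⁻¹ : ℝ) : ℂ))
      (fun k => ?_) (fun k => ?_) (fun k => ?_) (fun k => ?_) a1 b1 a2 b2 a3 b3 a4 b4
    all_goals rw [mul_smul]
  have hsurj : Function.Surjective τ := Finite.surjective_of_injective hinj
  obtain ⟨i, rfl⟩ := hsurj j
  have h1 := hev i d f hfJ hfp
  have h2 : z i = fun s x => c i s * pt (τ i) s x := by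
    funext s x; exact hzc i s x
  rw [h2, ev_scale hfp] at h1
  refine (mul_eq_zero.1 h1).resolve_left ?_
  exact Finset.prod_ne_zero_iff.2 fun s _ => pow_ne_zero _ (hc i s)

end Pool.Agent.Helper87.BVSP
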