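import Pool.Agent.Helper87.BVSPExist

/-! Border rank, conciseness and wildness of the example. -/

open MvPolynomial Filter Topology

namespace Pool.Agent.Helper87.BVSP

/-! ### Border rank -/

theorem six_le_of_borderRankLE {r : ℕ} (h : BorderRankLE F₀ r) : 6 ≤ r := by
  by_contra hlt
  push Not at hlt
  obtain ⟨G, hG, hGl⟩ := h
  set A : Cox 6 → Matrix (Fin 6) (Fin 6) ℂ := fun g b c => coeff (e3 0 b c) g with hA
  have hdet : ∀ k, (A (G k)).det = 0 := by
    intro k
    obtain ⟨Z, hZ⟩ := hG k
    by_contra hne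
    have hrank := Matrix.rank_of_isUnit (A (G k)) ((Matrix.isUnit_iff_isUnit_det _).2
      (isUnit_iff_ne_zero.2 hne))
    set P : Matrix (Fin 6) (Fin r) ℂ := fun b i => Z i 0 0 * Z i 1 b
    set Q : Matrix (Fin r) (Fin 6) ℂ := fun i c => Z i 2 c
    have hPQ : A (G k) = P * Q := by
      funext b c
      rw [hA, hZ, Matrix.mul_apply]
      simp only [coeff_sum]
      refine Finset.sum_congr rfl fun i _ => ?_
      rw [simple_eq, coeff_ofTensor]
    rw [hPQ] at hrank
    have h1 := Matrix.rank_mul_le_left P Q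
    have h2 := Matrix.rank_le_card_width P
    simp only [Fintype.card_fin] at h2 hrank
    omega
  have hcont : Tendsto (fun k => (A (G k)).det) atTop (𝓝 (A F₀).det) := by
    simp only [Matrix.det_apply]
    refine tendsto_finsetSum _ fun σ _ => ?_
    refine Tendsto.const_smul ?_ _
    exact tendsto_finsetProd _ fun i _ => hGl (e3 0 (σ i) i)
  have hone : A F₀ = 1 := by
    funext b c
    rw [hA]
    simp only
    rw [F₀, coeff_ofTensor, Matrix.one_apply]
    have : Tz 0 b c = if b = c then 1 else 0 := by simp [Tz]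
    rw [this]; split_ifs <;> simp
  simp only [hdet] at hcont
  rw [hone, Matrix.det_one] at hcont
  exact zero_ne_one (tendsto_nhds_unique tendsto_const_nhds hcont)

theorem borderRank_eq : borderRank F₀ = 6 := by
  apply le_antisymm
  · exact Nat.sInf_le borderRankLE_six
  · have h := Nat.sInf_mem (s := {r | BorderRankLE F₀ r}) ⟨6, borderRankLE_six⟩
    exact six_le_of_borderRankLE h

/-! ### Linear forms -/

/-- linear form in the `s`-th group with coefficients `v` -/
noncomputable def lin (s : Fin 3) (v : Fin 6 → ℂ) : Cox 6 := ∑ x, C (v x) * X (s, x)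

theorem lin_mem (s : Fin 3) (v : Fin 6 → ℂ) : lin s v ∈ piece 6 (Pi.single s 1) := by
  refine Submodule.sum_mem _ fun x _ => ?_
  rw [← smul_eq_C_mul]
  exact Submodule.smul_mem _ _ (X_mem_piece _ _)

theorem exists_lin {s : Fin 3} {g : Cox 6} (hg : g ∈ piece 6 (Pi.single s 1)) :
    ∃ v, g = lin s v := by
  rw [piece_single, Submodule.mem_span_range_iff_exists_fun] at hg
  obtain ⟨c, rfl⟩ := hg
  exact ⟨c, Finset.sum_congr rfl fun x _ => by rw [smul_eq_C_mul]⟩

theorem pair_lin0 (v : Fin 6 → ℂ) (b c : Fin 6) :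
    pair F₀ (lin 0 v * X (1, b) * X (2, c)) = ∑ x, v x * (Tz x b c : ℂ) := by
  rw [lin, Finset.sum_mul, Finset.sum_mul, map_sum]
  refine Finset.sum_congr rfl fun x _ => ?_
  have e : (C (v x) * X (0, x) * X (1, b) * X (2, c) : Cox 6) =
    C (v x) * (X (0, x) * X (1, b) * X (2, c)) := by ring
  rw [e, ← smul_eq_C_mul, map_smul, pairF_XXX, smul_eq_mul]

theorem concise_F₀ : Concise F₀ := by
  intro s g hg h0
  obtain ⟨v, rfl⟩ := exists_lin hg
  have hp := pair_eq_zero_of_act F₀_mem h0
  have hv : v = 0 := by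
    funext i
    fin_cases s
    · have h1 := hp (X (1, (g011 i).1) * X (2, (g011 i).2))
      have e : (X (1, (g011 i).1) * X (2, (g011 i).2) * lin 0 v : Cox 6) =
        lin 0 v * X (1, (g011 i).1) * X (2, (g011 i).2) := by ring
      rw [Fin.zero_eta, e, pair_lin0] at h1
      have : ∀ i j : Fin 6, Tz j (g011 i).1 (g011 i).2 = if j = i then 1 else 0 := by decide
      simp only [this] at h1
      simpa using h1
    · have h1 := hp (X (0, 0) * X (2, i))
      rw [Fin.mk_one, lin, Finset.mul_sum, map_sum] at h1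
      have e : ∀ x, pair F₀ (X (0, 0) * X (2, i) * (C (v x) * X (1, x))) =
          v x * (Tz 0 x i : ℂ) := by
        intro x
        have e : (X (0, 0) * X (2, i) * (C (v x) * X (1, x)) : Cox 6) =
          C (v x) * (X (0, 0) * X (1, x) * X (2, i)) := by ring
        rw [e, ← smul_eq_C_mul, map_smul, pairF_XXX, smul_eq_mul]
      simp only [e] at h1
      have : ∀ i j : Fin 6, Tz 0 j i = if j = i then 1 else 0 := by decide
      simp only [this] at h1
      simpa using h1
    · have h1 := hp (X (0, 0) * X (1, i))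
      have e0 : (⟨2, by decide⟩ : Fin 3) = 2 := rfl
      rw [e0, lin, Finset.mul_sum, map_sum] at h1
      have e : ∀ x, pair F₀ (X (0, 0) * X (1, i) * (C (v x) * X (2, x))) =
          v x * (Tz 0 i x : ℂ) := by
        intro x
        have e : (X (0, 0) * X (1, i) * (C (v x) * X (2, x)) : Cox 6) =
          C (v x) * (X (0, 0) * X (1, i) * X (2, x)) := by ring
        rw [e, ← smul_eq_C_mul, map_smul, pairF_XXX, smul_eq_mul]
      simp only [e] at h1
      have : ∀ i j : Fin 6, Tz 0 i j = if j = i then 1 else 0 := by decide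
      simp only [this] at h1
      simpa using h1
  rw [hv]; simp [lin]

/-! ### Nonzerodivisors on saturated ideals -/

theorem X_mul_mem_irrelevant {m : ℕ} [NeZero m] {p : Ideal (Cox m)} (s : Fin 3)
    (h : ∀ i, (X (s, i) : Cox m) ∈ p) : irrelevant m ≤ p := by
  rw [irrelevant, Ideal.span_le]
  rintro _ ⟨i, j, k, rfl⟩
  fin_cases s
  · exact p.mul_mem_right _ (p.mul_mem_right _ (h i))
  · exact p.mul_mem_right _ (p.mul_mem_left _ (h j))
  · exact p.mul_mem_left _ (h k)

theorem exists_regular_lin {K : Ideal (Cox 6)} (hK : Saturated K) (s : Fin 3) :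
    ∃ v : Fin 6 → ℂ, ∀ f, lin s v * f ∈ K → f ∈ K := by
  classical
  set M := Cox 6 ⧸ K with hM
  have hfin : (associatedPrimes (Cox 6) M).Finite := associatedPrimes.finite (Cox 6) M
  -- linear map from coefficient vectors to linear forms
  set ℓ : (Fin 6 → ℂ) →ₗ[ℂ] Cox 6 :=
    { toFun := lin s
      map_add' := fun v w => by
        simp only [lin, Pi.add_apply, C_add, add_mul, Finset.sum_add_distrib]
      map_smul' := fun c v => by
        simp only [lin, Pi.smul_apply, smul_eq_mul, C_mul, RingHom.id_apply]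
        rw [Finset.smul_sum]
        exact Finset.sum_congr rfl fun x _ => by rw [smul_eq_C_mul]; ring } with hℓ
  set U : Finset (Subspace ℂ (Fin 6 → ℂ)) :=
    hfin.toFinset.image fun p => (p.restrictScalars ℂ).comap ℓ with hU
  have htop : ⊤ ∉ U := by
    rw [hU, Finset.mem_image]
    rintro ⟨p, hp, hpt⟩
    rw [Set.Finite.mem_toFinset, AssociatedPrimes.mem_iff, isAssociatedPrime_iff] at hp
    obtain ⟨hprime, x, hx⟩ := hp
    have hX : ∀ i, (X (s, i) : Cox 6) ∈ p := by
      intro i
      have h1 : (Pi.single i 1 : Fin 6 → ℂ) ∈ (p.restrictScalars ℂ).comap ℓ := by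
        rw [hpt]; exact Submodule.mem_top
      have h2 : lin s (Pi.single i 1) ∈ p := h1
      have h3 : lin s (Pi.single i 1) = X (s, i) := by
        rw [lin, Finset.sum_eq_single i]
        · simp
        · intro j _ hj; simp [hj]
        · simp
      rw [h3] at h2; exact h2
    have hirr := X_mul_mem_irrelevant s hX
    obtain ⟨f, rfl⟩ := Ideal.Quotient.mk_surjective x
    have hf : f ∈ K := by
      refine hK f ⟨1, fun b hb => ?_⟩
      rw [pow_one] at hb
      have h1 := hirr hb
      rw [hx, Submodule.mem_colon_singleton, Submodule.mem_bot] at h1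
      have h2 : Ideal.Quotient.mk K (b * f) = 0 := by
        rw [map_mul]; exact h1
      exact Ideal.Quotient.eq_zero_iff_mem.1 h2
    have h0 : Ideal.Quotient.mk K f = 0 := Ideal.Quotient.eq_zero_iff_mem.2 hf
    have hone : (1 : Cox 6) ∈ p := by
      rw [hx, Submodule.mem_colon_singleton, h0, smul_zero]; exact Submodule.zero_mem _
    exact hprime.ne_top ((Ideal.eq_top_iff_one p).2 hone)
  have hne := Subspace.biUnion_ne_univ_of_top_notMem htop
  obtain ⟨v, hv⟩ := (Set.ne_univ_iff_exists_notMem _).1 hne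
  refine ⟨v, fun f hf => ?_⟩
  by_contra hfK
  apply hv
  have h1 : lin s v ∈ ⋃ p ∈ associatedPrimes (Cox 6) M, (p : Set (Cox 6)) := by
    rw [biUnion_associatedPrimes_eq_zero_divisors]
    refine ⟨Ideal.Quotient.mk K f, ?_, ?_⟩
    · intro h; exact hfK (Ideal.Quotient.eq_zero_iff_mem.1 h)
    · have : Ideal.Quotient.mk K (lin s v * f) = 0 := Ideal.Quotient.eq_zero_iff_mem.2 hf
      rw [map_mul] at this
      exact this
  rw [Set.mem_iUnion₂] at h1 ⊢
  obtain ⟨p, hp, hpv⟩ := h1
  refine ⟨(p.restrictScalars ℂ).comap ℓ, ?_, hpv⟩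
  rw [hU, Finset.mem_image]
  exact ⟨p, by rw [Set.Finite.mem_toFinset]; exact hp, rfl⟩

theorem hilb_mono_mul {K : Ideal (Cox 6)} {L : Cox 6} {e : Fin 3 → ℕ} (hL : L ∈ piece 6 e)
    (hreg : ∀ f, L * f ∈ K → f ∈ K) (d : Fin 3 → ℕ) : hilb K d ≤ hilb K (e + d) := by
  set Q := piece 6 (e + d) ⧸ (K.restrictScalars ℂ).comap (piece 6 (e + d)).subtype with hQ
  set μ : piece 6 d →ₗ[ℂ] piece 6 (e + d) :=
    { toFun := fun f => ⟨L * f.1, mul_mem_piece hL f.2⟩
      map_add' := fun f g => by ext1; simp [mul_add]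
      map_smul' := fun c f => by ext1; simp } with hμ
  set ν := ((K.restrictScalars ℂ).comap (piece 6 (e + d)).subtype).mkQ.comp μ with hν
  have hker : LinearMap.ker ν = (K.restrictScalars ℂ).comap (piece 6 d).subtype := by
    ext f
    rw [LinearMap.mem_ker, hν, LinearMap.comp_apply, Submodule.mkQ_apply,
      Submodule.Quotient.mk_eq_zero]
    constructor
    · intro h; exact hreg _ h
    · intro h; exact K.mul_mem_left _ h
  have h1 := Submodule.finrank_quotient_add_finrank
    ((K.restrictScalars ℂ).comap (piece 6 d).subtype)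
  have h2 := LinearMap.finrank_range_add_finrank_ker ν
  rw [hker] at h2
  have h3 : Module.finrank ℂ (LinearMap.range ν) ≤ Module.finrank ℂ Q :=
    Submodule.finrank_le _
  have h4 : hilb K d + Module.finrank ℂ ((K.restrictScalars ℂ).comap (piece 6 d).subtype) =
      Module.finrank ℂ (piece 6 d) := h1
  have h5 : Module.finrank ℂ Q = hilb K (e + d) := rfl
  omega

/-- The tensor is not in the span of any finite subscheme of length at most six. -/
theorem six_lt_length {K : Ideal (Cox 6)} {l : ℕ} (hK : IsFiniteScheme K l)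
    (hF : InSpan F₀ K) : 6 < l := by
  by_contra hle
  push Not at hle
  obtain ⟨hhom, hsat, d₀, hd₀⟩ := hK
  choose v hv using exists_regular_lin hsat
  -- product of the three regular linear forms
  set L : Cox 6 := lin 0 (v 0) * lin 1 (v 1) * lin 2 (v 2) with hL
  set e : Fin 3 → ℕ := Pi.single 0 1 + Pi.single 1 1 + Pi.single 2 1 with he
  have he1 : ∀ s, e s = 1 := by intro s; rw [he]; fin_cases s <;> simp
  have hLm : L ∈ piece 6 e :=
    mul_mem_piece (mul_mem_piece (lin_mem _ _) (lin_mem _ _)) (lin_mem _ _)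
  have hLreg : ∀ f, L * f ∈ K → f ∈ K := by
    intro f hf
    rw [hL, mul_assoc, mul_assoc] at hf
    exact hv 2 _ (hv 1 _ (hv 0 _ hf))
  have hstep : ∀ (n : ℕ) (d : Fin 3 → ℕ), hilb K d ≤ hilb K (n • e + d) := by
    intro n
    induction n with
    | zero => intro d; simp
    | succ n ih =>
      intro d
      refine (ih d).trans ?_
      have := hilb_mono_mul hLm hLreg (n • e + d)
      rw [← add_assoc, ← succ_nsmul'] at this
      exact this
  have hbound : ∀ d, hilb K d ≤ 6 := by
    intro d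
    have h1 := hstep (d₀ 0 + d₀ 1 + d₀ 2) d
    have h2 : d₀ ≤ (d₀ 0 + d₀ 1 + d₀ 2) • e + d := by
      intro s
      simp only [Pi.add_apply, Pi.smul_apply, he1, smul_eq_mul, mul_one]
      fin_cases s <;> simp <;> omega
    rw [hd₀ _ h2] at h1
    omega
  -- pairing vanishes on K in degree (1,1,1)
  have hpair : ∀ f ∈ K, f ∈ piece 6 d111 → pair F₀ f = 0 := by
    intro f hf hfp
    have h1 := hF f hf hfp
    have h2 := (act_eq_zero_iff F₀_mem f).1 h1 0
    simpa using h2
  have e111 : d110 + Pi.single 2 1 = d111 := by ext s; fin_cases s <;> simp [d111]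
  -- degree (1,1,0)
  have hφ : ∀ f ∈ K, f ∈ piece 6 d110 → phi F₀ 2 f = 0 := by
    intro f hf hfp
    funext k
    rw [phi_apply]
    refine hpair _ (K.mul_mem_right _ hf) ?_
    rw [← e111]
    exact mul_mem_piece hfp (X_mem_piece _ _)
  have hG : ∀ j : Fin 6, (X (0, 0) * X (1, j) : Cox 6) ∈ piece 6 d110 :=
    fun j => mul_mem_piece (X_mem_piece _ _) (X_mem_piece _ _)
  have hφG : ∀ i j : Fin 6, phi F₀ 2 (X (0, 0) * X (1, j)) i = if i = j then 1 else 0 := by
    intro i j
    rw [phi_apply, pairF_XXX]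
    have : ∀ i j : Fin 6, Tz 0 j i = if i = j then 1 else 0 := by decide
    rw [this]; split_ifs <;> simp
  have h6 : hilb K d110 = 6 := by
    refine le_antisymm (hbound _) ?_
    have h1 := finrank_add_le_of_functionals (V := part K d110) (P := piece 6 d110)
      (part_le _ _) (phi F₀ 2) (fun f hf => hφ f (mem_part.1 hf).1 (mem_part.1 hf).2)
      (fun j => X (0, 0) * X (1, j)) hG hφG
    have h2 := hilb_add_finrank K d110
    omega
  -- a nonzero linear form killing lin 1 (v 1)
  set B : (Fin 6 → ℂ) →ₗ[ℂ] (Fin 4 → ℂ) := LinearMap.pi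
    ![LinearMap.proj 0,
      ∑ a : Fin 6, (∑ b, v 1 b * (Tz a b 0 : ℂ)) • (LinearMap.proj a : (Fin 6 → ℂ) →ₗ[ℂ] ℂ),
      ∑ a : Fin 6, (∑ b, v 1 b * (Tz a b 1 : ℂ)) • (LinearMap.proj a : (Fin 6 → ℂ) →ₗ[ℂ] ℂ),
      ∑ a : Fin 6, (∑ b, v 1 b * (Tz a b 2 : ℂ)) • (LinearMap.proj a : (Fin 6 → ℂ) →ₗ[ℂ] ℂ)]
    with hB
  have hBker : LinearMap.ker B ≠ ⊥ := LinearMap.ker_ne_bot_of_finrank_lt (by simp)
  obtain ⟨w, hw, hw0⟩ := Submodule.exists_mem_ne_zero_of_ne_bot hBker
  rw [LinearMap.mem_ker] at hw
  have hw00 : w 0 = 0 := by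
    have := congrFun hw 0
    simpa [hB] using this
  have hwc : ∀ c : Fin 6, ∑ a, (∑ b, v 1 b * (Tz a b c : ℂ)) * w a = 0 := by
    intro c
    by_cases hc : c.val < 3
    · rcases aux2 c hc with rfl | rfl | rfl
      · have := congrFun hw 1
        simpa [hB, LinearMap.sum_apply] using this
      · have := congrFun hw 2
        simpa [hB, LinearMap.sum_apply] using this
      · have := congrFun hw 3
        simpa [hB, LinearMap.sum_apply] using this
    · refine Finset.sum_eq_zero fun a _ => ?_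
      by_cases ha : a = 0
      · rw [ha, hw00, mul_zero]
      · have h1 : ∀ a b c : Fin 6, a ≠ 0 → ¬ c.val < 3 → Tz a b c = 0 := by decide
        have h2 : ∑ b, v 1 b * (Tz a b c : ℂ) = 0 :=
          Finset.sum_eq_zero fun b _ => by rw [h1 a b c ha hc]; simp
        rw [h2, zero_mul]
  have hmem : lin 0 w * lin 1 (v 1) ∈ K := by
    refine mem_of_functionals h6 (phi F₀ 2) hφ (fun j => X (0, 0) * X (1, j)) hG hφG
      (mul_mem_piece (lin_mem _ _) (lin_mem _ _)) ?_
    funext c
    rw [phi_apply]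
    change _ = (0 : ℂ)
    rw [← hwc c]
    have e1 : lin 0 w * lin 1 (v 1) * X (2, c) =
        ∑ b, C (v 1 b) * (lin 0 w * X (1, b) * X (2, c)) := by
      rw [lin, lin, Finset.mul_sum, Finset.sum_mul]
      refine Finset.sum_congr rfl fun b _ => ?_
      ring
    rw [e1, map_sum]
    have e2 : ∀ b, pair F₀ (C (v 1 b) * (lin 0 w * X (1, b) * X (2, c))) =
        ∑ a, v 1 b * (w a * (Tz a b c : ℂ)) := by
      intro b
      rw [← smul_eq_C_mul, map_smul, pair_lin0, smul_eq_mul, Finset.mul_sum]
    simp only [e2]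
    rw [Finset.sum_comm]
    refine Finset.sum_congr rfl fun a _ => ?_
    rw [Finset.sum_mul]
    exact Finset.sum_congr rfl fun b _ => by ring
  have hmem' : lin 0 w ∈ K := by
    refine hv 1 _ ?_
    rw [mul_comm]; exact hmem
  apply hw0
  funext i
  have h1 := hpair (lin 0 w * X (1, (g011 i).1) * X (2, (g011 i).2))
    (K.mul_mem_right _ (K.mul_mem_right _ hmem')) (by
      rw [← e111]
      exact mul_mem_piece (mul_mem_piece (lin_mem _ _) (X_mem_piece _ _)) (X_mem_piece _ _))
  rw [pair_lin0] at h1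
  have : ∀ i j : Fin 6, Tz j (g011 i).1 (g011 i).2 = if j = i then 1 else 0 := by decide
  simp only [this] at h1
  simpa using h1

theorem wild_F₀ : Wild F₀ := by
  intro K l hK _ hF
  rw [borderRank_eq]
  exact six_lt_length hK hF

end Pool.Agent.Helper87.BVSP
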